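import Pool.Agent.H760.AR.Stm5

/-!
# Derivations of the complex numbers detect transcendental numbers (AL1)
-/

set_option autoImplicit false

namespace Pool.Agent.H100.AR

open TensorProduct

theorem AL1_aux (z : ℂ) (hz : ¬ IsAlgebraic ℚ z) : ∃ D : Derivation ℚ ℂ ℂ, D z ≠ 0 := by
  classical
  have h0 : AlgebraicIndepOn ℚ id ({z} : Set ℂ) := by
    show AlgebraicIndependent ℚ (fun x : ({z} : Set ℂ) => id (x : ℂ))
    rw [algebraicIndependent_unique_type_iff]
    exact hz
  obtain ⟨t, hzt, ht⟩ := exists_isTranscendenceBasis_superset h0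
  have hinj : Function.Injective (MvPolynomial.aeval (R := ℚ) (fun i : t => (i : ℂ))) := ht.1
  let _ : Algebra (MvPolynomial t ℚ) ℂ :=
    (MvPolynomial.aeval (R := ℚ) (fun i : t => (i : ℂ))).toRingHom.toAlgebra
  have hmap : ∀ p, algebraMap (MvPolynomial t ℚ) ℂ p =
      MvPolynomial.aeval (R := ℚ) (fun i : t => (i : ℂ)) p := fun p => rfl
  have i1 : IsScalarTower ℚ (MvPolynomial t ℚ) ℂ := IsScalarTower.of_algebraMap_eq fun x => by
    rw [hmap, AlgHom.commutes]
  have i2 : FaithfulSMul (MvPolynomial t ℚ) ℂ := (faithfulSMul_iff_algebraMap_injective _ _).2 hinj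
  have i3 : Algebra.IsAlgebraic (MvPolynomial t ℚ) ℂ := by
    have h1 := ht.isAlgebraic
    refine Algebra.IsAlgebraic.of_ringHom_of_comp_eq
      (S := Algebra.adjoin ℚ (Set.range fun i : t => (i : ℂ))) (B := ℂ)
      (ht.1.aevalEquiv : MvPolynomial t ℚ →+* _) (RingHom.id ℂ) ht.1.aevalEquiv.surjective
      Function.injective_id ?_
    ext x
    · simp
    · simp [hmap]
  let _ : Algebra (FractionRing (MvPolynomial t ℚ)) ℂ := FractionRing.liftAlgebra _ ℂ
  have i4 : IsScalarTower (MvPolynomial t ℚ) (FractionRing (MvPolynomial t ℚ)) ℂ :=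
    FractionRing.isScalarTower_liftAlgebra _ ℂ
  have i5 : Algebra.IsAlgebraic (FractionRing (MvPolynomial t ℚ)) ℂ :=
    Algebra.IsAlgebraic.extendScalars (R := MvPolynomial t ℚ) (IsFractionRing.injective _ _)
  have i6 : CharZero (FractionRing (MvPolynomial t ℚ)) := inferInstance
  have i7 : Algebra.FormallyEtale (FractionRing (MvPolynomial t ℚ)) ℂ :=
    Algebra.FormallyEtale.of_isSeparable _ _
  have i8 : Algebra.FormallyEtale (MvPolynomial t ℚ) (FractionRing (MvPolynomial t ℚ)) :=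
    Algebra.FormallyEtale.of_isLocalization (nonZeroDivisors (MvPolynomial t ℚ))
  have i9 : Algebra.FormallyEtale (MvPolynomial t ℚ) ℂ :=
    Algebra.FormallyEtale.comp _ (FractionRing (MvPolynomial t ℚ)) ℂ
  let e := KaehlerDifferential.tensorKaehlerEquivOfFormallyEtale ℚ (MvPolynomial t ℚ) ℂ
  let b := (KaehlerDifferential.mvPolynomialBasis ℚ t).baseChange ℂ
  let i : t := ⟨z, hzt rfl⟩
  let L : Ω[ℂ⁄ℚ] →ₗ[ℂ] ℂ := (b.coord i).comp e.symm.toLinearMap
  refine ⟨L.compDer (KaehlerDifferential.D ℚ ℂ), ?_⟩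
  have hzi : z = algebraMap (MvPolynomial t ℚ) ℂ (MvPolynomial.X i) := by
    rw [hmap, MvPolynomial.aeval_X]
  have h1 : e.symm (KaehlerDifferential.D ℚ ℂ z) =
      1 ⊗ₜ KaehlerDifferential.D ℚ (MvPolynomial t ℚ) (MvPolynomial.X i) := by
    conv_lhs => rw [hzi]
    exact KaehlerDifferential.tensorKaehlerEquivOfFormallyEtale_symm_D_algebraMap ℚ
      (MvPolynomial t ℚ) ℂ (MvPolynomial.X i)
  have h2 : b i = 1 ⊗ₜ KaehlerDifferential.D ℚ (MvPolynomial t ℚ) (MvPolynomial.X i) := by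
    rw [Module.Basis.baseChange_apply, KaehlerDifferential.mvPolynomialBasis_apply]
  have h3 : L.compDer (KaehlerDifferential.D ℚ ℂ) z = 1 := by
    show b.coord i (e.symm (KaehlerDifferential.D ℚ ℂ z)) = 1
    rw [h1, ← h2, Module.Basis.coord_apply, Module.Basis.repr_self, Finsupp.single_eq_same]
  rw [h3]
  exact one_ne_zero

theorem tAL1 : Pool.Agent.H760.AR.S_AL1 := fun z hz => AL1_aux z hz

end Pool.Agent.H100.AR
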