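import Pool.Agent.H760.AR.Stm5

/-! AL2: the logarithmic derivative. -/

set_option autoImplicit false
set_option linter.all false

namespace Pool.Agent.H118.AR

open Pool.Agent.Q99.KN (ct)
open Pool.Agent.Y472.L (pI)
open Pool.Agent.H760.AR (th)

theorem th_add (D : Derivation ℚ ℂ ℂ) (a b : ℂ) : th D (a + b) = th D a + th D b := by
  unfold th
  rw [Complex.exp_add, D.leibniz, smul_eq_mul, smul_eq_mul]
  have h1 := Complex.exp_ne_zero a
  have h2 := Complex.exp_ne_zero b
  field_simp
  ring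

theorem th_rat (D : Derivation ℚ ℂ ℂ) (q : ℚ) (a : ℂ) : th D (q * a) = q * th D a := by
  have h := map_rat_smul (AddMonoidHom.mk' (th D) (th_add D)) q a
  rw [Rat.smul_def, Rat.smul_def] at h
  exact h

theorem th_pI (D : Derivation ℚ ℂ ℂ) : th D pI = 0 := by
  have h1 : Complex.exp pI = 1 := by
    unfold Pool.Agent.Y472.L.pI
    exact Complex.exp_two_pi_mul_I
  unfold th
  rw [h1, D.map_one_eq_zero, zero_div]

theorem D_I (D : Derivation ℚ ℂ ℂ) : D Complex.I = 0 := by
  have h1 := D.leibniz Complex.I Complex.I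
  rw [Complex.I_mul_I, D.map_neg, D.map_one_eq_zero, neg_zero, smul_eq_mul, ← two_mul] at h1
  have h2 := Complex.I_ne_zero
  have h3 : (2 : ℂ) ≠ 0 := two_ne_zero
  rcases mul_eq_zero.1 h1.symm with h4 | h4
  · exact absurd h4 h3
  · exact (mul_eq_zero.1 h4).resolve_left h2

theorem th_sin (D : Derivation ℚ ℂ ℂ) (x b : ℂ)
    (hb : Complex.exp b = 2 * Complex.sin (Real.pi * x))
    (hs : Complex.sin (Real.pi * x) ≠ 0) : th D b = ct x / pI * th D (pI * x) := by
  obtain ⟨θ, hθ⟩ : ∃ θ : ℂ, θ = Real.pi * x := ⟨_, rfl⟩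
  rw [← hθ] at hb hs
  obtain ⟨S, hS⟩ : ∃ S : ℂ, S = Complex.sin θ := ⟨_, rfl⟩
  obtain ⟨C, hC⟩ : ∃ C : ℂ, C = Complex.cos θ := ⟨_, rfl⟩
  rw [← hS] at hb hs
  have hCS : C * C + S * S = 1 := by
    rw [hC, hS]
    have h1 := Complex.cos_sq_add_sin_sq θ
    linear_combination h1
  have hD : C * D C + S * D S = 0 := by
    have h1 := congrArg D hCS
    rw [D.map_add, D.leibniz, D.leibniz, D.map_one_eq_zero] at h1
    simp only [smul_eq_mul] at h1
    linear_combination h1 / 2
  have hpI : pI = 2 * Real.pi * Complex.I := rfl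
  have h1 : pI * x = θ * Complex.I + θ * Complex.I := by
    rw [hpI, hθ]
    ring
  have hy : Complex.exp (θ * Complex.I) = C + S * Complex.I := by
    rw [Complex.exp_mul_I, hC, hS]
  have hy0 : C + S * Complex.I ≠ 0 := by
    rw [← hy]
    exact Complex.exp_ne_zero _
  have hDy : D (C + S * Complex.I) = D C + Complex.I * D S := by
    rw [D.map_add, D.leibniz, D_I, smul_zero, zero_add, smul_eq_mul]
  have h2 : th D (θ * Complex.I) = Complex.I * (C * D S - S * D C) := by
    unfold th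
    rw [hy, hDy, div_eq_iff hy0]
    have hI := Complex.I_mul_I
    linear_combination (-(D C) - Complex.I * D S) * hCS + (C + S * Complex.I) * hD +
      (S * S * D C - S * C * D S) * hI
  have h3 : th D b = D S / S := by
    unfold th
    rw [hb, two_mul, D.map_add]
    field_simp
  rw [h1, th_add, h2, h3]
  unfold Pool.Agent.Q99.KN.ct
  rw [← hθ, ← hS, ← hC, hpI]
  have hπ : (Real.pi : ℂ) ≠ 0 := Complex.ofReal_ne_zero.2 Real.pi_ne_zero
  have hI0 := Complex.I_ne_zero
  field_simp
  linear_combination (-2 * D S) * hCS + 2 * S * hD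

/-- **AL2: the logarithmic derivative.** -/
theorem tAL2 : Pool.Agent.H760.AR.S_AL2 := by
  intro D
  refine ⟨th_add D, th_rat D, fun q => ?_, th_sin D⟩
  rw [mul_comm, th_rat, th_pI, mul_zero]

end Pool.Agent.H118.AR
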