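import Pool.Agent.H760.AR.Stm5
import Pool.Graph.R_pool_sql_team_seeded_3997aac3.Q176.HX.LPXA

/-!
# The logarithmic derivative of the gradient is the second derivative (proof of `S_AL3`)
-/

set_option autoImplicit false

namespace Pool.Agent.H725.AR

open Finset Filter Topology MeasureTheory
open Pool.Agent.Q99.KN (bb ct St LC S_LC S_GAM)
open Pool.Agent.Q99.HT
open Pool.Agent.Q99.HU
open Pool.Agent.Y472.L (pI)
open Pool.Agent.H760.AR

theorem pI_ne : (pI : ℂ) ≠ 0 := by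
  unfold pI
  simp [Real.pi_ne_zero, Complex.I_ne_zero]

theorem pI_half : Complex.I * Real.pi = pI / 2 := by
  unfold pI
  ring

/-- `2 sin (π x) ≠ 0` in the strip -/
theorem sin_ne {x : ℂ} (hx : x ∈ St) : Complex.sin (Real.pi * x) ≠ 0 := by
  intro h
  rw [Complex.sin_eq_zero_iff] at h
  obtain ⟨k, hk⟩ := h
  have hpi : (Real.pi : ℂ) ≠ 0 := by exact_mod_cast Real.pi_ne_zero
  have h1 : x = k := by
    have : (Real.pi : ℂ) * (x - k) = 0 := by linear_combination hk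
    rcases mul_eq_zero.1 this with h | h
    · exact absurd h hpi
    · linear_combination h
  obtain ⟨h2, h3⟩ := hx
  rw [h1, Complex.intCast_re] at h2 h3
  have h4 : (0 : ℤ) < k := by exact_mod_cast h2
  have h5 : k < (1 : ℤ) := by exact_mod_cast h3
  omega

theorem exp_bb {x : ℂ} (hx : x ∈ St) : Complex.exp (bb x) = 2 * Complex.sin (Real.pi * x) := by
  unfold bb
  exact Complex.exp_log (mul_ne_zero two_ne_zero (sin_ne hx))

section D

variable (D : Derivation ℚ ℂ ℂ)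

theorem th_add (h2 : S_AL2) (a b : ℂ) : th D (a + b) = th D a + th D b := (h2 D).1 a b

theorem th_q (h2 : S_AL2) (q : ℚ) (a : ℂ) : th D (q * a) = q * th D a := (h2 D).2.1 q a

theorem th_pIq (h2 : S_AL2) (q : ℚ) : th D (pI * q) = 0 := (h2 D).2.2.1 q

theorem th_bb (h2 : S_AL2) {x : ℂ} (hx : x ∈ St) : th D (bb x) = ct x / pI * th D (pI * x) :=
  (h2 D).2.2.2 x (bb x) (exp_bb hx) (sin_ne hx)

theorem th_zero (h2 : S_AL2) : th D 0 = 0 := by
  have h := th_pIq D h2 0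
  simpa using h

theorem th_sum (h2 : S_AL2) {ι : Type} (s : Finset ι) (f : ι → ℂ) :
    th D (∑ i ∈ s, f i) = ∑ i ∈ s, th D (f i) := by
  classical
  induction s using Finset.induction_on with
  | empty => simp [th_zero D h2]
  | insert a s ha ih => rw [sum_insert ha, sum_insert ha, th_add D h2, ih]

theorem th_sub (h2 : S_AL2) (a b : ℂ) : th D (a - b) = th D a - th D b := by
  have h := th_q D h2 (-1) b
  have e : a - b = a + ((-1 : ℚ) : ℂ) * b := by push_cast; ring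
  rw [e, th_add D h2, h]
  push_cast
  ring

theorem th_mul_q (h2 : S_AL2) (a : ℂ) (q : ℚ) : th D (a * q) = th D a * q := by
  rw [mul_comm, th_q D h2, mul_comm]

/-- `θ a = th D (pI a)` -/
noncomputable def ta (a : ℂ) : ℂ := th D (pI * a)

theorem ta_add (h2 : S_AL2) (a b : ℂ) : ta D (a + b) = ta D a + ta D b := by
  unfold ta
  rw [mul_add, th_add D h2]

theorem ta_sub (h2 : S_AL2) (a b : ℂ) : ta D (a - b) = ta D a - ta D b := by
  unfold ta
  rw [mul_sub, th_sub D h2]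

theorem ta_q (h2 : S_AL2) (q : ℚ) : ta D q = 0 := th_pIq D h2 q

theorem ta_smul (h2 : S_AL2) (q : ℚ) (a : ℂ) : ta D (q * a) = q * ta D a := by
  unfold ta
  rw [← th_q D h2]
  congr 1
  ring

theorem ta_mul (h2 : S_AL2) (q : ℚ) (a : ℂ) : ta D (a * q) = ta D a * q := by
  rw [mul_comm, ta_smul D h2, mul_comm]

theorem ta_sum (h2 : S_AL2) {ι : Type} (s : Finset ι) (f : ι → ℂ) :
    ta D (∑ i ∈ s, f i) = ∑ i ∈ s, ta D (f i) := by
  unfold ta
  rw [mul_sum, th_sum D h2]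

theorem ta_zero (h2 : S_AL2) : ta D 0 = 0 := by
  have h := ta_q D h2 0
  simpa using h

/-- one bracket -/
theorem th_gT (h2 : S_AL2) {ν ξ : ℂ} (h3 : ν ∈ St) (h4 : ξ ∈ St) (h5 : ν - ξ ∈ St) (a b : ℚ) :
    th D (gT ν ξ a b) = hT ν ξ (ta D ν) (ta D ξ) a b / pI := by
  unfold gT hT
  rw [th_add D h2, th_q D h2, th_q D h2, th_sub D h2, th_sub D h2, th_bb D h2 h3, th_bb D h2 h4,
    th_bb D h2 h5]
  have e : th D (pI * (ν - ξ)) = ta D ν - ta D ξ := ta_sub D h2 ν ξ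
  rw [e]
  change (a : ℂ) * (ct ν / pI * ta D ν - ct (ν - ξ) / pI * (ta D ν - ta D ξ)) +
    b * (ct (ν - ξ) / pI * (ta D ν - ta D ξ) - ct ξ / pI * ta D ξ) = _
  field_simp
  ring

/-- the signs as rational numbers -/
def s6q : Fin 6 → ℚ := ![-1, 1, 1, 1, -1, -1]

theorem s6q_eq (i : Fin 6) : ((s6q i : ℚ) : ℂ) = s6 i := by
  fin_cases i <;> simp [s6q, s6]

/-- `lf` over `ℚ` -/
def lfq (v : Fin 4 → ℚ) : Fin 6 → ℚ := ![v 0, v 3, v 0 + v 3, v 2, v 1 - v 3, v 2 + (v 1 - v 3)]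

theorem lfq_eq (v : Fin 4 → ℚ) (i : Fin 6) :
    ((lfq v i : ℚ) : ℂ) = lf (fun k => (v k : ℂ)) i := by
  fin_cases i <;> simp [lfq, lf]

theorem ta_lf (h2 : S_AL2) (v : Fin 4 → ℂ) (i : Fin 6) :
    ta D (lf v i) = lf (fun k => ta D (v k)) i := by
  fin_cases i
  · simp [lf]
  · simp [lf]
  · simp [lf, ta_add D h2]
  · simp [lf]
  · simp [lf, ta_sub D h2]
  · simp [lf, ta_add D h2, ta_sub D h2]

theorem ta_nz (h2 : S_AL2) (ζ : ℂ) (i : Fin 6) : ta D (nz ζ i) = s6 i * ta D ζ / 2 := by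
  have e : nz ζ i = ((1 / 2 : ℚ) : ℂ) + ((s6q i / 2 : ℚ) : ℂ) * ζ := by
    unfold nz
    rw [← s6q_eq]
    push_cast
    ring
  rw [e, ta_add D h2, ta_q D h2, ta_smul D h2]
  push_cast
  rw [s6q_eq]
  ring

/-- one region -/
theorem th_PG (h2 : S_AL2) {α : Fin 6 → ℝ} {r κ K C0 : ℝ} (hα : Fr α) (hB : Blk α r κ K C0)
    {v : Fin 4 → ℂ} (hv : v ∈ Metric.ball (vC α) r) {ζ : ℂ} (hζ : ‖ζ‖ < r) (u : Fin 4 → ℚ) (b : ℚ) :
    th D (PG α v ζ (fun k => (u k : ℂ)) b) =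
      PH α v ζ (fun k => ta D (v k)) (ta D ζ) (fun k => (u k : ℂ)) b / pI := by
  unfold PG PH
  rw [th_sum D h2, sum_div]
  refine sum_congr rfl fun i _ => ?_
  by_cases hi : ctr α i = 0
  · rw [if_pos hi, if_pos hi, th_zero D h2, zero_div]
  · rw [if_neg hi, if_neg hi]
    have hv' := Metric.ball_subset_closedBall hv
    have h3 := Pool.Agent.Q176.HX.nz_St hB hζ i
    have h4 := Pool.Agent.Q99.HU.Q239.lf_St hα hB hv' hi
    have h5 := Pool.Agent.Q176.HX.nl_St hα hB hv' hζ hi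
    have h := th_gT D h2 h3 h4 h5 (s6q i * b / 2) (lfq u i)
    rw [ta_nz D h2, ta_lf D h2] at h
    rw [lfq_eq] at h
    push_cast at h
    rw [s6q_eq] at h
    exact h

end D

theorem tAL3 : S_AL3 := by
  intro h2 _ c d X r κ K C0 w T J ζ hF hB hR D T'' J'' ζ''
  have hdv : ∀ s, X.dv (fun j => ((T'' j : ℤ) : ℂ)) (fun s => ((J'' s : ℤ) : ℂ)) s =
      fun k => (((![∑ j, (T'' j : ℚ) * (X.E j s 0 : ℚ), ∑ j, (T'' j : ℚ) * (X.E j s 1 : ℚ),
        ∑ j, (T'' j : ℚ) * (X.E j s 2 : ℚ), (J'' s : ℚ)] : Fin 4 → ℚ) k : ℚ) : ℂ) := by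
    intro s
    funext k
    fin_cases k <;> simp [Nw.dv]
  have hv : ∀ s, X.dv (fun j => th D (pI * T j)) (fun s => th D (pI * J s)) s =
      fun k => ta D (X.v T J s k) := by
    intro s
    have hx : ∀ i, ta D (X.x T s i) = ∑ j, th D (pI * T j) * (X.E j s i : ℂ) := by
      intro i
      have e : X.x T s i = (((X.q0 s i : ℚ)) : ℂ) + ∑ j, T j * (((X.E j s i : ℚ)) : ℂ) := by
        unfold Nw.x
        push_cast
        rfl
      rw [e, ta_add D h2, ta_q D h2, zero_add, ta_sum D h2]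
      refine sum_congr rfl fun j _ => ?_
      rw [ta_mul D h2]
      push_cast
      rfl
    funext k
    fin_cases k
    · simp only [Nw.dv, Nw.v]
      exact (hx 0).symm
    · simp only [Nw.dv, Nw.v]
      exact (hx 1).symm
    · simp only [Nw.dv, Nw.v]
      exact (hx 2).symm
    · simp only [Nw.dv, Nw.v]
      rfl
  unfold Nw.GP Nw.HP
  rw [th_sum D h2, sum_div]
  refine sum_congr rfl fun s _ => ?_
  rw [th_add D h2, add_div]
  congr 1
  · rw [hdv s, hv s]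
    exact th_PG D h2 (hF s) (hB s) (hR s).1 (hR s).2 _ (ζ'' s : ℚ)
  · have e : (Complex.I * Real.pi * w s * ζ s / 2 + Complex.I * Real.pi) * ((ζ'' s : ℤ) : ℂ) =
        (((w s * ζ'' s / 4 : ℚ)) : ℂ) * (pI * ζ s) + pI * (((ζ'' s / 2 : ℚ)) : ℂ) := by
      rw [pI_half]
      push_cast
      ring
    rw [e, th_add D h2, th_pIq D h2, th_q D h2, add_zero]
    rw [pI_half]
    push_cast
    have hp := pI_ne
    field_simp
    ring

end Pool.Agent.H725.AR
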