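import Pool.Agent.H760.AR.Stm5

/-!
# The second derivative is not degenerate (AL4), by helper694 for the project AR of helper760
-/

set_option autoImplicit false

namespace Pool.Agent.H694.AR

open Finset
open Pool.Agent.Q99.HT
open Pool.Agent.Q99.HU

namespace AL4

variable {c d : ℕ}

theorem hT_symm (ν ξ a b a' b' : ℂ) : hT ν ξ a b a' b' = hT ν ξ a' b' a b := by
  unfold hT
  ring

theorem hT_add (ν ξ a b a1 b1 a2 b2 : ℂ) :
    hT ν ξ a b (a1 + a2) (b1 + b2) = hT ν ξ a b a1 b1 + hT ν ξ a b a2 b2 := by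
  unfold hT
  ring

theorem hT_smul (ν ξ a b x a1 b1 : ℂ) :
    hT ν ξ a b (x * a1) (x * b1) = x * hT ν ξ a b a1 b1 := by
  unfold hT
  ring

theorem lf_add (u v : Fin 4 → ℂ) (i : Fin 6) : lf (u + v) i = lf u i + lf v i := by
  fin_cases i <;> simp [lf] <;> ring

theorem lf_smul (x : ℂ) (u : Fin 4 → ℂ) (i : Fin 6) : lf (x • u) i = x * lf u i := by
  fin_cases i <;> simp [lf] <;> ring

theorem PH_symm (α : Fin 6 → ℝ) (v : Fin 4 → ℂ) (ζ : ℂ) (u : Fin 4 → ℂ) (b : ℂ)
    (u' : Fin 4 → ℂ) (b' : ℂ) : PH α v ζ u b u' b' = PH α v ζ u' b' u b := by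
  unfold PH
  refine Finset.sum_congr rfl (fun i _ => ?_)
  split_ifs
  · rfl
  · exact hT_symm _ _ _ _ _ _

theorem PH_add (α : Fin 6 → ℝ) (v : Fin 4 → ℂ) (ζ : ℂ) (u : Fin 4 → ℂ) (b : ℂ)
    (u1 u2 : Fin 4 → ℂ) (b1 b2 : ℂ) :
    PH α v ζ u b (u1 + u2) (b1 + b2) = PH α v ζ u b u1 b1 + PH α v ζ u b u2 b2 := by
  unfold PH
  rw [← Finset.sum_add_distrib]
  refine Finset.sum_congr rfl (fun i _ => ?_)
  split_ifs
  · rw [add_zero]
  · rw [lf_add, ← hT_add]
    congr 1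
    ring

theorem PH_smul (α : Fin 6 → ℝ) (v : Fin 4 → ℂ) (ζ : ℂ) (u : Fin 4 → ℂ) (b : ℂ) (x : ℂ)
    (u1 : Fin 4 → ℂ) (b1 : ℂ) :
    PH α v ζ u b (x • u1) (x * b1) = x * PH α v ζ u b u1 b1 := by
  unfold PH
  rw [Finset.mul_sum]
  refine Finset.sum_congr rfl (fun i _ => ?_)
  split_ifs
  · rw [mul_zero]
  · rw [lf_smul, ← hT_smul]
    congr 1
    ring

theorem dv_add (X : Nw c d) (T1 T2 : Fin d → ℂ) (J1 J2 : Fin c → ℂ) (s : Fin c) :
    X.dv (T1 + T2) (J1 + J2) s = X.dv T1 J1 s + X.dv T2 J2 s := by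
  unfold Nw.dv
  funext i
  fin_cases i <;> simp [add_mul, Finset.sum_add_distrib]

theorem dv_smul (X : Nw c d) (x : ℂ) (T1 : Fin d → ℂ) (J1 : Fin c → ℂ) (s : Fin c) :
    X.dv (x • T1) (x • J1) s = x • X.dv T1 J1 s := by
  unfold Nw.dv
  funext i
  fin_cases i <;> simp [Finset.mul_sum, mul_assoc]

/-- the space of the directions -/
abbrev V (c d : ℕ) : Type := (Fin d → ℂ) × (Fin c → ℂ) × (Fin c → ℂ)

/-- the second derivative as a bilinear form -/
noncomputable def BB (X : Nw c d) (w : Fin c → ℤ) (T : Fin d → ℂ) (J ζ : Fin c → ℂ)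
    (u v : V c d) : ℂ := X.HP w T J ζ u.1 u.2.1 u.2.2 v.1 v.2.1 v.2.2

variable (X : Nw c d) (w : Fin c → ℤ) (T : Fin d → ℂ) (J ζ : Fin c → ℂ)

theorem BB_symm (u v : V c d) : BB X w T J ζ u v = BB X w T J ζ v u := by
  unfold BB Nw.HP
  refine Finset.sum_congr rfl (fun s _ => ?_)
  rw [PH_symm]
  ring

theorem BB_add (u v1 v2 : V c d) :
    BB X w T J ζ u (v1 + v2) = BB X w T J ζ u v1 + BB X w T J ζ u v2 := by
  unfold BB Nw.HP
  rw [← Finset.sum_add_distrib]
  refine Finset.sum_congr rfl (fun s _ => ?_)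
  simp only [Prod.fst_add, Prod.snd_add]
  rw [dv_add, Pi.add_apply, PH_add]
  ring

theorem BB_smul (u : V c d) (x : ℂ) (v : V c d) :
    BB X w T J ζ u (x • v) = x * BB X w T J ζ u v := by
  unfold BB Nw.HP
  rw [Finset.mul_sum]
  refine Finset.sum_congr rfl (fun s _ => ?_)
  simp only [Prod.smul_fst, Prod.smul_snd]
  rw [dv_smul, Pi.smul_apply, smul_eq_mul, PH_smul]
  ring

/-- the linear form of a direction -/
noncomputable def Lm (u : V c d) : V c d →ₗ[ℂ] ℂ where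
  toFun := BB X w T J ζ u
  map_add' := BB_add X w T J ζ u
  map_smul' x v := by
    rw [BB_smul]
    rfl

theorem ext_zero (u : V c d)
    (h : ∀ (T'' : Fin d → ℤ) (J'' ζ'' : Fin c → ℤ), (∀ s, X.α s 1 = 0 → J'' s = 0) →
      BB X w T J ζ u ((fun j => (T'' j : ℂ)), (fun s => (J'' s : ℂ)), (fun s => (ζ'' s : ℂ))) = 0)
    (v : V c d) (hv : X.AJ v.2.1) : BB X w T J ζ u v = 0 := by
  set L := Lm X w T J ζ u with hL
  have hLd : ∀ v, L v = BB X w T J ζ u v := fun v => rfl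
  have h1 : ∀ A : Fin d → ℂ, L (A, 0, 0) = 0 := by
    intro A
    have e : L (A, 0, 0) = (L.comp (LinearMap.inl ℂ (Fin d → ℂ) ((Fin c → ℂ) × (Fin c → ℂ)))) A := rfl
    rw [e, LinearMap.pi_apply_eq_sum_univ]
    refine Finset.sum_eq_zero (fun i _ => ?_)
    have h2 := h (fun j => if i = j then 1 else 0) 0 0 (fun s _ => rfl)
    have h3 : (L.comp (LinearMap.inl ℂ (Fin d → ℂ) ((Fin c → ℂ) × (Fin c → ℂ))))
        (fun j => if i = j then 1 else 0) = 0 := by
      have e5 : (((fun j => (((if i = j then 1 else 0 : ℤ)) : ℂ)),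
          (fun s => (((0 : Fin c → ℤ) s : ℤ) : ℂ)), (fun s => (((0 : Fin c → ℤ) s : ℤ) : ℂ))) : V c d) =
          ((fun j => if i = j then 1 else 0), 0, 0) := by
        refine Prod.ext ?_ (Prod.ext ?_ ?_)
        · funext j
          simp only
          split_ifs <;> simp
        · funext s; simp
        · funext s; simp
      rw [e5] at h2
      exact h2
    rw [h3, smul_zero]
  have h4 : ∀ A : Fin c → ℂ, L (0, 0, A) = 0 := by
    intro A
    have e : L (0, 0, A) = (L.comp ((LinearMap.inr ℂ (Fin d → ℂ) ((Fin c → ℂ) × (Fin c → ℂ))).comp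
      (LinearMap.inr ℂ (Fin c → ℂ) (Fin c → ℂ)))) A := rfl
    rw [e, LinearMap.pi_apply_eq_sum_univ]
    refine Finset.sum_eq_zero (fun i _ => ?_)
    have h2 := h 0 0 (fun j => if i = j then 1 else 0) (fun s _ => rfl)
    have h3 : (L.comp ((LinearMap.inr ℂ (Fin d → ℂ) ((Fin c → ℂ) × (Fin c → ℂ))).comp
      (LinearMap.inr ℂ (Fin c → ℂ) (Fin c → ℂ)))) (fun j => if i = j then 1 else 0) = 0 := by
      have e5 : (((fun j => (((0 : Fin d → ℤ) j : ℤ) : ℂ)),
          (fun s => (((0 : Fin c → ℤ) s : ℤ) : ℂ)), (fun j => (((if i = j then 1 else 0 : ℤ)) : ℂ))) : V c d) =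
          (0, 0, (fun j => if i = j then 1 else 0)) := by
        refine Prod.ext ?_ (Prod.ext ?_ ?_)
        · funext s; simp
        · funext s; simp
        · funext j
          simp only
          split_ifs <;> simp
      rw [e5] at h2
      exact h2
    rw [h3, smul_zero]
  have h5 : ∀ A : Fin c → ℂ, X.AJ A → L (0, A, 0) = 0 := by
    intro A hA
    have e : L (0, A, 0) = (L.comp ((LinearMap.inr ℂ (Fin d → ℂ) ((Fin c → ℂ) × (Fin c → ℂ))).comp
      (LinearMap.inl ℂ (Fin c → ℂ) (Fin c → ℂ)))) A := rfl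
    rw [e, LinearMap.pi_apply_eq_sum_univ]
    refine Finset.sum_eq_zero (fun i _ => ?_)
    by_cases hi : X.α i 1 = 0
    · rw [hA i hi, zero_smul]
    have h2 := h 0 (fun j => if i = j then 1 else 0) 0 (fun s hs => by
      rw [if_neg]
      rintro rfl
      exact hi hs)
    have h3 : (L.comp ((LinearMap.inr ℂ (Fin d → ℂ) ((Fin c → ℂ) × (Fin c → ℂ))).comp
      (LinearMap.inl ℂ (Fin c → ℂ) (Fin c → ℂ)))) (fun j => if i = j then 1 else 0) = 0 := by
      have e5 : (((fun j => (((0 : Fin d → ℤ) j : ℤ) : ℂ)),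
          (fun j => (((if i = j then 1 else 0 : ℤ)) : ℂ)), (fun s => (((0 : Fin c → ℤ) s : ℤ) : ℂ))) : V c d) =
          (0, (fun j => if i = j then 1 else 0), 0) := by
        refine Prod.ext ?_ (Prod.ext ?_ ?_)
        · funext s; simp
        · funext j
          simp only
          split_ifs <;> simp
        · funext s; simp
      rw [e5] at h2
      exact h2
    rw [h3, smul_zero]
  obtain ⟨A, B, C⟩ := v
  have h6 : ((A, B, C) : V c d) = (A, 0, 0) + ((0, B, 0) + (0, 0, C)) := by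
    simp
  rw [h6, ← hLd, map_add, map_add, h1, h4, h5 B hv]
  simp

theorem sum_zero {c d : ℕ} (X : Nw c d) (hX : X.Okb) (a : Fin d → ℝ) (b g : Fin c → ℝ)
    (h : ∑ s, ∑ i, (∑ j, a j * (X.E j s i : ℝ)) ^ 2 + ∑ s, b s ^ 2 + ∑ s, g s ^ 2 ≤ 0) :
    a = 0 ∧ b = 0 ∧ g = 0 := by
  have h1 : 0 ≤ ∑ s, ∑ i, (∑ j, a j * (X.E j s i : ℝ)) ^ 2 :=
    Finset.sum_nonneg fun s _ => Finset.sum_nonneg fun i _ => sq_nonneg _
  have h2 : 0 ≤ ∑ s, b s ^ 2 := Finset.sum_nonneg fun s _ => sq_nonneg _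
  have h3 : 0 ≤ ∑ s, g s ^ 2 := Finset.sum_nonneg fun s _ => sq_nonneg _
  have e1 : ∑ s, ∑ i, (∑ j, a j * (X.E j s i : ℝ)) ^ 2 = 0 := by linarith
  have e2 : ∑ s, b s ^ 2 = 0 := by linarith
  have e3 : ∑ s, g s ^ 2 = 0 := by linarith
  refine ⟨?_, ?_, ?_⟩
  · refine hX.inj a (fun s i => ?_)
    have e4 := (Finset.sum_eq_zero_iff_of_nonneg
      (fun s _ => Finset.sum_nonneg fun i _ => sq_nonneg _)).1 e1 s (Finset.mem_univ s)
    have e5 := (Finset.sum_eq_zero_iff_of_nonneg (fun i _ => sq_nonneg _)).1 e4 i (Finset.mem_univ i)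
    exact pow_eq_zero_iff (two_ne_zero) |>.1 e5
  · funext s
    have e4 := (Finset.sum_eq_zero_iff_of_nonneg (fun s _ => sq_nonneg _)).1 e2 s (Finset.mem_univ s)
    exact pow_eq_zero_iff (two_ne_zero) |>.1 e4
  · funext s
    have e4 := (Finset.sum_eq_zero_iff_of_nonneg (fun s _ => sq_nonneg _)).1 e3 s (Finset.mem_univ s)
    exact pow_eq_zero_iff (two_ne_zero) |>.1 e4

end AL4

open AL4 in
theorem tAL4 : Pool.Agent.H760.AR.S_AL4 := by
  intro c d X hX r κ K C0 w T J ζ hB hrg T' J' ζ' hJ h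
  have hall := ext_zero X w T J ζ (T', J', ζ') (fun T'' J'' ζ'' hJ'' => h T'' J'' ζ'' hJ'')
  -- real and imaginary parts
  set P : V c d := ((fun j => ((T' j).re : ℂ)), (fun s => ((J' s).re : ℂ)),
    (fun s => ((ζ' s).re : ℂ))) with hP
  set Q : V c d := ((fun j => ((T' j).im : ℂ)), (fun s => ((J' s).im : ℂ)),
    (fun s => ((ζ' s).im : ℂ))) with hQ
  have hu : ((T', J', ζ') : V c d) = P + Complex.I • Q := by
    refine Prod.ext ?_ (Prod.ext ?_ ?_)
    · funext j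
      simp only [hP, hQ, Prod.fst_add, Prod.smul_fst, Pi.add_apply, Pi.smul_apply, smul_eq_mul]
      rw [mul_comm]
      exact (Complex.re_add_im _).symm
    · funext j
      simp only [hP, hQ, Prod.snd_add, Prod.smul_snd, Prod.fst_add, Prod.smul_fst, Pi.add_apply,
        Pi.smul_apply, smul_eq_mul]
      rw [mul_comm]
      exact (Complex.re_add_im _).symm
    · funext j
      simp only [hP, hQ, Prod.snd_add, Prod.smul_snd, Pi.add_apply,
        Pi.smul_apply, smul_eq_mul]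
      rw [mul_comm]
      exact (Complex.re_add_im _).symm
  have h1 : BB X w T J ζ (P + Complex.I • Q) (P + (-Complex.I) • Q) = 0 := by
    rw [← hu]
    refine hall _ ?_
    intro s hs
    have h2 := hJ s hs
    simp only [hP, hQ, Prod.snd_add, Prod.smul_snd, Prod.fst_add, Prod.smul_fst, Pi.add_apply,
      Pi.smul_apply, smul_eq_mul]
    rw [h2]
    simp
  have h3 : BB X w T J ζ P P + BB X w T J ζ Q Q = 0 := by
    rw [BB_add, BB_smul, BB_symm X w T J ζ _ P, BB_symm X w T J ζ _ Q, BB_add, BB_add, BB_smul,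
      BB_smul, BB_symm X w T J ζ Q P] at h1
    linear_combination h1 + BB X w T J ζ Q Q * (Complex.I_mul_I)
  have hPle := Pool.Agent.Q99.HU.Q239.HP_le hX hB w hrg (fun j => (T' j).re) (fun s => (J' s).re) (fun s => (ζ' s).re)
    (fun s hs => by rw [hJ s hs]; rfl)
  have hQle := Pool.Agent.Q99.HU.Q239.HP_le hX hB w hrg (fun j => (T' j).im) (fun s => (J' s).im) (fun s => (ζ' s).im)
    (fun s hs => by rw [hJ s hs]; rfl)
  have h4 := congrArg Complex.re h3
  rw [Complex.add_re, Complex.zero_re] at h4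
  have hPle' : (BB X w T J ζ P P).re ≤ _ := hPle
  have hQle' : (BB X w T J ζ Q Q).re ≤ _ := hQle
  rcases Nat.eq_zero_or_pos c with hc | hc
  · subst hc
    refine ⟨?_, ?_, ?_⟩
    · have e1 := hX.inj (fun j => (T' j).re) (fun s => s.elim0)
      have e2 := hX.inj (fun j => (T' j).im) (fun s => s.elim0)
      funext j
      exact Complex.ext (congrFun e1 j) (congrFun e2 j)
    · funext s
      exact s.elim0
    · funext s
      exact s.elim0
  · have hκ : 0 < κ := (hB ⟨0, hc⟩).κ0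
    set SP := ∑ s, ∑ i, (∑ j, (T' j).re * (X.E j s i : ℝ)) ^ 2 + ∑ s, (J' s).re ^ 2 +
      ∑ s, (ζ' s).re ^ 2 with hSP
    set SQ := ∑ s, ∑ i, (∑ j, (T' j).im * (X.E j s i : ℝ)) ^ 2 + ∑ s, (J' s).im ^ 2 +
      ∑ s, (ζ' s).im ^ 2 with hSQ
    have hSP0 : 0 ≤ SP := add_nonneg (add_nonneg
      (Finset.sum_nonneg fun s _ => Finset.sum_nonneg fun i _ => sq_nonneg _)
      (Finset.sum_nonneg fun s _ => sq_nonneg _)) (Finset.sum_nonneg fun s _ => sq_nonneg _)
    have hSQ0 : 0 ≤ SQ := add_nonneg (add_nonneg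
      (Finset.sum_nonneg fun s _ => Finset.sum_nonneg fun i _ => sq_nonneg _)
      (Finset.sum_nonneg fun s _ => sq_nonneg _)) (Finset.sum_nonneg fun s _ => sq_nonneg _)
    have h5 : κ * SP + κ * SQ ≤ 0 := by linarith
    have h6 : 0 ≤ κ * SP := mul_nonneg hκ.le hSP0
    have h7 : 0 ≤ κ * SQ := mul_nonneg hκ.le hSQ0
    have h8 : SP ≤ 0 := by
      by_contra hne
      have := mul_pos hκ (not_le.1 hne)
      linarith
    have h9 : SQ ≤ 0 := by
      by_contra hne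
      have := mul_pos hκ (not_le.1 hne)
      linarith
    obtain ⟨a1, a2, a3⟩ := sum_zero X hX _ _ _ h8
    obtain ⟨b1, b2, b3⟩ := sum_zero X hX _ _ _ h9
    refine ⟨?_, ?_, ?_⟩
    · funext j
      exact Complex.ext (congrFun a1 j) (congrFun b1 j)
    · funext j
      exact Complex.ext (congrFun a2 j) (congrFun b2 j)
    · funext j
      exact Complex.ext (congrFun a3 j) (congrFun b3 j)

end Pool.Agent.H694.AR
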