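import Pool.Agent.H760.AR.Stm5

/-!
# AL5: the exponentials of the coordinates of a critical point are algebraic
-/

set_option autoImplicit false

namespace Pool.Agent.H984.AR

open Finset Filter Topology MeasureTheory
open Pool.Agent.Q99.KN (bb ct St LC S_LC S_GAM)
open Pool.Agent.Q99.HT
open Pool.Agent.Q99.HU
open Pool.Agent.Y472.L (pI)
open Pool.Agent.H760.AR

theorem pI_ne : pI ≠ 0 := by
  unfold pI
  simp [Real.pi_ne_zero, Complex.I_ne_zero]

theorem th_zero (D : Derivation ℚ ℂ ℂ) : th D 0 = 0 := by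
  simp [th]

theorem D_exp_eq_zero {D : Derivation ℚ ℂ ℂ} {a : ℂ} (h : th D a = 0) : D (Complex.exp a) = 0 := by
  unfold th at h
  rcases div_eq_zero_iff.1 h with h | h
  · exact h
  · exact absurd h (Complex.exp_ne_zero a)

/-- `th` of a finite sum -/
theorem th_sum {D : Derivation ℚ ℂ ℂ} (hadd : ∀ a b : ℂ, th D (a + b) = th D a + th D b)
    {ι : Type*} (s : Finset ι) (f : ι → ℂ) : th D (∑ j ∈ s, f j) = ∑ j ∈ s, th D (f j) := by
  classical
  induction s using Finset.induction_on with
  | empty => simp [th_zero]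
  | insert a s ha ih => rw [Finset.sum_insert ha, Finset.sum_insert ha, hadd, ih]

/-- `th` of an affine combination with integral coefficients -/
theorem th_aff {D : Derivation ℚ ℂ ℂ} (hadd : ∀ a b : ℂ, th D (a + b) = th D a + th D b)
    (hmul : ∀ (q : ℚ) (a : ℂ), th D (q * a) = q * th D a) (hrat : ∀ q : ℚ, th D (pI * q) = 0)
    {d : ℕ} (T : Fin d → ℂ) (hT : ∀ j, th D (pI * T j) = 0) (q0 : ℤ) (E : Fin d → ℤ) :
    th D (pI * ((q0 : ℂ) + ∑ j, T j * (E j : ℂ))) = 0 := by
  rw [mul_add, hadd, Finset.mul_sum, th_sum hadd]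
  have h1 : th D (pI * (q0 : ℂ)) = 0 := by
    have := hrat (q0 : ℚ)
    simpa using this
  have h2 : ∀ j, th D (pI * (T j * (E j : ℂ))) = 0 := by
    intro j
    have := hmul (E j : ℚ) (pI * T j)
    rw [hT j, mul_zero] at this
    rw [← this]
    congr 1
    push_cast
    ring
  rw [h1, Finset.sum_eq_zero (fun j _ => h2 j), add_zero]

theorem tAL5 : Pool.Agent.H760.AR.S_AL5 := by
  intro hAL1 hAL2 hAL3 hAL4 hLC c d X hX r κ K C0 w T J ζ hB hR hC
  -- every derivation kills the exponentials
  have key : ∀ D : Derivation ℚ ℂ ℂ, ∀ s, th D (pI * (ζ s / 2)) = 0 ∧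
      ∀ k, th D (pI * X.v T J s k) = 0 := by
    intro D
    obtain ⟨hadd, hmul, hrat, -⟩ := hAL2 D
    have hdeg := hAL4 c d X hX r κ K C0 w T J ζ hB hR (fun j => th D (pI * T j))
      (fun s => th D (pI * J s)) (fun s => th D (pI * ζ s)) (by
        intro s hs
        have : J s = 0 := hC.aj s hs
        simp only [this, mul_zero, th_zero]) (by
        intro T'' J'' ζ'' hJ
        have h3 := hAL3 hAL2 hLC c d X r κ K C0 w T J ζ hX.fr hB hR D T'' J'' ζ''
        have h0 : X.GP w T J ζ (fun j => (T'' j : ℂ)) (fun s => (J'' s : ℂ))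
            (fun s => (ζ'' s : ℂ)) = 0 := by
          apply hC.eq
          intro s hs
          simp [hJ s hs]
        rw [h0, th_zero] at h3
        have h4 := h3.symm
        rcases div_eq_zero_iff.1 h4 with h | h
        · exact h
        · exact absurd h pI_ne)
    obtain ⟨hT, hJ, hζ⟩ := hdeg
    have hT' : ∀ j, th D (pI * T j) = 0 := fun j => congrFun hT j
    have hJ' : ∀ s, th D (pI * J s) = 0 := fun s => congrFun hJ s
    have hζ' : ∀ s, th D (pI * ζ s) = 0 := fun s => congrFun hζ s
    intro s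
    refine ⟨?_, ?_⟩
    · have := hmul (1 / 2 : ℚ) (pI * ζ s)
      rw [hζ' s, mul_zero] at this
      rw [← this]
      congr 1
      push_cast
      ring
    · intro k
      have hx : ∀ i, th D (pI * X.x T s i) = 0 := fun i =>
        th_aff hadd hmul hrat T hT' (X.q0 s i) (fun j => X.E j s i)
      fin_cases k
      · exact hx 0
      · exact hx 1
      · exact hx 2
      · exact hJ' s
  intro s
  refine ⟨?_, ?_⟩
  · by_contra hn
    obtain ⟨D, hD⟩ := hAL1 _ hn
    exact hD (D_exp_eq_zero (key D s).1)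
  · intro k
    by_contra hn
    obtain ⟨D, hD⟩ := hAL1 _ hn
    exact hD (D_exp_eq_zero ((key D s).2 k))

end Pool.Agent.H984.AR

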