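import Pool.Agent.H760.AR.Stm2

/-! Closure properties of the class `EX` (task AR-E1 of helper760; helper263). -/

set_option autoImplicit false

namespace Pool.Agent.H263.AR

open Finset Filter Topology
open Pool.Agent.Y472.L (pI Jt HP TP mn tc)
open Pool.Agent.H760.AR

theorem ex_const {ι : Type} [Fintype ι] (E : Subfield ℂ) {κ₀ : ℂ} (hκ : κ₀ ≠ 0) {c : ℂ}
    (hc : c ≠ 0) : EX E κ₀ (fun (_ : ℕ) (_ : ι → ℂ) => c) := by
  obtain ⟨j1, j2, j3, j4, j5, j6, j7, j8, j9⟩ :=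
    Pool.Agent.Y904.TA.jta ι E κ₀ ((0 : ι → ℂ), (0 : ℂ)) hκ
  refine ⟨fun l _ => if l = 0 then Complex.log c else 0, fun l => ?_, fun K => ?_⟩
  · rcases Nat.eq_zero_or_pos l with h | h
    · subst h
      exact j2 (Complex.log c) _
    · have h0 : l ≠ 0 := h.ne'
      rw [if_neg h0]
      simp only [if_neg h0]
      have h1 := j7 0 l 0 _ (j1 0 E.zero_mem)
      rw [add_zero] at h1
      simp only [mul_zero] at h1
      exact h1
  · refine ⟨1, ‖Complex.log c‖, one_pos, Filter.Eventually.of_forall fun N v _ => ?_⟩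
    rcases Nat.eq_zero_or_pos K with h | h
    · subst h
      refine ⟨Complex.log c, ?_, ?_⟩
      · rw [pow_zero, div_one]
      · rw [Finset.range_zero, Finset.sum_empty, zero_add, Complex.exp_log hc]
    · obtain ⟨k, rfl⟩ := Nat.exists_eq_succ_of_ne_zero h.ne'
      refine ⟨0, ?_, ?_⟩
      · rw [norm_zero]
        positivity
      · have h1 : ∑ l ∈ range (k + 1), (if l = 0 then Complex.log c else 0) / (N : ℂ) ^ l =
            Complex.log c := by
          rw [Finset.sum_range_succ']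
          simp
        rw [Nat.succ_eq_add_one, h1, add_zero, Complex.exp_log hc]

theorem ex_mul {ι : Type} [Fintype ι] (E : Subfield ℂ) {κ₀ : ℂ} (hκ : κ₀ ≠ 0)
    {H H' : ℕ → (ι → ℂ) → ℂ} (h : EX E κ₀ H) (h' : EX E κ₀ H') :
    EX E κ₀ fun N v => H N v * H' N v := by
  obtain ⟨j1, j2, j3, j4, j5, j6, j7, j8, j9⟩ :=
    Pool.Agent.Y904.TA.jta ι E κ₀ ((0 : ι → ℂ), (0 : ℂ)) hκ
  obtain ⟨τ, h1, h2⟩ := h
  obtain ⟨τ', h1', h2'⟩ := h'
  refine ⟨fun l v => τ l v + τ' l v, fun l => j3 _ _ _ _ (h1 l) (h1' l), fun K => ?_⟩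
  obtain ⟨r, C, hr, h3⟩ := h2 K
  obtain ⟨r', C', hr', h3'⟩ := h2' K
  refine ⟨min r r', C + C', lt_min hr hr', ?_⟩
  filter_upwards [h3, h3'] with N h4 h4' v hv
  obtain ⟨e, he, h5⟩ := h4 v (Metric.ball_subset_ball (min_le_left _ _) hv)
  obtain ⟨e', he', h5'⟩ := h4' v (Metric.ball_subset_ball (min_le_right _ _) hv)
  refine ⟨e + e', ?_, ?_⟩
  · rw [add_div]
    exact (norm_add_le _ _).trans (add_le_add he he')
  · rw [h5, h5', ← Complex.exp_add]
    congr 1
    simp only [add_div, Finset.sum_add_distrib]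
    ring

theorem ex_eq {ι : Type} [Fintype ι] {E : Subfield ℂ} {κ₀ : ℂ}
    {H H' : ℕ → (ι → ℂ) → ℂ} {r : ℝ} (hr : 0 < r)
    (hH : ∀ᶠ N : ℕ in atTop, ∀ v ∈ Metric.ball (0 : ι → ℂ) r, H N v = H' N v)
    (h : EX E κ₀ H) : EX E κ₀ H' := by
  obtain ⟨τ, h1, h2⟩ := h
  refine ⟨τ, h1, fun K => ?_⟩
  obtain ⟨r', C, hr', h3⟩ := h2 K
  refine ⟨min r r', C, lt_min hr hr', ?_⟩
  filter_upwards [hH, h3] with N h4 h5 v hv
  rw [← h4 v (Metric.ball_subset_ball (min_le_left _ _) hv)]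
  exact h5 v (Metric.ball_subset_ball (min_le_right _ _) hv)

theorem lin_add {ι : Type} [Fintype ι] (ℓ ℓ' : ι → ℚ) (v : ι → ℂ) :
    lin (ℓ + ℓ') v = lin ℓ v + lin ℓ' v := by
  unfold lin
  rw [← Finset.sum_add_distrib]
  refine Finset.sum_congr rfl fun i _ => ?_
  rw [Pi.add_apply]
  push_cast
  ring

theorem lin_sub {ι : Type} [Fintype ι] (ℓ ℓ' : ι → ℚ) (v : ι → ℂ) :
    lin (ℓ - ℓ') v = lin ℓ v - lin ℓ' v := by
  unfold lin
  rw [← Finset.sum_sub_distrib]
  refine Finset.sum_congr rfl fun i _ => ?_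
  rw [Pi.sub_apply]
  push_cast
  ring

theorem lin_zero {ι : Type} [Fintype ι] (v : ι → ℂ) : lin (0 : ι → ℚ) v = 0 := by
  unfold lin
  simp

/-- AR-E1 -/
theorem tE1 : Pool.Agent.H760.AR.S_E1 := by
  intro ι _ E κ₀ hκ
  refine ⟨fun c hc => ex_const E hκ hc, fun H H' h h' => ex_mul E hκ h h', ?_,
    fun H H' r hr hH h => ex_eq hr hH h, ?_, ?_, ?_, ?_⟩
  · intro σ s H
    classical
    induction s using Finset.induction_on with
    | empty =>
      intro _
      simp only [Finset.prod_empty]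
      exact ex_const E hκ one_ne_zero
    | insert i s hi ih =>
      intro h
      simp only [Finset.prod_insert hi]
      exact ex_mul E hκ (h i (Finset.mem_insert_self _ _))
        (ih fun j hj => h j (Finset.mem_insert_of_mem hj))
  · rintro g h ⟨x, ℓ, hx, hg⟩ ⟨y, ℓ', hy, hh⟩
    refine ⟨⟨x + y, ℓ + ℓ', ?_, fun v => ?_⟩, ⟨x - y, ℓ - ℓ', ?_, fun v => ?_⟩⟩
    · rw [mul_add, Complex.exp_add]
      exact E.mul_mem hx hy
    · change g v + h v = _
      rw [hg, hh, lin_add]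
      ring
    · rw [mul_sub, Complex.exp_sub]
      exact E.div_mem hx hy
    · change g v - h v = _
      rw [hg, hh, lin_sub]
      ring
  · refine ⟨1, 0, ?_, fun v => ?_⟩
    · have h1 : Complex.exp (pI * 1) = 1 := by
        rw [mul_one]
        exact Complex.exp_two_pi_mul_I
      rw [h1]
      exact E.one_mem
    · rw [lin_zero, add_zero]
  · refine ⟨1 / 2, 0, ?_, fun v => ?_⟩
    · have h1 : Complex.exp (pI * (1 / 2)) = -1 := by
        have h2 : pI * (1 / 2) = Real.pi * Complex.I := by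
          unfold pI
          ring
        rw [h2, Complex.exp_pi_mul_I]
      rw [h1]
      exact E.neg_mem E.one_mem
    · rw [lin_zero, add_zero]
  · refine ⟨0, 0, ?_, fun v => ?_⟩
    · rw [mul_zero, Complex.exp_zero]
      exact E.one_mem
    · rw [lin_zero, add_zero]

end Pool.Agent.H263.AR
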