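import Pool.Agent.H760.AR.Stm2

/-!
# AR-E2 (helper139 for helper760): the quantum dilogarithm is in the class `EX`
-/

set_option autoImplicit false

namespace Pool.Agent.H139.AR

open Finset Filter Topology MeasureTheory Metric
open Pool.Agent.Q99.KN (bb ct St LC S_LC S_GAM Gm)
open Pool.Agent.Q99.HX (Sd)
open Pool.Agent.Y472.L (pI Jt)
open Pool.Agent.W762.AX (co)
open Pool.Agent.Q162.HX (pm wt ux1 ux2 disc_mem dcc_of)
open Pool.Agent.Q280.KN (RI Gm_eq Sd_St St_open sin_ne)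
open Pool.Agent.Q202.HX2 (Gt)
open Pool.Agent.H760.AR

/-- the Cauchy coefficients are the Taylor coefficients -/
theorem co_eq {r : ℝ} (hr : 0 < r) {F : ℂ → ℂ} (hF : DiffContOnCl ℂ F (ball 0 r)) (m : ℕ) :
    co r F m = iteratedDeriv m F 0 / (m.factorial : ℂ) := by
  have hR : (0 : NNReal) < ⟨r, hr.le⟩ := hr
  have h1 := DiffContOnCl.hasFPowerSeriesOnBall (R := ⟨r, hr.le⟩) hF hR
  have h2 : HasFPowerSeriesAt F (cauchyPowerSeries F 0 r) 0 := h1.hasFPowerSeriesAt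
  have h3 := h2.analyticAt.hasFPowerSeriesAt
  have h4 := h2.eq_formalMultilinearSeries h3
  have h5 : cauchyPowerSeries F 0 r m (fun _ => 1) =
      (FormalMultilinearSeries.ofScalars ℂ
        (fun n => iteratedDeriv n F 0 / (n.factorial : ℂ))) m (fun _ => 1) := by rw [h4]
  rw [cauchyPowerSeries_apply, FormalMultilinearSeries.ofScalars_apply_eq] at h5
  rw [one_pow, smul_eq_mul, smul_eq_mul, mul_one] at h5
  rw [← h5]
  unfold co
  congr 1
  refine circleIntegral.integral_congr hr.le fun z _ => ?_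
  show (z ^ (m + 1))⁻¹ * F z = (1 / (z - 0)) ^ m • (z - 0)⁻¹ • F z
  rw [sub_zero, smul_eq_mul, smul_eq_mul, one_div, inv_pow, pow_succ, mul_inv, mul_assoc]

theorem it_LC (hL : S_LC) {x : ℂ} (hx : x ∈ St) (k : ℕ) :
    iteratedDeriv (k + 1) LC x = iteratedDeriv k bb x := by
  rw [iteratedDeriv_succ']
  refine Filter.EventuallyEq.iteratedDeriv_eq k ?_
  filter_upwards [St_open.mem_nhds hx] with z hz
  exact (hL.1 z hz).deriv

theorem it_bb (hL : S_LC) {x : ℂ} (hx : x ∈ St) (k : ℕ) :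
    iteratedDeriv (k + 1) bb x = iteratedDeriv k ct x := by
  rw [iteratedDeriv_succ']
  refine Filter.EventuallyEq.iteratedDeriv_eq k ?_
  filter_upwards [St_open.mem_nhds hx] with z hz
  exact (hL.2.2.2.1 z hz).deriv

theorem sd_open (δ : ℝ) : IsOpen (Sd δ) := by
  have h1 : IsOpen {x : ℂ | δ < x.re} := isOpen_lt continuous_const Complex.continuous_re
  have h2 : IsOpen {x : ℂ | x.re < 1 - δ} := isOpen_lt Complex.continuous_re continuous_const
  have h3 : IsOpen {x : ℂ | |x.im| < 1} :=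
    isOpen_lt (continuous_abs.comp Complex.continuous_im) continuous_const
  exact h1.inter (h2.inter h3)

theorem sd_St {δ : ℝ} (hδ : 0 < δ) {x : ℂ} (hx : x ∈ Sd δ) : x ∈ St := by
  have hr : 0 < δ / 2 := by positivity
  have := disc_mem hx (z := 0) (by rw [norm_zero]; exact hr.le)
  rw [add_zero] at this
  exact Sd_St hr this

theorem co_LC (hL : S_LC) {δ : ℝ} (hδ : 0 < δ) {x : ℂ} (hx : x ∈ Sd δ) (m : ℕ) :
    co (δ / 2) (fun z => LC (x + z)) m = iteratedDeriv m LC x / (m.factorial : ℂ) := by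
  have hr : 0 < δ / 2 := by positivity
  rw [co_eq hr (dcc_of hr fun z hz => (hL.1 _ (Sd_St hr (disc_mem hx hz))).differentiableAt),
    iteratedDeriv_comp_const_add]
  simp

theorem co_bb (hL : S_LC) {δ : ℝ} (hδ : 0 < δ) {x : ℂ} (hx : x ∈ Sd δ) (m : ℕ) :
    co (δ / 2) (fun z => bb (x + z)) m = iteratedDeriv m bb x / (m.factorial : ℂ) := by
  have hr : 0 < δ / 2 := by positivity
  rw [co_eq hr (dcc_of hr fun z hz =>
    (hL.2.2.2.1 _ (Sd_St hr (disc_mem hx hz))).differentiableAt), iteratedDeriv_comp_const_add]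
  simp

/-- the rational factors -/
theorem pm_rat (h : S_T1) (s : ℚ) (k : ℕ) : ∃ q : ℚ,
    Complex.I * ∫ t in Set.Ioi (0 : ℝ), pm (s : ℝ) k t = (q : ℂ) := by
  obtain ⟨q, hq⟩ := h s k
  refine ⟨q, ?_⟩
  rw [← hq]
  congr 1

/-- the coefficient functions -/
noncomputable def ta (s : ℚ) (q : ℕ → ℚ) (k : ℕ) (x : ℂ) : ℂ :=
  match k with
  | 0 => (s : ℂ) * bb x
  | (j + 1) => (((s ^ (j + 2) / ((j + 2).factorial : ℚ) + q (j + 1) / ((j + 1).factorial : ℚ) : ℚ)) : ℂ) *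
      iteratedDeriv j ct x

theorem ta_eq (hL : S_LC) (s : ℚ) (q : ℕ → ℚ) (hq : ∀ k, Complex.I *
    ∫ t in Set.Ioi (0 : ℝ), pm (s : ℝ) k t = (q k : ℂ)) {δ : ℝ} (hδ : 0 < δ) {x : ℂ}
    (hx : x ∈ Sd δ) (k : ℕ) :
    co (δ / 2) (fun z => LC (x + z)) (k + 1) * (((s : ℝ) : ℂ)) ^ (k + 1) +
      Complex.I * (co (δ / 2) (fun z => bb (x + z)) k *
        ∫ t in Set.Ioi (0 : ℝ), pm (s : ℝ) k t) = ta s q k x := by
  have hSt := sd_St hδ hx
  have h1 : Complex.I * (co (δ / 2) (fun z => bb (x + z)) k *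
        ∫ t in Set.Ioi (0 : ℝ), pm (s : ℝ) k t) =
      co (δ / 2) (fun z => bb (x + z)) k * (q k : ℂ) := by
    rw [← hq k]
    ring
  rw [h1, co_LC hL hδ hx, co_bb hL hδ hx, it_LC hL hSt, Complex.ofReal_ratCast]
  cases k with
  | zero =>
    have hq0 : (q 0 : ℂ) = 0 := by
      rw [← hq 0]
      have : ∀ t : ℝ, pm (s : ℝ) 0 t = 0 := fun t => by
        unfold pm
        rw [pow_zero, pow_zero, sub_self, zero_div]
      simp [this]
    rw [hq0]
    show _ = (s : ℂ) * bb x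
    simp [mul_comm]
  | succ j =>
    rw [it_bb hL hSt]
    show _ = (((s ^ (j + 2) / ((j + 2).factorial : ℚ) + q (j + 1) / ((j + 1).factorial : ℚ) : ℚ)) : ℂ) *
      iteratedDeriv j ct x
    push_cast
    ring

theorem lin_cont {ι : Type} [Fintype ι] (ℓ : ι → ℚ) : Continuous (lin ℓ) := by
  unfold lin
  fun_prop

theorem lin_zero {ι : Type} [Fintype ι] (ℓ : ι → ℚ) : lin ℓ 0 = 0 := by
  unfold lin
  simp

theorem rat_mem (E : Subfield ℂ) (q : ℚ) : (q : ℂ) ∈ E := by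
  exact SubfieldClass.ratCast_mem E q

/-- **AR-E2** -/
theorem tE2 : S_E2 := by
  intro hT1 hT2 hL _ ι _ E κ₀ hκ g s δ hδ hg hg0
  obtain ⟨x, ℓ, hxE, hgv⟩ := hg
  have hx0 : x = g 0 := by rw [hgv, lin_zero, add_zero]
  have hx : x ∈ Sd δ := by rw [hx0]; exact hg0
  have hSt : x ∈ St := sd_St hδ hx
  choose q hq using pm_rat hT1 s
  have hT := hT2 bb LC (fun y hy => hL.1 y hy) (fun y hy => hL.2.2.2.1 y hy) ι E κ₀ hκ x ℓ hxE
    (sin_ne hSt)
  have hJ := Pool.Agent.Y904.TA.jta ι E κ₀ ((0 : ι → ℂ), (0 : ℂ)) hκ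
  refine ⟨fun k v => ta s q k (g v), ?_, ?_⟩
  · intro l
    cases l with
    | zero =>
      rw [if_pos rfl]
      have h1 := (hT.2.2 hSt).1
      have h2 := hJ.2.2.2.1 0 1 _ (s : ℂ) (rat_mem E s) h1
      refine hJ.2.2.2.2.2.2.2.2 _ _ _ _ (Filter.Eventually.of_forall fun p => ?_) h2
      show (s : ℂ) * bb (x + lin ℓ p.1) = ta s q 0 (g p.1)
      rw [hgv]
      rfl
    | succ j =>
      rw [if_neg (Nat.succ_ne_zero j)]
      have h1 := hT.1 j
      have h2 := hJ.2.2.2.1 _ _ _ _ (rat_mem E (s ^ (j + 2) / ((j + 2).factorial : ℚ) +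
        q (j + 1) / ((j + 1).factorial : ℚ))) h1
      have h3 : (((j + 1 : ℕ) : ℕ) : ℤ) = (j : ℤ) + 1 := by push_cast; rfl
      rw [h3]
      refine hJ.2.2.2.2.2.2.2.2 _ _ _ _ (Filter.Eventually.of_forall fun p => ?_) h2
      show _ = ta s q (j + 1) (g p.1)
      rw [hgv]
      rfl
  · intro K
    obtain ⟨C, hC⟩ := Pool.Agent.W67.AX.uxadd (ux1 hL hδ (s : ℝ)) (ux2 hL hδ (s : ℝ)) K
    have hcont : Continuous g := by
      have : g = fun v => x + lin ℓ v := funext hgv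
      rw [this]
      exact continuous_const.add (lin_cont ℓ)
    obtain ⟨r, hr, hball⟩ := Metric.mem_nhds_iff.mp
      ((hcont.continuousAt (x := (0 : ι → ℂ))).preimage_mem_nhds ((sd_open δ).mem_nhds hg0))
    refine ⟨r, C, hr, ?_⟩
    filter_upwards [hC] with N hN v hv
    have hgS : g v ∈ Sd δ := hball hv
    have h1 := hN (g v) hgS
    refine ⟨((N : ℂ) * (LC (g v + (s : ℝ) / N) - LC (g v)) + Complex.I * RI N (g v + (s : ℝ) / N)) -
      ∑ l ∈ range K, ta s q l (g v) / (N : ℂ) ^ l, ?_, ?_⟩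
    · refine le_trans (le_of_eq ?_) h1
      congr 2
      refine sum_congr rfl fun k _ => ?_
      rw [← ta_eq hL s q hq hδ hgS k]
    · rw [add_sub_cancel]
      unfold Gt
      rw [Gm_eq, ← Complex.exp_add]
      congr 1
      ring

end Pool.Agent.H139.AR
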