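import Pool.Agent.H760.AR.Stm2

/-!
# AR-E4: the amplitude is in the class (job of helper760, MP_b9adb7_gt)
-/

set_option autoImplicit false

namespace Pool.Agent.H189.AR

open Finset Filter Topology MeasureTheory
open Pool.Agent.H760.AR
open Pool.Agent.Q99.KN (bb ct St LC S_LC S_GAM Gm)
open Pool.Agent.Q99.HX (Xp Sd UA S_UA Am)
open Pool.Agent.Q99.HT
open Pool.Agent.Q99.HU
open Pool.Agent.Y472.L (pI)
open Pool.Agent.Q202.HX2 (Gt args_Sd br_eq lf_shift sh)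
open Pool.Agent.Q251.KN (fz Eg)
open Pool.Agent.Q176.HX (cb cT cJ cZ qq HH xv_an cZ_an cT_zero cJ_zero cZ_zero)
open Pool.Agent.Q176.HT (nz_near lf_near)

theorem am_eq (hLC : S_LC) (hGAM : S_GAM) {α : Fin 6 → ℝ} {r κ K C0 : ℝ} (hF : Fr α)
    (hB : Blk α r κ K C0) (q0 : Fin 3 → ℤ) :
    (∀ p ∈ Metric.ball (vC α) (r / 2) ×ˢ Metric.ball (0 : ℂ) (r / 2), ∀ i, ctr α i ≠ 0 →
      nz p.2 i ∈ Sd r ∧ 1 - nz p.2 i + lf p.1 i ∈ Sd r ∧ 1 - lf p.1 i ∈ Sd r) ∧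
    ∀ᶠ N : ℕ in atTop, ∀ p ∈ Metric.ball (vC α) (r / 2) ×ˢ Metric.ball (0 : ℂ) (r / 2),
      Am N α q0 p.1 p.2 = ∏ i ∈ Finset.univ, (if ctr α i = 0 then 1 else Gt 0 N (nz p.2 i) *
        (Gt (-(sh q0 i)) N (1 - nz p.2 i + lf p.1 i) * Gt (sh q0 i - 1 / 2) N (1 - lf p.1 i))) := by
  have hr := hB.r0
  have hr1 := hB.r1
  have hmem : ∀ p ∈ Metric.ball (vC α) (r / 2) ×ˢ Metric.ball (0 : ℂ) (r / 2), ∀ i, ctr α i ≠ 0 →
      nz p.2 i ∈ Sd r ∧ 1 - nz p.2 i + lf p.1 i ∈ Sd r ∧ 1 - lf p.1 i ∈ Sd r := by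
    rintro ⟨v, ζ⟩ ⟨hv, hζ⟩ i hi
    have hv' : ‖v - vC α‖ < r / 2 := mem_ball_iff_norm.1 hv
    have hζ' : ‖ζ‖ < r / 2 := by simpa using hζ
    obtain ⟨s1, s2⟩ := hB.sml i hi
    refine args_Sd hr s1 s2 ?_ ?_
    · show ‖nz ζ i - 1 / 2‖ ≤ r / 4
      rw [nz_near]; linarith
    · exact (lf_near hF v i).trans (by linarith)
  refine ⟨hmem, ?_⟩
  obtain ⟨M, hM⟩ : ∃ M : ℝ, M = ∑ i, (|sh q0 i| + 1) := ⟨_, rfl⟩
  have hlim : ∀ᶠ N : ℕ in atTop, M / N ≤ r := by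
    have : Tendsto (fun N : ℕ => M / (N : ℝ)) atTop (𝓝 0) := tendsto_const_div_atTop_nhds_zero_nat _
    filter_upwards [this.eventually_lt_const hr] with N hN using hN.le
  filter_upwards [hlim, eventually_ge_atTop 1] with N hN hN1 p hp
  have hNr : (0 : ℝ) < N := by exact_mod_cast hN1
  have hsi : ∀ i, (|sh q0 i| + 1) / N ≤ r := by
    intro i
    refine (div_le_div_of_nonneg_right ?_ hNr.le).trans hN
    rw [hM]
    exact Finset.single_le_sum (f := fun i => |sh q0 i| + 1)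
      (fun j _ => by positivity) (Finset.mem_univ i)
  unfold Am PB PE na
  rw [← Finset.prod_pow_eq_pow_sum, Finset.mul_sum, ← Finset.sum_neg_distrib, Complex.exp_sum,
    ← Finset.prod_mul_distrib, ← Finset.prod_mul_distrib]
  refine Finset.prod_congr rfl fun i _ => ?_
  by_cases h : ctr α i = 0
  · simp only [if_pos h]
    simp
  · simp only [if_neg h, pow_one]
    rw [lf_shift]
    obtain ⟨m1, m2, m3⟩ := hmem p hp i h
    exact br_eq hLC hGAM hr hN1 m1 m2 m3 (hsi i)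

/-- the integral shifts -/
def shZ (q0 : Fin 3 → ℤ) : Fin 6 → ℤ := ![q0 0, 0, q0 0, q0 2, q0 1, q0 2 + q0 1]

theorem sh_eq (q0 : Fin 3 → ℤ) (i : Fin 6) : sh q0 i = ((shZ q0 i : ℤ) : ℝ) := by
  fin_cases i <;> simp [sh, shZ]

theorem lin_one {ι : Type} [Fintype ι] [DecidableEq ι] (i : ι) (q : ℚ) (v : ι → ℂ) :
    lin (fun j => if j = i then q else 0) v = (q : ℂ) * v i := by
  unfold lin
  rw [Finset.sum_eq_single i]
  · simp
  · intro b _ hb
    simp [hb]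
  · intro h
    exact absurd (Finset.mem_univ i) h

theorem lin_zero {ι : Type} [Fintype ι] (v : ι → ℂ) : lin (fun _ : ι => (0 : ℚ)) v = 0 := by
  unfold lin
  simp

variable {c d : ℕ}

theorem af_x {X : Nw c d} {T : Fin d → ℂ} {s : Fin c} {k : Fin 3} {E : Subfield ℂ}
    (h : Complex.exp (pI * X.x T s k) ∈ E) : Af E (fun v : X.Ix → ℂ => X.x (cT X T v) s k) := by
  refine ⟨X.x T s k, Sum.elim (fun j => (X.E j s k : ℚ)) (fun _ => 0), h, fun v => ?_⟩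
  unfold lin
  rw [Fintype.sum_sum_type]
  simp only [Sum.elim_inl, Sum.elim_inr]
  unfold Nw.x cT
  simp only [add_mul, Finset.sum_add_distrib]
  push_cast
  rw [add_assoc]
  congr 2
  rw [Finset.sum_eq_zero (s := (Finset.univ : Finset ({s : Fin c // X.α s 1 ≠ 0} ⊕ Fin c)))
    (fun i _ => by simp), add_zero]
  exact Finset.sum_congr rfl fun j _ => mul_comm _ _

theorem af_v {X : Nw c d} {T : Fin d → ℂ} {J ζ : Fin c → ℂ} {E : Subfield ℂ} (hG : Gn X T J ζ E)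
    (s : Fin c) (k : Fin 4) : Af E (fun v : X.Ix → ℂ => X.v (cT X T v) (cJ X J v) s k) := by
  have h := (hG s).2 k
  fin_cases k
  · exact af_x (k := 0) h
  · exact af_x (k := 1) h
  · exact af_x (k := 2) h
  · have h3 : Complex.exp (pI * J s) ∈ E := h
    show Af E (fun v : X.Ix → ℂ => cJ X J v s)
    by_cases h1 : X.α s 1 ≠ 0
    · refine ⟨J s, fun j => if j = (.inr (.inl ⟨s, h1⟩) : X.Ix) then 1 else 0, h3, fun v => ?_⟩
      have h2 := lin_one (ι := X.Ix) (.inr (.inl ⟨s, h1⟩)) 1 v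
      rw [Rat.cast_one, one_mul] at h2
      have h4 : cJ X J v s = J s + v (.inr (.inl ⟨s, h1⟩)) := by
        unfold cJ cb
        rw [dif_pos h1]
      rw [h2]
      exact h4
    · refine ⟨J s, fun _ => 0, h3, fun v => ?_⟩
      have h4 : cJ X J v s = J s + 0 := by
        unfold cJ cb
        rw [dif_neg h1]
      rw [lin_zero]
      exact h4

theorem af_z {X : Nw c d} {T : Fin d → ℂ} {J ζ : Fin c → ℂ} {E : Subfield ℂ} (hG : Gn X T J ζ E)
    (s : Fin c) : Af E (fun v : X.Ix → ℂ => cZ X ζ v s / 2) := by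
  refine ⟨ζ s / 2, fun j => if j = (.inr (.inr s) : X.Ix) then 1 / 2 else 0, (hG s).1, fun v => ?_⟩
  have h2 := lin_one (ι := X.Ix) (.inr (.inr s)) (1 / 2) v
  rw [h2]
  unfold cZ
  push_cast
  ring

theorem tE4 : S_E4 := by
  intro hE1 hE2 hE3 hT1 hT2 hLC hGAM c d X r κ K C0 T J ζ hF hB hrg hζ E κ₀ hκ hG
  obtain ⟨-, hmul, hprod, heq, haf, af1, afh, -⟩ := hE1 X.Ix E κ₀ hκ
  have hconst := (hE1 X.Ix E κ₀ hκ).1
  have hadd : ∀ g h : (X.Ix → ℂ) → ℂ, Af E g → Af E h → Af E (fun v => g v + h v) :=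
    fun g h a b => (haf g h a b).1
  have hsub : ∀ g h : (X.Ix → ℂ) → ℂ, Af E g → Af E h → Af E (fun v => g v - h v) :=
    fun g h a b => (haf g h a b).2
  -- affine functions
  have az : ∀ s, Af E (fun v : X.Ix → ℂ => cZ X ζ v s / 2) := fun s => af_z hG s
  have av : ∀ s k, Af E (fun v : X.Ix → ℂ => X.v (cT X T v) (cJ X J v) s k) := fun s k => af_v hG s k
  have anz : ∀ s (i : Fin 6), Af E (fun v : X.Ix → ℂ => nz (cZ X ζ v s) i) := by
    intro s i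
    have hp : Af E (fun v : X.Ix → ℂ => 1 / 2 + cZ X ζ v s / 2) := hadd _ _ afh (az s)
    have hm : Af E (fun v : X.Ix → ℂ => 1 / 2 - cZ X ζ v s / 2) := hsub _ _ afh (az s)
    have ep : (fun v : X.Ix → ℂ => 1 / 2 + cZ X ζ v s / 2) = fun v => 1 / 2 + 1 * cZ X ζ v s / 2 := by
      funext v; rw [one_mul]
    have em : (fun v : X.Ix → ℂ => 1 / 2 - cZ X ζ v s / 2) =
        fun v => 1 / 2 + (-1) * cZ X ζ v s / 2 := by
      funext v; ring
    rw [ep] at hp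
    rw [em] at hm
    unfold nz
    fin_cases i
    · exact hm
    · exact hp
    · exact hp
    · exact hp
    · exact hm
    · exact hm
  have alf : ∀ s (i : Fin 6), Af E (fun v : X.Ix → ℂ => lf (X.v (cT X T v) (cJ X J v) s) i) := by
    intro s i
    have v0 := av s 0
    have v1 := av s 1
    have v2 := av s 2
    have v3 := av s 3
    fin_cases i
    · exact v0
    · exact v3
    · exact hadd _ _ v0 v3
    · exact v2
    · exact hsub _ _ v1 v3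
    · exact hadd _ _ v2 (hsub _ _ v1 v3)
  -- the neighbourhood
  have hnb : ∀ s, ∃ ρ : ℝ, 0 < ρ ∧ ∀ v ∈ Metric.ball (0 : X.Ix → ℂ) ρ,
      ((X.v (cT X T v) (cJ X J v) s, cZ X ζ v s) : (Fin 4 → ℂ) × ℂ) ∈
        Metric.ball (vC (X.α s)) (r / 2) ×ˢ Metric.ball (0 : ℂ) (r / 2) := by
    intro s
    have hc : ContinuousAt (fun v : X.Ix → ℂ =>
        ((X.v (cT X T v) (cJ X J v) s, cZ X ζ v s) : (Fin 4 → ℂ) × ℂ)) 0 :=
      ((xv_an X T J s 0).prod (cZ_an X ζ s 0)).continuousAt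
    have ho : IsOpen (Metric.ball (vC (X.α s)) (r / 2) ×ˢ Metric.ball (0 : ℂ) (r / 2)) :=
      Metric.isOpen_ball.prod Metric.isOpen_ball
    have h0 : ((X.v (cT X T 0) (cJ X J 0) s, cZ X ζ 0 s) : (Fin 4 → ℂ) × ℂ) ∈
        Metric.ball (vC (X.α s)) (r / 2) ×ˢ Metric.ball (0 : ℂ) (r / 2) := by
      rw [cT_zero, cJ_zero, cZ_zero]
      exact ⟨(hrg s).1, mem_ball_zero_iff.2 (hrg s).2⟩
    have := hc.preimage_mem_nhds (ho.mem_nhds h0)
    obtain ⟨ρ, h1, h2⟩ := Metric.mem_nhds_iff.1 this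
    exact ⟨ρ, h1, fun v hv => h2 hv⟩
  have h00 : ∀ s, ((X.v (cT X T 0) (cJ X J 0) s, cZ X ζ 0 s) : (Fin 4 → ℂ) × ℂ) ∈
        Metric.ball (vC (X.α s)) (r / 2) ×ˢ Metric.ball (0 : ℂ) (r / 2) := by
    intro s
    obtain ⟨ρ, h1, h2⟩ := hnb s
    exact h2 0 (Metric.mem_ball_self h1)
  -- the amplitude of a region
  have hAm : ∀ s, EX E κ₀ (fun N (v : X.Ix → ℂ) =>
      Am N (X.α s) (X.q0 s) (X.v (cT X T v) (cJ X J v) s) (cZ X ζ v s)) := by
    intro s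
    obtain ⟨hmem, hev⟩ := am_eq hLC hGAM (hF s) (hB s) (X.q0 s)
    obtain ⟨ρ, hρ, hρ'⟩ := hnb s
    have hr := (hB s).r0
    refine heq (fun N v => ∏ i ∈ (Finset.univ : Finset (Fin 6)), (if ctr (X.α s) i = 0 then 1 else
      Gt 0 N (nz (cZ X ζ v s) i) * (Gt (-(sh (X.q0 s) i)) N
        (1 - nz (cZ X ζ v s) i + lf (X.v (cT X T v) (cJ X J v) s) i) *
        Gt (sh (X.q0 s) i - 1 / 2) N (1 - lf (X.v (cT X T v) (cJ X J v) s) i)))) _ ρ hρ ?_ ?_
    · filter_upwards [hev] with N hN v hv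
      exact (hN _ (hρ' v hv)).symm
    · refine hprod (Fin 6) Finset.univ (fun i N v => (if ctr (X.α s) i = 0 then 1 else
        Gt 0 N (nz (cZ X ζ v s) i) * (Gt (-(sh (X.q0 s) i)) N
        (1 - nz (cZ X ζ v s) i + lf (X.v (cT X T v) (cJ X J v) s) i) *
        Gt (sh (X.q0 s) i - 1 / 2) N (1 - lf (X.v (cT X T v) (cJ X J v) s) i)))) fun i _ => ?_
      by_cases h : ctr (X.α s) i = 0
      · simp only [if_pos h]
        exact hconst 1 one_ne_zero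
      · simp only [if_neg h]
        obtain ⟨m1, m2, m3⟩ := hmem _ (h00 s) i h
        have g1 := hE2 hT1 hT2 hLC hGAM X.Ix E κ₀ hκ (fun v => nz (cZ X ζ v s) i) 0 r hr (anz s i) m1
        have g2 := hE2 hT1 hT2 hLC hGAM X.Ix E κ₀ hκ
          (fun v => 1 - nz (cZ X ζ v s) i + lf (X.v (cT X T v) (cJ X J v) s) i)
          (-((shZ (X.q0 s) i : ℤ) : ℚ)) r hr (hadd _ _ (hsub _ _ af1 (anz s i)) (alf s i)) m2
        have g3 := hE2 hT1 hT2 hLC hGAM X.Ix E κ₀ hκ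
          (fun v => 1 - lf (X.v (cT X T v) (cJ X J v) s) i)
          (((shZ (X.q0 s) i : ℤ) : ℚ) - 1 / 2) r hr (hsub _ _ af1 (alf s i)) m3
        have c1 : ((0 : ℚ) : ℝ) = 0 := Rat.cast_zero
        have c2 : ((-((shZ (X.q0 s) i : ℤ) : ℚ) : ℚ) : ℝ) = -(sh (X.q0 s) i) := by
          rw [sh_eq]; push_cast; ring
        have c3 : ((((shZ (X.q0 s) i : ℤ) : ℚ) - 1 / 2 : ℚ) : ℝ) = sh (X.q0 s) i - 1 / 2 := by
          rw [sh_eq]; push_cast; ring
        rw [c1] at g1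
        rw [c2] at g2
        rw [c3] at g3
        exact hmul _ _ g1 (hmul _ _ g2 g3)
  -- the product
  refine hprod (Fin c) Finset.univ (fun s N v => fz N (cZ X ζ v s) *
    Am N (X.α s) (X.q0 s) (X.v (cT X T v) (cJ X J v) s) (cZ X ζ v s)) fun s _ => ?_
  refine hmul _ _ ?_ (hAm s)
  refine hE3 hT2 hLC X.Ix E κ₀ hκ (fun v => cZ X ζ v s) ?_ ?_
  · have h1 := hadd _ _ (az s) (az s)
    have e : (fun v : X.Ix → ℂ => cZ X ζ v s / 2 + cZ X ζ v s / 2) = fun v => cZ X ζ v s := by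
      funext v; ring
    rw [e] at h1
    exact h1
  · show 0 < (cZ X ζ 0 s).im
    rw [cZ_zero]
    exact hζ s

end Pool.Agent.H189.AR
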