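import Pool.Agent.H760.AR.Stm3

/-!
# AR-E5: the square of the limit of the amplitude (subtask of helper760, by helper289)
-/

set_option autoImplicit false

namespace Pool.Agent.H289.AR

open Finset Filter Topology MeasureTheory
open Pool.Agent.Q99.KN (St LC S_LC S_GAM)
open Pool.Agent.Q99.HT
open Pool.Agent.Q99.HU
open Pool.Agent.Y472.L (pI)
open Pool.Agent.Q251.KN (fz Eg eg_norm eg_tendsto)
open Pool.Agent.Q176.HX (cT cJ cZ HH cT_zero cJ_zero cZ_zero)
open Pool.Agent.H760.AR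

/-- the limit of the factor of a twist region -/
theorem fz_lim {Z : ℂ} (hZ : 0 < Z.im) : Tendsto (fun N : ℕ => fz N Z) atTop
    (𝓝 (Real.pi / Complex.I * Complex.sin (Real.pi * Z))) := by
  have h1 : Tendsto (fun N : ℕ => Eg N Z) atTop (𝓝 0) := by
    rw [tendsto_zero_iff_norm_tendsto_zero]
    simp_rw [eg_norm]
    exact eg_tendsto hZ
  have h2 : Tendsto (fun N : ℕ => Real.pi / Complex.I * Complex.sin (Real.pi * Z) /
      (1 - Eg N Z) ^ 2) atTop
      (𝓝 (Real.pi / Complex.I * Complex.sin (Real.pi * Z) / (1 - 0) ^ 2)) :=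
    tendsto_const_nhds.div ((h1.const_sub 1).pow 2) (by norm_num)
  rw [sub_zero, one_pow, div_one] at h2
  exact h2

/-- its square -/
theorem fz_sq (Z : ℂ) {E : Subfield ℂ} (hE : Complex.exp (pI * (Z / 2)) ∈ E) :
    ∃ x ∈ E, (Real.pi / Complex.I * Complex.sin (Real.pi * Z)) ^ 2 = (Real.pi : ℂ) ^ 2 * x := by
  set y : ℂ := Complex.exp (pI * (Z / 2)) with hy
  have h1 : Complex.sin (Real.pi * Z) = (y⁻¹ - y) * Complex.I / 2 := by
    rw [Complex.sin, hy, ← Complex.exp_neg]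
    have e1 : -(Real.pi * Z) * Complex.I = -(pI * (Z / 2)) := by
      unfold pI
      ring
    have e2 : (Real.pi * Z) * Complex.I = pI * (Z / 2) := by
      unfold pI
      ring
    rw [e1, e2]
  refine ⟨(y - y⁻¹) ^ 2 / 4, ?_, ?_⟩
  · have h4 : (4 : ℂ) ∈ E := by
      have := natCast_mem E 4
      exact_mod_cast this
    exact div_mem (pow_mem (sub_mem hE (inv_mem hE)) 2) h4
  · rw [h1]
    have hI : Complex.I ≠ 0 := Complex.I_ne_zero
    field_simp
    ring

theorem tE5 : Pool.Agent.H760.AR.S_E5 := by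
  intro h5 hLC hGAM c d X hX r κ K C0 T J ζ hB hrg hJ hζ E hE h hh
  have key : ∀ s, ∃ g : ℂ, Tendsto (fun N : ℕ => Pool.Agent.Q99.HX.Am N (X.α s) (X.q0 s)
      (X.v T J s) (ζ s)) atTop (𝓝 g) ∧ ∃ e ∈ E, g ^ 2 = Complex.I ^ na (X.α s) * e := fun s =>
    h5 hLC hGAM (X.α s) r κ K C0 (hX.fr s) (hB s) (X.q0 s) (X.v T J s) (ζ s) (hrg s).1 (hrg s).2
      (Pool.Agent.Q99.HU.Q239.adm_v hX fun h0 => hJ s h0) E (hE s).1 (hE s).2
  choose g hg e he hge using key
  choose x hx hfx using fun s => fz_sq (ζ s) (hE s).1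
  have hlim : Tendsto (fun N : ℕ => HH X T J ζ N 0) atTop
      (𝓝 (∏ s, (Real.pi / Complex.I * Complex.sin (Real.pi * ζ s) * g s))) := by
    have h1 : (fun N : ℕ => HH X T J ζ N 0) = fun N : ℕ =>
        ∏ s, (fz N (ζ s) * Pool.Agent.Q99.HX.Am N (X.α s) (X.q0 s) (X.v T J s) (ζ s)) := by
      funext N
      unfold HH
      rw [cT_zero, cJ_zero, cZ_zero]
    rw [h1]
    exact tendsto_finsetProd _ fun s _ => (fz_lim (hζ s)).mul (hg s)
  have hu := tendsto_nhds_unique hh hlim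
  refine ⟨∏ s, (x s * e s), prod_mem fun s _ => mul_mem (hx s) (he s), ?_⟩
  rw [hu, ← Finset.prod_pow]
  have h2 : ∀ s, (Real.pi / Complex.I * Complex.sin (Real.pi * ζ s) * g s) ^ 2 =
      Complex.I ^ na (X.α s) * (Real.pi : ℂ) ^ 2 * (x s * e s) := by
    intro s
    rw [mul_pow, hfx, hge]
    ring
  rw [Finset.prod_congr rfl fun s _ => h2 s, Finset.prod_mul_distrib, Finset.prod_mul_distrib,
    Finset.prod_pow_eq_pow_sum, Finset.prod_const, Finset.card_univ, Fintype.card_fin, ← pow_mul]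
  rfl

end Pool.Agent.H289.AR
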