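import Pool.Agent.H760.AR.Stm3

/-!
# Project AR (helper760), job AR-E5r: the limit of the amplitude of a region and its square
-/

set_option autoImplicit false

namespace Pool.Agent.H738.AR.E5r

open Finset Filter Topology MeasureTheory
open Pool.Agent.Q99.KN (bb ct St LC S_LC S_GAM Gm)
open Pool.Agent.Q99.HX (Sd Am)
open Pool.Agent.Q99.HT
open Pool.Agent.Y472.L (pI)
open Pool.Agent.Q202.HX2 (Gt sh mem_Sd args_Sd br_eq lf_shift)
open Pool.Agent.Q176.HT (nz_near lf_near)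

theorem Sd_St {r : ℝ} (hr : 0 < r) {x : ℂ} (hx : x ∈ Sd r) : x ∈ St :=
  ⟨by linarith [hx.1], by linarith [hx.2.1]⟩

theorem exp_bb {x : ℂ} (hx : x ∈ St) :
    Complex.exp (bb x) = 2 * Complex.sin (Real.pi * x) := by
  unfold bb
  exact Complex.exp_log (mul_ne_zero two_ne_zero (Pool.Agent.Q176.HT.sin_ne hx))

/-- the limit of the normalised quantum dilogarithm -/
theorem Gt_lim (hLC : S_LC) (hGAM : S_GAM) {r : ℝ} (hr : 0 < r) {x : ℂ} (hx : x ∈ Sd r)
    (s : ℝ) : Tendsto (fun N : ℕ => Gt s N x) atTop (𝓝 (Complex.exp (s * bb x))) := by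
  obtain ⟨-, -, g3, -⟩ := hGAM hLC
  have hxS := Sd_St hr hx
  have hN0 : Tendsto (fun N : ℕ => ((N : ℂ))⁻¹) atTop (𝓝 0) := tendsto_inv_atTop_nhds_zero_nat
  have h0 : Tendsto (fun N : ℕ => (s : ℂ) / (N : ℂ)) atTop (𝓝 0) := by
    have := hN0.const_mul (s : ℂ)
    rw [mul_zero] at this
    exact this
  obtain ⟨C, hC⟩ := g3 (r / 2) (by positivity)
  have h1 : Tendsto (fun N : ℕ => Gm N (x + s / N) * Complex.exp (-(N * LC (x + s / N)))) atTop
      (𝓝 1) := by
    rw [tendsto_iff_norm_sub_tendsto_zero]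
    have hCN : Tendsto (fun N : ℕ => C / (N : ℝ)) atTop (𝓝 0) :=
      tendsto_const_div_atTop_nhds_zero_nat C
    refine squeeze_zero' (Eventually.of_forall fun _ => norm_nonneg _) ?_ hCN
    have hs : ∀ᶠ N : ℕ in atTop, ‖(s : ℂ) / (N : ℂ)‖ < r / 2 := by
      have := h0.norm
      rw [norm_zero] at this
      exact this.eventually_lt_const (by positivity)
    filter_upwards [hs, eventually_ge_atTop 1] with N hN hN1
    have h2 := Complex.abs_re_le_norm ((s : ℂ) / (N : ℂ))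
    have h3 := abs_le.1 (h2.trans hN.le)
    refine hC N hN1 _ ?_ ?_
    · rw [Complex.add_re]; linarith [h3.1, hx.1]
    · rw [Complex.add_re]; linarith [h3.2, hx.2.1]
  have h2 : Tendsto (fun N : ℕ => (N : ℂ) * (LC (x + s / N) - LC x)) atTop (𝓝 (s * bb x)) := by
    have hd : HasDerivAt (fun t : ℂ => LC (x + s * t)) (bb x * s) 0 := by
      have e1 : HasDerivAt (fun t : ℂ => x + s * t) (s : ℂ) 0 := by
        have := ((hasDerivAt_id (0 : ℂ)).const_mul (s : ℂ)).const_add x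
        simpa using this
      have e2 : HasDerivAt LC (bb x) (x + s * 0) := by
        rw [mul_zero, add_zero]
        exact hLC.1 x hxS
      exact e2.comp 0 e1
    have h4 := hasDerivAt_iff_tendsto_slope_zero.1 hd
    have h5 : Tendsto (fun N : ℕ => ((N : ℂ))⁻¹) atTop (𝓝[≠] 0) := by
      rw [tendsto_nhdsWithin_iff]
      refine ⟨hN0, ?_⟩
      filter_upwards [eventually_ge_atTop 1] with N hN
      have : (N : ℂ) ≠ 0 := by
        have : N ≠ 0 := by omega
        exact_mod_cast this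
      exact inv_ne_zero this
    have h6 := h4.comp h5
    rw [mul_comm (s : ℂ) (bb x)]
    refine h6.congr fun N => ?_
    simp only [Function.comp_apply, inv_inv, zero_add, mul_zero, add_zero, smul_eq_mul]
    rw [div_eq_mul_inv]
  have h3 := h1.mul (h2.cexp)
  rw [one_mul] at h3
  refine h3.congr fun N => ?_
  unfold Gt
  rw [mul_assoc, ← Complex.exp_add]
  congr 2
  ring

theorem two_sin (x : ℂ) : 2 * Complex.sin (Real.pi * x) =
    ((Complex.exp (Real.pi * Complex.I * x))⁻¹ - Complex.exp (Real.pi * Complex.I * x)) *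
      Complex.I := by
  rw [Complex.sin, ← Complex.exp_neg]
  have e1 : -(Real.pi * x : ℂ) * Complex.I = -(Real.pi * Complex.I * x) := by ring
  have e2 : (Real.pi * x : ℂ) * Complex.I = Real.pi * Complex.I * x := by ring
  rw [e1, e2]
  ring

theorem pI_sq (x : ℂ) : Complex.exp (pI * x) = Complex.exp (Real.pi * Complex.I * x) ^ 2 := by
  rw [← Complex.exp_nat_mul]
  congr 1
  unfold pI
  push_cast
  ring

section field

variable {E : Subfield ℂ}

theorem sq_mem {x : ℂ} (hx : Complex.exp (pI * x) ∈ E) :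
    (2 * Complex.sin (Real.pi * x)) ^ 2 ∈ E := by
  have h : (2 * Complex.sin (Real.pi * x)) ^ 2 =
      2 - Complex.exp (pI * x) - (Complex.exp (pI * x))⁻¹ := by
    rw [two_sin, pI_sq]
    have h0 := Complex.exp_ne_zero (Real.pi * Complex.I * x)
    rw [mul_pow, Complex.I_sq]
    field_simp
    ring
  rw [h]
  have h2 : (2 : ℂ) ∈ E := by
    have := natCast_mem E 2
    exact_mod_cast this
  exact E.sub_mem (E.sub_mem h2 hx) (E.inv_mem hx)

theorem inv_two_sin {x : ℂ} (hx : x ∈ St) : (2 * Complex.sin (Real.pi * x))⁻¹ =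
    Complex.I * Complex.exp (Real.pi * Complex.I * x) * (Complex.exp (pI * x) - 1)⁻¹ := by
  have hs := mul_ne_zero (two_ne_zero (α := ℂ)) (Pool.Agent.Q176.HT.sin_ne hx)
  rw [two_sin] at hs
  rw [two_sin, pI_sq]
  have h0 := Complex.exp_ne_zero (Real.pi * Complex.I * x)
  obtain ⟨w, hw⟩ : ∃ w, w = Complex.exp (Real.pi * Complex.I * x) := ⟨_, rfl⟩
  rw [← hw] at hs h0 ⊢
  have h1 : w ^ 2 - 1 ≠ 0 := by
    intro h
    apply hs
    have h3 : w⁻¹ - w = 0 := by
      field_simp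
      linear_combination -h
    rw [h3, zero_mul]
  have hI := Complex.I_ne_zero
  rw [inv_eq_iff_eq_inv, eq_comm, inv_eq_iff_eq_inv]
  rw [eq_comm]
  apply inv_eq_of_mul_eq_one_right
  have h4 : (w⁻¹ - w) * Complex.I * (Complex.I * w * (w ^ 2 - 1)⁻¹) =
      (Complex.I * Complex.I) * ((w⁻¹ * w - w ^ 2) * (w ^ 2 - 1)⁻¹) := by ring
  rw [h4, inv_mul_cancel₀ h0, Complex.I_mul_I]
  field_simp
  ring

theorem ex_add {x y : ℂ} (hx : Complex.exp (pI * x) ∈ E) (hy : Complex.exp (pI * y) ∈ E) :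
    Complex.exp (pI * (x + y)) ∈ E := by
  rw [mul_add, Complex.exp_add]
  exact E.mul_mem hx hy

theorem ex_neg {x : ℂ} (hx : Complex.exp (pI * x) ∈ E) : Complex.exp (pI * -x) ∈ E := by
  rw [mul_neg, Complex.exp_neg]
  exact E.inv_mem hx

theorem ex_sub {x y : ℂ} (hx : Complex.exp (pI * x) ∈ E) (hy : Complex.exp (pI * y) ∈ E) :
    Complex.exp (pI * (x - y)) ∈ E := by
  rw [sub_eq_add_neg]
  exact ex_add hx (ex_neg hy)

theorem ex_half : Complex.exp (pI * (1 / 2)) ∈ E := by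
  have h : pI * (1 / 2) = Real.pi * Complex.I := by
    unfold pI
    ring
  rw [h, Complex.exp_pi_mul_I]
  exact E.neg_mem E.one_mem

theorem ex_lf {v : Fin 4 → ℂ} (hv : ∀ k, Complex.exp (pI * v k) ∈ E) (i : Fin 6) :
    Complex.exp (pI * lf v i) ∈ E := by
  fin_cases i
  · exact hv 0
  · exact hv 3
  · exact ex_add (hv 0) (hv 3)
  · exact hv 2
  · exact ex_sub (hv 1) (hv 3)
  · exact ex_add (hv 2) (ex_sub (hv 1) (hv 3))

theorem ex_nz {ζ : ℂ} (hζ : Complex.exp (pI * (ζ / 2)) ∈ E) (i : Fin 6) :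
    Complex.exp (pI * (1 - nz ζ i)) ∈ E := by
  have h1 : 1 - nz ζ i = 1 / 2 + -(s6 i) * (ζ / 2) := by
    unfold nz
    ring
  rw [h1]
  have h2 : s6 i = 1 ∨ s6 i = -1 := by
    fin_cases i <;> simp [s6]
  rcases h2 with h2 | h2
  · rw [h2, neg_mul, one_mul]
    exact ex_add ex_half (ex_neg hζ)
  · rw [h2, neg_neg, one_mul]
    exact ex_add ex_half hζ

end field

/-- the limit of one bracket -/
noncomputable def gl (q0 : Fin 3 → ℤ) (v : Fin 4 → ℂ) (ζ : ℂ) (i : Fin 6) : ℂ :=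
  Complex.exp (((0 : ℝ) : ℂ) * bb (nz ζ i)) *
    (Complex.exp (((-(sh q0 i) : ℝ) : ℂ) * bb (1 - nz ζ i + lf v i)) *
      Complex.exp (((sh q0 i - 1 / 2 : ℝ) : ℂ) * bb (1 - lf v i)))

theorem sh_int (q0 : Fin 3 → ℤ) (i : Fin 6) : ∃ n : ℤ, sh q0 i = n := by
  fin_cases i
  · exact ⟨q0 0, rfl⟩
  · exact ⟨0, by simp [sh]⟩
  · exact ⟨q0 0, rfl⟩
  · exact ⟨q0 2, rfl⟩
  · exact ⟨q0 1, rfl⟩
  · exact ⟨q0 2 + q0 1, by simp [sh]⟩

/-- the square of the limit of one bracket -/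
theorem gl_sq {E : Subfield ℂ} {q0 : Fin 3 → ℤ} {v : Fin 4 → ℂ} {ζ : ℂ} (i : Fin 6)
    (hζ : Complex.exp (pI * (ζ / 2)) ∈ E) (hv : ∀ k, Complex.exp (pI * v k) ∈ E)
    (h2 : 1 - nz ζ i + lf v i ∈ St) (h3 : 1 - lf v i ∈ St) :
    ∃ e ∈ E, gl q0 v ζ i ^ 2 =
      Complex.I * Complex.exp (Real.pi * Complex.I * lf v i) * e := by
  obtain ⟨n, hn⟩ := sh_int q0 i
  have hl : lf v i ∈ St := by
    obtain ⟨a, b⟩ := h3
    rw [Complex.sub_re, Complex.one_re] at a b
    exact ⟨by linarith, by linarith⟩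
  have hy := sq_mem (ex_add (ex_nz hζ i) (ex_lf hv i))
  have hu := sq_mem (ex_lf hv i)
  refine ⟨((2 * Complex.sin (Real.pi * (1 - nz ζ i + lf v i))) ^ 2) ^ (-n) *
    ((2 * Complex.sin (Real.pi * lf v i)) ^ 2) ^ n * (Complex.exp (pI * lf v i) - 1)⁻¹,
    E.mul_mem (E.mul_mem (zpow_mem hy _) (zpow_mem hu _))
      (E.inv_mem (E.sub_mem (ex_lf hv i) E.one_mem)), ?_⟩
  have e0 : Complex.exp (bb (1 - lf v i)) = 2 * Complex.sin (Real.pi * lf v i) := by
    rw [exp_bb h3]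
    have : (Real.pi : ℂ) * (1 - lf v i) = Real.pi - Real.pi * lf v i := by ring
    rw [this, Complex.sin_pi_sub]
  have e1 : gl q0 v ζ i ^ 2 =
      (Complex.exp (bb (1 - nz ζ i + lf v i)) ^ 2) ^ (-n) *
        (Complex.exp (bb (1 - lf v i)) ^ 2) ^ n * (Complex.exp (bb (1 - lf v i)))⁻¹ := by
    unfold gl
    rw [hn]
    rw [← Complex.exp_nat_mul, ← Complex.exp_nat_mul, ← Complex.exp_int_mul,
      ← Complex.exp_int_mul, ← Complex.exp_neg, ← Complex.exp_add, ← Complex.exp_add,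
      ← Complex.exp_add, ← Complex.exp_add, ← Complex.exp_nat_mul]
    congr 1
    push_cast
    ring
  rw [e1, exp_bb h2, e0, inv_two_sin hl]
  ring

theorem lf_zero {α : Fin 6 → ℝ} (hF : Fr α) {v : Fin 4 → ℂ} (hA : Adm α v) (i : Fin 6)
    (hi : ctr α i = 0) : lf v i = 0 := by
  obtain ⟨a0, a1, a3⟩ := hA
  have n0 := hF.nn 0
  have n1 := hF.nn 1
  have n3 := hF.nn 3
  have n4 := hF.nn 4
  have s1 := hF.s1
  have s2 := hF.s2
  fin_cases i
  · exact a0 hi
  · exact (a1 hi).2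
  · have h : 1 / 2 - α 2 = 0 := hi
    show v 0 + v 3 = 0
    rw [a0 (by linarith), (a1 (by linarith)).2, add_zero]
  · exact a3 hi
  · have h : α 4 = 0 := hi
    have h1 := a1 (hF.z14.2 h)
    show v 1 - v 3 = 0
    rw [h1.1, h1.2, sub_zero]
  · have h : 1 / 2 - α 5 = 0 := hi
    have h4 : α 4 = 0 := by linarith
    have h3 : α 3 = 0 := by linarith
    have h1 := a1 (hF.z14.2 h4)
    show v 2 + (v 1 - v 3) = 0
    rw [a3 h3, h1.1, h1.2, sub_zero, add_zero]

theorem sum_lf (v : Fin 4 → ℂ) : ∑ i, lf v i = 2 * (v 0 + v 1 + v 2) := by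
  rw [Fin.sum_univ_six]
  show v 0 + v 3 + (v 0 + v 3) + v 2 + (v 1 - v 3) + (v 2 + (v 1 - v 3)) = _
  ring

/-- **AR-E5r** -/
theorem tE5r : Pool.Agent.H760.AR.S_E5r := by
  intro hLC hGAM α r κ K C0 hF hB q0 v ζ hv hζ' hA E hEζ hEv
  have hr := hB.r0
  have hr1 := hB.r1
  -- the places of the arguments
  have hmem : ∀ i, ctr α i ≠ 0 → nz ζ i ∈ Sd r ∧ 1 - nz ζ i + lf v i ∈ Sd r ∧
      1 - lf v i ∈ Sd r := by
    intro i hi
    have hv' : ‖v - vC α‖ < r / 2 := mem_ball_iff_norm.1 hv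
    obtain ⟨s1, s2⟩ := hB.sml i hi
    refine args_Sd hr s1 s2 ?_ ?_
    · rw [nz_near]; linarith
    · exact (lf_near hF v i).trans (by linarith)
  -- the equality for large `N`
  obtain ⟨M, hM⟩ : ∃ M : ℝ, M = ∑ i, (|sh q0 i| + 1) := ⟨_, rfl⟩
  have hlim : ∀ᶠ N : ℕ in atTop, M / N ≤ r := by
    have : Tendsto (fun N : ℕ => M / (N : ℝ)) atTop (𝓝 0) :=
      tendsto_const_div_atTop_nhds_zero_nat _
    filter_upwards [this.eventually_lt_const hr] with N hN using hN.le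
  have heq : ∀ᶠ N : ℕ in atTop, (∏ i, if ctr α i = 0 then 1 else Gt 0 N (nz ζ i) *
      (Gt (-(sh q0 i)) N (1 - nz ζ i + lf v i) * Gt (sh q0 i - 1 / 2) N (1 - lf v i))) =
      Am N α q0 v ζ := by
    filter_upwards [hlim, eventually_ge_atTop 1] with N hN hN1
    have hNr : (0 : ℝ) < N := by exact_mod_cast hN1
    have hsi : ∀ i, (|sh q0 i| + 1) / N ≤ r := by
      intro i
      refine (div_le_div_of_nonneg_right ?_ hNr.le).trans hN
      rw [hM]
      exact Finset.single_le_sum (f := fun i => |sh q0 i| + 1)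
        (fun j _ => by positivity) (Finset.mem_univ i)
    symm
    unfold Am PB PE na
    rw [← Finset.prod_pow_eq_pow_sum, Finset.mul_sum, ← Finset.sum_neg_distrib, Complex.exp_sum,
      ← Finset.prod_mul_distrib, ← Finset.prod_mul_distrib]
    refine Finset.prod_congr rfl fun i _ => ?_
    by_cases h : ctr α i = 0
    · simp only [if_pos h]
      simp
    · simp only [if_neg h, pow_one]
      rw [lf_shift]
      obtain ⟨m1, m2, m3⟩ := hmem i h
      exact br_eq hLC hGAM hr hN1 m1 m2 m3 (hsi i)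
  refine ⟨∏ i, if ctr α i = 0 then 1 else gl q0 v ζ i, ?_, ?_⟩
  · refine Tendsto.congr' heq ?_
    refine tendsto_finsetProd _ fun i _ => ?_
    by_cases h : ctr α i = 0
    · simp only [if_pos h]
      exact tendsto_const_nhds
    · simp only [if_neg h]
      obtain ⟨m1, m2, m3⟩ := hmem i h
      exact (Gt_lim hLC hGAM hr m1 _).mul
        ((Gt_lim hLC hGAM hr m2 _).mul (Gt_lim hLC hGAM hr m3 _))
  · have hfac : ∀ i : Fin 6, ∃ e ∈ E, (if ctr α i = 0 then 1 else gl q0 v ζ i) ^ 2 =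
        Complex.I ^ (if ctr α i = 0 then 0 else 1) *
          Complex.exp (Real.pi * Complex.I * lf v i) * e := by
      intro i
      by_cases h : ctr α i = 0
      · refine ⟨1, E.one_mem, ?_⟩
        simp only [if_pos h]
        rw [lf_zero hF hA i h]
        simp
      · simp only [if_neg h, pow_one]
        obtain ⟨m1, m2, m3⟩ := hmem i h
        exact gl_sq i hEζ hEv (Sd_St hr m2) (Sd_St hr m3)
    choose e he hfe using hfac
    refine ⟨Complex.exp (pI * (v 0 + v 1 + v 2)) * ∏ i, e i, E.mul_mem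
      (ex_add (ex_add (hEv 0) (hEv 1)) (hEv 2)) (prod_mem fun i _ => he i), ?_⟩
    rw [← Finset.prod_pow, Finset.prod_congr rfl fun i _ => hfe i, Finset.prod_mul_distrib,
      Finset.prod_mul_distrib, Finset.prod_pow_eq_pow_sum, ← Complex.exp_sum, ← Finset.mul_sum,
      sum_lf]
    have e1 : (Real.pi : ℂ) * Complex.I * (2 * (v 0 + v 1 + v 2)) = pI * (v 0 + v 1 + v 2) := by
      unfold pI
      ring
    rw [e1]
    unfold na
    ring

end Pool.Agent.H738.AR.E5r
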