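import Pool.Agent.H760.AR.Stm4

/-!
# The state sum of a link: the field of the coefficients
-/

set_option autoImplicit false

namespace Pool.Agent.H760.AR.FINs

open Finset Filter Topology MeasureTheory
open Pool.Agent.H760.AR
open Pool.Agent.Q99.KN (bb ct St LC S_LC S_GAM Gm S_LAP S_GIM)
open Pool.Agent.Q99.HX (Xp Sd UA S_UA S_GX S_PX S_LPX S_FLAP AXc)
open Pool.Agent.Q99.HT
open Pool.Agent.Q99.HU
open Pool.Agent.Y472.L (pI Jt HP TP mn tc)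
open Pool.Agent.Q191.LB (sg)
open Pool.Agent.W715.VC (rt)
open Pool.Agent.W709.QAT (Piece run)
open Pool.Agent.Q99.FAL (Pc Ty Val Pri Pos AS Sol Out c6 fV n1 n2 cor dn)

theorem gn_aux (E : Subfield ℂ) (β : Bool) (v : Fin 4 → ℂ) (ζ : ℂ)
    (h : ∀ i, Complex.exp (pI * sx β (1 / 2) v ζ i) ∈ E) :
    Complex.exp (pI * (ζ / 2)) ∈ E ∧ ∀ k, Complex.exp (pI * v k) ∈ E := by
  have hy : Complex.exp (pI * v 0) ∈ E ∧ Complex.exp (pI * v 3) ∈ E ∧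
      Complex.exp (pI * (1 / 2 + ζ / 2 - v 0 - v 3)) ∈ E ∧ Complex.exp (pI * v 2) ∈ E ∧
      Complex.exp (pI * (v 1 - v 3)) ∈ E := by
    cases β
    · exact ⟨h 0, h 2, h 1, h 3, h 5⟩
    · exact ⟨h 0, h 1, h 2, h 3, h 4⟩
  obtain ⟨h0, h3, hz, h2, h1⟩ := hy
  have e1 : Complex.exp (pI * v 1) ∈ E := by
    have e : pI * v 1 = pI * (v 1 - v 3) + pI * v 3 := by ring
    rw [e, Complex.exp_add]
    exact E.mul_mem h1 h3
  refine ⟨?_, ?_⟩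
  · have e : pI * (ζ / 2) = pI * (1 / 2 + ζ / 2 - v 0 - v 3) + pI * v 0 + pI * v 3 -
        Real.pi * Complex.I := by
      unfold Pool.Agent.Y472.L.pI
      ring
    rw [e, Complex.exp_sub, Complex.exp_pi_mul_I, Complex.exp_add, Complex.exp_add]
    refine E.div_mem (E.mul_mem (E.mul_mem hz h0) h3) ?_
    exact E.neg_mem E.one_mem
  · intro k
    fin_cases k
    · exact h0
    · exact e1
    · exact h2
    · exact h3

theorem gz_aux (β : Bool) (v : Fin 4 → ℂ) (ζ : ℂ)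
    (h1 : IsAlgebraic ℚ (Complex.exp (pI * (ζ / 2))))
    (h2 : ∀ k, IsAlgebraic ℚ (Complex.exp (pI * v k))) (i : Fin 6) :
    IsAlgebraic ℚ (Complex.exp (pI * sx β (1 / 2) v ζ i)) := by
  have hh : IsAlgebraic ℚ (Complex.exp (pI * (1 / 2))) := by
    have : pI * (1 / 2) = Real.pi * Complex.I := by
      unfold Pool.Agent.Y472.L.pI
      ring
    rw [this, Complex.exp_pi_mul_I]
    exact isAlgebraic_one.neg
  have hadd : ∀ a b : ℂ, IsAlgebraic ℚ (Complex.exp (pI * a)) →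
      IsAlgebraic ℚ (Complex.exp (pI * b)) → IsAlgebraic ℚ (Complex.exp (pI * (a + b))) := by
    intro a b ha hb
    rw [mul_add, Complex.exp_add]
    exact ha.mul hb
  have hneg : ∀ a : ℂ, IsAlgebraic ℚ (Complex.exp (pI * a)) →
      IsAlgebraic ℚ (Complex.exp (pI * (-a))) := by
    intro a ha
    rw [mul_neg, Complex.exp_neg]
    exact ha.inv
  have e1 : IsAlgebraic ℚ (Complex.exp (pI * (1 / 2 + ζ / 2 - v 0 - v 3))) := by
    have e : (1 / 2 + ζ / 2 - v 0 - v 3 : ℂ) = ((1 / 2 + ζ / 2) + -v 0) + -v 3 := by ring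
    rw [e]
    exact hadd _ _ (hadd _ _ (hadd _ _ hh h1) (hneg _ (h2 0))) (hneg _ (h2 3))
  have e2 : IsAlgebraic ℚ (Complex.exp (pI * (v 1 - v 3))) := by
    rw [sub_eq_add_neg]
    exact hadd _ _ (h2 1) (hneg _ (h2 3))
  have e3 : IsAlgebraic ℚ (Complex.exp (pI * (1 / 2 - ζ / 2 - v 2 - (v 1 - v 3)))) := by
    have e : (1 / 2 - ζ / 2 - v 2 - (v 1 - v 3) : ℂ) =
        ((1 / 2 + -(ζ / 2)) + -v 2) + -(v 1 - v 3) := by ring
    rw [e]
    exact hadd _ _ (hadd _ _ (hadd _ _ hh (hneg _ h1)) (hneg _ (h2 2))) (hneg _ e2)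
  cases β
  · fin_cases i
    · exact h2 0
    · exact e1
    · exact h2 3
    · exact h2 2
    · exact e3
    · exact e2
  · fin_cases i
    · exact h2 0
    · exact h2 3
    · exact e1
    · exact h2 2
    · exact e2
    · exact e3

theorem tFINs : Pool.Agent.H760.AR.S_FINs := by
  intro hA hE hO hM hF hFS hB hR hZ hT hD hV D h1 h2 h3 a ha hq
  have hpi := Real.pi_pos
  obtain ⟨d, β, Y, hY⟩ := hE D h1 h2 h3 a ha
  obtain ⟨hOk, hab, hv⟩ := hO D h1 h2 h3 a ha d β Y hY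
  have hnd := hM D h1 h2 h3 a ha hq d β Y hY
  have hfar := hF hFS D h1 h2 h3 a ha hq d β Y hY hOk hv
  obtain ⟨ρa, hρa, hAs⟩ := hA _ _ Y hOk hfar
    (fun s => hB _ (hOk.fr s) (hab s).1 (hab s).2 (hnd s))
  obtain ⟨Cd, hCd, hDi⟩ := hD D h1 h2 h3 a ha d β Y hY hOk
  obtain ⟨ρv, hρv, hVf⟩ := hV D h1 h2 h3 a ha.1
  obtain ⟨hT1, hT2, hT3, hT4⟩ := hT D h1 h2 h3 a ha d β Y hY hOk
  have hCd0 : 0 < Cd := by linarith
  refine ⟨min (ρa / Cd) ρv, lt_min (by positivity) hρv, fun ρ hρ hρ' => ?_⟩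
  have hρ1 : Cd * ρ ≤ ρa := by
    have := le_trans hρ' (min_le_left _ _)
    rw [le_div_iff₀ hCd0] at this
    linarith
  have hρ2 : ρ ≤ ρv := le_trans hρ' (min_le_right _ _)
  have hρ3 : ρ / Cd ≤ ρa := by
    refine le_trans ?_ hρ1
    rw [div_le_iff₀ hCd0]
    nlinarith [mul_pos hCd0 hρ]
  obtain ⟨W1, C1, hW1, hB1⟩ := hAs (ρ / Cd) (by positivity) hρ3
  obtain ⟨W2, C2, hW2, hB2⟩ := hAs (Cd * ρ) (by positivity) hρ1
  refine ⟨max W1 W2, 2 * Real.pi * C1, le_trans hW1 (le_max_left _ _), fun w Wm hWm hf => ?_⟩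
  obtain ⟨T, J, ζ, hc, hn, him, hval, -, z, hz, hlim, hEz, hGz⟩ :=
    hB1 w Wm (le_trans (le_max_left _ _) hWm) hf
  obtain ⟨T2, J2, ζ2, hc2, hn2, -, -, hu2, -⟩ :=
    hB2 w Wm (le_trans (le_max_right _ _) hWm) hf
  have hle : ρ / Cd ≤ Cd * ρ := by
    rw [div_le_iff₀ hCd0]
    nlinarith [mul_pos hCd0 hρ, mul_pos (mul_pos hCd0 hρ) hCd0]
  have hmono : ∀ {T' : Fin d → ℂ} {J' ζ' : Fin D.length → ℂ}, Y.Nr (ρ / Cd) T' J' ζ' →
      Y.Nr (Cd * ρ) T' J' ζ' := fun h =>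
    ⟨fun j => lt_of_lt_of_le (h.1 j) hle, fun s => lt_of_lt_of_le (h.2.1 s) hle,
      fun s => lt_of_lt_of_le (h.2.2 s) hle⟩
  have hun : ∀ (T' : Fin d → ℂ) (J' ζ' : Fin D.length → ℂ), Y.Cr w T' J' ζ' →
      Y.Nr (Cd * ρ) T' J' ζ' → T' = T ∧ J' = J ∧ ζ' = ζ := by
    intro T' J' ζ' h4 h5
    obtain ⟨e1, e2, e3⟩ := hu2 T' J' ζ' h4 h5
    obtain ⟨e4, e5, e6⟩ := hu2 T J ζ hc (hmono hn)
    exact ⟨e1.trans e4.symm, e2.trans e5.symm, e3.trans e6.symm⟩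
  set x : Fin D.length → Fin 6 → ℂ := fun s => sx (β s) (1 / 2) (Y.v T J s) (ζ s) with hx
  have hxc : CrI D w x := by
    refine ⟨(hT1 x).2 ⟨T, J, ζ, hc.aj, rfl⟩, fun δ hδ => ?_⟩
    obtain ⟨T', J', ζ', hJ', rfl⟩ := (hT2 δ).1 hδ
    rw [hx, hT3 _ _ _ _ _ _ _ hc.aj hJ']
    exact hc.eq _ _ _ hJ'
  have hxn : ∀ s i, ‖x s i - a s i‖ < ρ := by
    intro s i
    have := (hDi (ρ / Cd) T J ζ (by positivity)).1 hn s i
    rwa [mul_div_cancel₀ _ hCd0.ne'] at this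
  have hPI : PI w x = Y.Ph w T J ζ := hT4 _ _ _ _ hc.aj
  have hVx : VI x = 2 * Real.pi * (PI w x).re := hVf w x hxc fun s i => lt_of_lt_of_le (hxn s i) hρ2
  refine ⟨x, hxc, hxn, ?_, ?_, hVx, ?_, z, hz, ?_, ?_,
    fun s i => gz_aux (β s) (Y.v T J s) (ζ s) (hGz s).1 (hGz s).2 i⟩
  · intro x' hx' hn'
    obtain ⟨T', J', ζ', hJ', rfl⟩ := (hT1 x').1 hx'.1
    have h5 := (hDi ρ T' J' ζ' hρ).2 hn'
    have h4 : Y.Cr w T' J' ζ' := by
      refine ⟨hJ', fun T'' J'' ζ'' hJ'' => ?_⟩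
      rw [← hT3 _ _ _ _ _ _ _ hJ' hJ'']
      exact hx'.2 _ ((hT2 _).2 ⟨T'', J'', ζ'', hJ'', rfl⟩)
    obtain ⟨e1, e2, e3⟩ := hun T' J' ζ' h4 h5
    rw [hx, e1, e2, e3]
  · intro s
    have e1 := sx_n12 (β s) (1 / 2) (Y.v T J s) (ζ s)
    show 0 < (n1 (sx (β s) (1 / 2) (Y.v T J s) (ζ s)) -
      n2 (sx (β s) (1 / 2) (Y.v T J s) (ζ s))).im
    rw [e1.1, e1.2]
    have e2 : (1 / 2 + ζ s / 2 - (1 / 2 - ζ s / 2) : ℂ) = ζ s := by ring
    rw [e2]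
    exact him s
  · rw [hVx, hPI, ← hv, ← mul_sub, abs_mul, abs_of_pos (by positivity : 0 < 2 * Real.pi), mul_div_assoc]
    exact mul_le_mul_of_nonneg_left hval (by positivity)
  · refine Pool.Agent.Q99.HX.Xp.congr' hlim ?_
    filter_upwards [eventually_ge_atTop 1] with N hN
    have hN0 : 0 < N := hN
    have hN' : (N : ℂ) ≠ 0 := by exact_mod_cast hN0.ne'
    have hs0 : (√(N : ℝ)) ≠ 0 := (Real.sqrt_pos.2 (by exact_mod_cast hN0)).ne'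
    have hs : ((√(N : ℝ) : ℝ) : ℂ) ≠ 0 := by exact_mod_cast hs0
    have hss : ((√(N : ℝ) : ℝ) : ℂ) ^ 2 = N := by
      rw [← Complex.ofReal_pow, Real.sq_sqrt (Nat.cast_nonneg N)]
      simp
    have hcard := hR D h1 h2 h3 a ha d β Y hY
    rw [hPI, hZ D h1 h2 h3 a ha d β Y hY N hN0, Complex.exp_neg]
    have e1 : ((√(N : ℝ) : ℝ) : ℂ) ^ Y.nA / ((√(N : ℝ) : ℝ) : ℂ) ^ Fintype.card Y.Ix =
        (N : ℂ) ^ D.length / (N * (√(N : ℝ) : ℝ)) := by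
      rw [div_eq_div_iff (pow_ne_zero _ hs) (mul_ne_zero hN' hs)]
      have e2 : (N : ℂ) * ((√(N : ℝ) : ℝ) : ℂ) = ((√(N : ℝ) : ℝ) : ℂ) ^ 3 := by
        rw [pow_succ, hss]
      have e3 : (N : ℂ) ^ D.length = ((√(N : ℝ) : ℝ) : ℂ) ^ (2 * D.length) := by rw [pow_mul, hss]
      rw [e2, e3, ← pow_add, ← pow_add]
      congr 1
      omega
    rw [e1]
    have e4 : ((-1 : ℂ) ^ (D.length * (N - 1))) * ((-1 : ℂ) ^ (D.length * (N - 1))) = 1 := by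
      rw [← mul_pow]
      simp
    have e5 : ((-1 : ℂ) ^ (D.length * (N - 1))) ≠ 0 := pow_ne_zero _ (by simp)
    have e6 : ((-1 : ℂ) ^ (D.length * (N - 1))) = ((-1 : ℂ) ^ (D.length * (N - 1)))⁻¹ :=
      eq_inv_of_mul_eq_one_left e4
    have e7 := Complex.exp_ne_zero (N * Y.Ph w T J ζ)
    calc (N : ℂ) ^ D.length / (N * (√(N : ℝ) : ℝ)) * (-1) ^ (D.length * (N - 1)) *
          (Complex.exp (N * Y.Ph w T J ζ))⁻¹ * Y.Z N w =
        (N : ℂ) ^ D.length / (N * (√(N : ℝ) : ℝ)) * ((-1) ^ (D.length * (N - 1)))⁻¹ *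
          (Complex.exp (N * Y.Ph w T J ζ))⁻¹ * Y.Z N w := by rw [← e6]
      _ = _ := by
          field_simp
  · intro E hE'
    obtain ⟨hA1, e, he, hy2⟩ := hEz E fun s => gn_aux E (β s) (Y.v T J s) (ζ s) (hE' s)
    have hcard := hR D h1 h2 h3 a ha d β Y hY
    refine ⟨hA1, (-1) ^ (Fintype.card Y.Ix + D.length) * e,
      E.mul_mem (E.pow_mem (E.neg_mem E.one_mem) _) he, ?_⟩
    have e1 : Complex.I ^ (Y.nA + Fintype.card Y.Ix) * Complex.I ^ 3 =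
        (-1) ^ (Fintype.card Y.Ix + D.length) := by
      rw [← pow_add, ← Complex.I_sq, ← pow_mul]
      congr 1
      omega
    have e2 : Complex.I ^ (Y.nA + Fintype.card Y.Ix) =
        Complex.I * (-1) ^ (Fintype.card Y.Ix + D.length) := by
      rw [← e1]
      have e3 : Complex.I * Complex.I ^ 3 = 1 := by
        rw [← pow_succ', Complex.I_pow_four]
      calc Complex.I ^ (Y.nA + Fintype.card Y.Ix) =
          Complex.I ^ (Y.nA + Fintype.card Y.Ix) * (Complex.I * Complex.I ^ 3) := by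
            rw [e3, mul_one]
        _ = _ := by ring
    rw [hy2, e2, pow_one]
    ring

end Pool.Agent.H760.AR.FINs
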