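import Pool.Agent.H760.AR.Stm2
import Pool.Graph.R_pool_sql_team_seeded_3997aac3.Q99.HX.Fin2
import Pool.Graph.R_pool_sql_team_seeded_3997aac3.Q299.HU.JGP

/-!
# AR-JGQ: the constants in the phase are rational

The lemmas are those of the library on `Phs` (`Q99/FP2/Al.lean`), on `gl` (`Q299/HU/JGP.lean`) and
`phs_all` (`Q99/HX/Fin2.lean`), with rational constants.
-/

set_option autoImplicit false

namespace Pool.Agent.H760.AR.JGH

open Matrix Finset
open Pool.Agent.W715.VC (rt)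
open Pool.Agent.W709.QAT (Piece run)
open Pool.Agent.Q191.TW (cs cs_add cs_zero cs_period cs_period' rt_cs cs_neg)
open Pool.Agent.Q191.LB (sg)
open Pool.Agent.Q99.FW (Kg K2)
open Pool.Agent.Q99.FAL
open Pool.Agent.Q99.KN
open Pool.Agent.Q99.HT Pool.Agent.Q99.HU
open Pool.Agent.Q99.FP2 (kcup kcap Fh nu_cs ep_cs)
open Pool.Agent.Q251.HT (toG len_toG vag_toG ok_toG flat_toG unr)
open Pool.Agent.Q299.HU (tg t_F2 tg_K gl thg_toG jg_ex)

/-- `f N = exp (π i (α N ^ 2 + β N + γ) / N)` for some `2 β ∈ ℤ`, `γ ∈ ℚ` -/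
def PhQ (f : ℕ → ℂ) (α : ℝ) : Prop :=
  ∃ (b : ℤ) (γ : ℚ), ∀ N : ℕ, 0 < N → f N = cs N (α * (N : ℝ) ^ 2 + (b : ℝ) / 2 * N + γ)

lemma PhQ.mul {f g : ℕ → ℂ} {a b : ℝ} (hf : PhQ f a) (hg : PhQ g b) :
    PhQ (fun N => f N * g N) (a + b) := by
  obtain ⟨β, γ, hf⟩ := hf
  obtain ⟨β', γ', hg⟩ := hg
  refine ⟨β + β', γ + γ', fun N hN => ?_⟩
  show f N * g N = _
  rw [hf N hN, hg N hN, ← cs_add]
  congr 1
  push_cast
  ring

lemma PhQ.one : PhQ (fun _ => 1) 0 := ⟨0, 0, fun N _ => by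
  have h : (0 : ℝ) * (N : ℝ) ^ 2 + ((0 : ℤ) : ℝ) / 2 * N + ((0 : ℚ) : ℝ) = 0 := by
    push_cast
    ring
  rw [h, cs_zero]⟩

lemma PhQ.pow {f : ℕ → ℂ} {a : ℝ} (hf : PhQ f a) : ∀ m : ℕ, PhQ (fun N => f N ^ m) (m * a)
  | 0 => by simpa using PhQ.one
  | m + 1 => by
    have h := (hf.pow m).mul hf
    simp only [pow_succ]
    convert h using 1
    push_cast
    ring

lemma PhQ.shift {f : ℕ → ℂ} {a b : ℝ} (hf : PhQ f a) (k : ℤ) (h : b = a + 2 * k) : PhQ f b := by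
  obtain ⟨β, γ, hf⟩ := hf
  refine ⟨β, γ, fun N hN => ?_⟩
  rw [hf N hN]
  refine cs_period' hN (-(k * N)) ?_
  rw [h]
  push_cast
  ring

lemma phs_Kg (σ : Bool) : PhQ (fun N => Kg N (sg σ)) (-(sg σ : ℝ) / 4) := by
  cases σ
  · refine PhQ.shift (a := 9 / 4) ⟨1, -3 / 4, fun N hN => ?_⟩ (-1) ?_
    · show Kg N (-1) = _
      unfold Kg
      rw [if_neg (by norm_num)]
      congr 1
      push_cast
      ring
    · show -((-1 : ℤ) : ℝ) / 4 = _
      push_cast
      norm_num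
  · refine PhQ.shift (a := -1 / 4) ⟨3, 3 / 4, fun N hN => ?_⟩ 0 ?_
    · show Kg N 1 = _
      unfold Kg
      rw [if_pos rfl]
      congr 1
      push_cast
      ring
    · show -((1 : ℤ) : ℝ) / 4 = _
      push_cast
      norm_num

lemma phs_nu (s : ℤ) : PhQ (fun N => nu N s) 0 := by
  refine ⟨2 * s, -s, fun N hN => ?_⟩
  show nu N s = _
  rw [nu_cs hN]
  congr 1
  push_cast
  ring

lemma phs_ep (k : ℤ) : PhQ (fun N => ep N k) k := by
  refine ⟨2 * k, 0, fun N hN => ?_⟩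
  show ep N k = _
  rw [ep_cs hN]
  congr 1
  push_cast
  ring

lemma phs_kcup (n p : ℕ) : PhQ (fun N => kcup N n p) (p + 3 / 2) := by
  have h : PhQ (fun N => cs N (((N : ℝ) - 1) ^ 2 * ((p : ℤ) + 3 / 2))) (p + 3 / 2) :=
    ⟨-(4 * p + 6), p + 3 / 2, fun N _ => by
      show cs N _ = _
      congr 1
      push_cast
      ring⟩
  have := (phs_nu (-((n : ℤ) - p))).mul h
  rwa [zero_add] at this

lemma phs_kcap (n p : ℕ) : PhQ (fun N => kcap N n p) (-(p + 1 / 2)) := by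
  have h : PhQ (fun N => cs N (-(((N : ℝ) - 1) ^ 2 * ((p : ℤ) + 1 / 2)))) (-(p + 1 / 2)) :=
    ⟨4 * p + 2, -(p + 1 / 2), fun N _ => by
      show cs N _ = _
      congr 1
      push_cast
      ring⟩
  have := (phs_nu (1 + n)).mul h
  rwa [zero_add] at this

theorem phs_tg (T : Ty) (p n : ℕ) (h : p + wd T ≤ n) :
    PhQ (fun N => tg N 1 T p n) (Fh (up T n) - Fh n) := by
  have hKg : PhQ (fun _ => (1 : ℂ)) 0 := PhQ.one
  cases T
  · have : up .V n = n := rfl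
    rw [this, sub_self]
    exact hKg
  · have e : up .H n = n := rfl
    rw [e, sub_self]
    have := (((phs_kcup n (p + 1 + 1)).mul hKg).mul (phs_kcap (n - p) p)).mul (phs_ep (-1))
    refine this.shift (-1) ?_
    push_cast
    ring
  · have e : up .YL n = n + 2 := rfl
    have h' : p + 1 ≤ n := h
    have h1 : ((n - p - 1 : ℕ) : ℝ) = n - p - 1 := by
      rw [Nat.cast_sub (by omega), Nat.cast_sub (by omega)]
      push_cast
      ring
    have := ((phs_kcup n (p + 1)).mul hKg).mul ((phs_ep 1).pow (n - p - 1))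
    refine this.shift 0 ?_
    rw [e, h1]
    unfold Fh
    push_cast
    ring
  · have e : up .YR n = n + 2 := rfl
    have h' : p + 1 ≤ n := h
    have h1 : ((n - p - 1 : ℕ) : ℝ) = n - p - 1 := by
      rw [Nat.cast_sub (by omega), Nat.cast_sub (by omega)]
      push_cast
      ring
    have := ((phs_kcup n p).mul hKg).mul ((phs_ep 1).pow (n - p - 1 + 1))
    refine this.shift 0 ?_
    rw [e]
    push_cast
    rw [h1]
    unfold Fh
    push_cast
    ring
  · have e : up .LL n = n - 2 := rfl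
    have h' : p + 3 ≤ n := h
    have h1 : ((n - p - 3 : ℕ) : ℝ) = n - p - 3 := by
      rw [Nat.cast_sub (by omega), Nat.cast_sub (by omega)]
      push_cast
      ring
    have h2 : ((n - 2 : ℕ) : ℝ) = n - 2 := by
      rw [Nat.cast_sub (by omega)]
      push_cast
      ring
    have := (hKg.mul (phs_kcap (n - p - 3) (p + 1))).mul
      ((phs_ep (-1)).mul ((phs_ep (-1)).pow (n - p - 3)))
    refine this.shift 0 ?_
    rw [e, h1]
    unfold Fh
    rw [h2]
    push_cast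
    ring
  · have e : up .LR n = n - 2 := rfl
    have h' : p + 3 ≤ n := h
    have h1 : ((n - p - 3 : ℕ) : ℝ) = n - p - 3 := by
      rw [Nat.cast_sub (by omega), Nat.cast_sub (by omega)]
      push_cast
      ring
    have h2 : ((n - 2 : ℕ) : ℝ) = n - 2 := by
      rw [Nat.cast_sub (by omega)]
      push_cast
      ring
    have := (hKg.mul (phs_kcap (n - p - 2) p)).mul
      ((phs_ep (-1)).mul ((phs_ep (-1)).pow (n - p - 3 + 1)))
    refine this.shift 0 ?_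
    rw [e]
    unfold Fh
    rw [h2]
    push_cast
    rw [h1]
    ring

theorem phs_gl : ∀ (D : List Pc) (n : ℕ), Val D n → PhQ (fun N => gl N D n) (-Fh n)
  | [], n, h => by
    have h1 : n = 1 := h
    subst h1
    have e : -Fh 1 = 0 := by
      unfold Fh
      norm_num
    rw [e]
    exact PhQ.one
  | P :: D, n, h => by
    have := (phs_tg P.ty P.p n h.1).mul (phs_gl D _ h.2)
    have e : -Fh n = (Fh (up P.ty n) - Fh n) + -Fh (up P.ty n) := by ring
    rw [e]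
    exact this

theorem jgq1 : ∀ D : List Pc, Val D 1 → ∃ (b : ℤ) (γ : ℚ), ∀ (N : ℕ) (h : 0 < N)
    (f : Fin D.length → Bool × ℕ),
    run N (rt N) (lnk D f) (fun l => if l = [⟨0, h⟩] then 1 else 0) [⟨0, h⟩] =
      cs N ((b : ℝ) / 2 * N + γ) * ((-1) ^ (N - 1)) ^ D.length * (∏ k, Kg N (sg (f k).1) ^ (f k).2) *
        (N / Real.pi) ^ D.length * ZD N D (wf f) := by
  intro D hV
  obtain ⟨β, γ, hph⟩ := phs_gl D 1 hV
  refine ⟨β, γ, fun N h f => ?_⟩
  have hok : ∀ (σ : Bool) (m : ℕ), (tw N σ m).Ok := Pool.Agent.Q239.KN.task_TO t_F2 N h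
  have hr := jg_ex N h (toG N D f) (ok_toG N hok D f) (vag_toG N D f 1 hV)
  have hph' : gl N D 1 = cs N ((-Fh 1) * (N : ℝ) ^ 2 + (β : ℝ) / 2 * N + γ) := hph N h
  rw [flat_toG, len_toG, unr, thg_toG, hph'] at hr
  have hpw : ((N : ℂ) / (Real.pi : ℂ)) ^ D.length =
      (N : ℂ) ^ D.length * (1 / (Real.pi : ℂ)) ^ D.length := by
    rw [← mul_pow, mul_one_div]
  have hK : ∏ k : Fin D.length, (tw N (f k).1 (f k).2).K =
      ((-1 : ℂ) ^ (N - 1)) ^ D.length * ∏ k, Kg N (sg (f k).1) ^ (f k).2 := by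
    have h1 : ∀ k : Fin D.length, (tw N (f k).1 (f k).2).K =
        (-1 : ℂ) ^ (N - 1) * Kg N (sg (f k).1) ^ (f k).2 := fun k => by
      show Kg N (sg (f k).1) ^ (f k).2 * (-1 : ℂ) ^ (N - 1) = _
      ring
    rw [Finset.prod_congr rfl fun k _ => h1 k, Finset.prod_mul_distrib, Finset.prod_const,
      Finset.card_univ, Fintype.card_fin]
  have hα : (-Fh 1) * (N : ℝ) ^ 2 + (β : ℝ) / 2 * N + γ = (β : ℝ) / 2 * N + γ := by
    unfold Fh
    norm_num
  rw [hK, hα] at hr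
  rw [hr, ZD, hpw]
  ring

lemma phs_prod {ι : Type} (s : Finset ι) (f : ι → ℕ → ℂ) (a : ι → ℝ) (h : ∀ i ∈ s, PhQ (f i) (a i)) :
    PhQ (fun N => ∏ i ∈ s, f i N) (∑ i ∈ s, a i) := by
  classical
  induction s using Finset.induction_on with
  | empty => simpa using PhQ.one
  | insert j s hj ih =>
    simp only [prod_insert hj, sum_insert hj]
    exact (h j (mem_insert_self _ _)).mul (ih fun i hi => h i (mem_insert_of_mem hi))

lemma phs_all {n : ℕ} (f : Fin n → Bool × ℕ) :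
    PhQ (fun N => ∏ k, Kg N (sg (f k).1) ^ (f k).2) (-((∑ k, wf f k : ℤ) : ℝ) / 4) := by
  have h := phs_prod univ (fun k N => Kg N (sg (f k).1) ^ (f k).2) _
    (fun k _ => (phs_Kg (f k).1).pow (f k).2)
  have e : ∑ k, (((f k).2 : ℕ) : ℝ) * (-(sg (f k).1 : ℝ) / 4) = -((∑ k, wf f k : ℤ) : ℝ) / 4 := by
    unfold wf
    push_cast
    rw [← sum_neg_distrib, sum_div]
    refine sum_congr rfl fun k _ => ?_
    ring
  rw [← e]
  exact h

theorem jgq2 : ∀ (n : ℕ) (f : Fin n → Bool × ℕ), ∃ (b : ℤ) (γ : ℚ), ∀ N : ℕ, 0 < N →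
    ∏ k, Kg N (sg (f k).1) ^ (f k).2 =
      cs N (-((∑ k, wf f k : ℤ) : ℝ) / 4 * (N : ℝ) ^ 2 + (b : ℝ) / 2 * N + γ) := by
  intro n f
  obtain ⟨β, γ, h⟩ := phs_all f
  exact ⟨β, γ, fun N hN => h N hN⟩

end Pool.Agent.H760.AR.JGH
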