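import Pool.Agent.H760.AR.G

/-!
# Task T1: rational integrals
-/

set_option autoImplicit false

namespace Pool.Agent.H200.AR

open Finset Filter Topology MeasureTheory

/-- The alternating coefficients. -/
noncomputable def av (n : ℕ) : ℂ := if n = 0 then 0 else (-1) ^ (n + 1)

theorem av_zero : av 0 = 0 := if_pos rfl

theorem av_norm (n : ℕ) : ‖av n‖ ≤ 1 := by
  unfold av
  split_ifs
  · simp
  · simp

/-- `t ^ j / (exp (2 π t) + 1)` -/
noncomputable def gg (j : ℕ) (t : ℝ) : ℝ := t ^ j / (Real.exp (2 * Real.pi * t) + 1)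

theorem gg_cont (j : ℕ) : Continuous (gg j) := by
  unfold gg
  refine (continuous_pow j).div (by fun_prop) fun t => ?_
  positivity

theorem gg_int (j : ℕ) : IntegrableOn (gg j) (Set.Ioi 0) := by
  have h1 := Real.GammaIntegral_convergent (s := (j : ℝ) + 1) (by positivity)
  refine Integrable.mono' h1 (gg_cont j).aestronglyMeasurable ?_
  rw [ae_restrict_iff' measurableSet_Ioi]
  refine Eventually.of_forall fun t ht => ?_
  have ht0 : (0 : ℝ) < t := ht
  have e1 : (j : ℝ) + 1 - 1 = j := by ring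
  rw [e1, Real.rpow_natCast]
  have hnn : 0 ≤ gg j t := by unfold gg; positivity
  rw [Real.norm_of_nonneg hnn]
  unfold gg
  rw [div_eq_mul_inv, mul_comm]
  apply mul_le_mul_of_nonneg_right _ (by positivity)
  rw [Real.exp_neg]
  apply inv_anti₀ (Real.exp_pos t)
  have hpi := Real.pi_gt_three
  have h2 : Real.exp t ≤ Real.exp (2 * Real.pi * t) := by
    apply Real.exp_le_exp.2
    nlinarith
  linarith

theorem gg_ofReal (j : ℕ) : ∫ t in Set.Ioi (0 : ℝ), ((gg j t : ℝ) : ℂ) =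
    ((∫ t in Set.Ioi (0 : ℝ), gg j t : ℝ) : ℂ) := integral_complex_ofReal

/-- The alternating series of the function. -/
theorem hasSum_F (t : ℝ) (ht : 0 < t) :
    HasSum (fun n : ℕ => av n * (Real.exp (-(2 * Real.pi * n) * t) : ℂ))
      (((Real.exp (2 * Real.pi * t) + 1)⁻¹ : ℝ) : ℂ) := by
  set x : ℝ := Real.exp (-(2 * Real.pi * t)) with hx
  have hx0 : 0 < x := Real.exp_pos _
  have hx1 : x < 1 := by
    rw [hx, Real.exp_lt_one_iff]
    have := Real.pi_pos
    have : 0 < 2 * Real.pi * t := by positivity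
    linarith
  have h1 : HasSum (fun n : ℕ => ((-x : ℝ)) ^ n) (1 - (-x))⁻¹ := by
    apply hasSum_geometric_of_norm_lt_one
    rw [norm_neg, Real.norm_of_nonneg hx0.le]
    exact hx1
  have h2 : HasSum (fun n : ℕ => if n = 0 then (1 : ℝ) else 0) 1 := by
    have := hasSum_ite_eq (0 : ℕ) (1 : ℝ)
    exact this
  have h3 := h2.sub h1
  have h4 : (1 : ℝ) - (1 - (-x))⁻¹ = (Real.exp (2 * Real.pi * t) + 1)⁻¹ := by
    have e1 : Real.exp (2 * Real.pi * t) = x⁻¹ := by
      rw [hx, Real.exp_neg, inv_inv]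
    have h0 : (1 : ℝ) + x ≠ 0 := by positivity
    have e2 : x⁻¹ + 1 = (1 + x) / x := by field_simp
    rw [e1, sub_neg_eq_add, e2, inv_div]
    field_simp
    ring
  rw [h4] at h3
  refine (Complex.hasSum_ofReal.2 h3).congr_fun fun n => ?_
  unfold av
  by_cases hn : n = 0
  · rw [if_pos hn, if_pos hn, hn]
    simp
  · rw [if_neg hn, if_neg hn]
    have e3 : Real.exp (-(2 * Real.pi * n) * t) = x ^ n := by
      rw [hx, ← Real.exp_nat_mul]
      congr 1
      ring
    rw [e3]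
    push_cast
    rw [neg_pow (x : ℂ) n, pow_succ]
    ring

theorem mel (k : ℕ) (hk : k ≠ 0) :
    HasSum (fun n : ℕ => ((2 * k - 1).factorial : ℂ) * av n / ((2 * Real.pi * n : ℝ) : ℂ) ^ (2 * k))
      ((∫ t in Set.Ioi (0 : ℝ), gg (2 * k - 1) t : ℝ) : ℂ) := by
  have hpi := Real.pi_pos
  have h := hasSum_mellin (a := av) (p := fun n : ℕ => 2 * Real.pi * n)
    (F := fun t => (((Real.exp (2 * Real.pi * t) + 1)⁻¹ : ℝ) : ℂ)) (s := ((2 * k : ℕ) : ℂ))
    (by
      intro n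
      rcases Nat.eq_zero_or_pos n with h0 | h0
      · left
        rw [h0, av_zero]
      · right
        have : (0 : ℝ) < n := by exact_mod_cast h0
        positivity)
    (by
      rw [Complex.natCast_re]
      exact_mod_cast (show 0 < 2 * k by omega))
    (fun t ht => hasSum_F t ht)
    (by
      have h1 : Summable fun n : ℕ => 1 / (n : ℝ) ^ (2 * k) :=
        Real.summable_one_div_nat_pow.2 (by omega)
      refine Summable.of_nonneg_of_le (fun n => by positivity) (fun n => ?_) h1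
      rw [Complex.natCast_re, Real.rpow_natCast]
      rcases Nat.eq_zero_or_pos n with h0 | h0
      · rw [h0, av_zero, norm_zero, zero_div]
        positivity
      · have hn : (0 : ℝ) < n := by exact_mod_cast h0
        apply div_le_div₀ zero_le_one (av_norm n) (by positivity)
        apply pow_le_pow_left₀ hn.le
        have := Real.pi_gt_three
        nlinarith)
  have e1 : mellin (fun t => (((Real.exp (2 * Real.pi * t) + 1)⁻¹ : ℝ) : ℂ)) ((2 * k : ℕ) : ℂ) =
      ((∫ t in Set.Ioi (0 : ℝ), gg (2 * k - 1) t : ℝ) : ℂ) := by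
    rw [mellin, ← gg_ofReal]
    refine setIntegral_congr_fun measurableSet_Ioi fun t _ => ?_
    have e2 : ((2 * k : ℕ) : ℂ) - 1 = ((2 * k - 1 : ℕ) : ℂ) := by
      rw [Nat.cast_sub (by omega), Nat.cast_one]
    show (t : ℂ) ^ (((2 * k : ℕ) : ℂ) - 1) • (((Real.exp (2 * Real.pi * t) + 1)⁻¹ : ℝ) : ℂ) =
      ((gg (2 * k - 1) t : ℝ) : ℂ)
    rw [e2, Complex.cpow_natCast, smul_eq_mul, gg, div_eq_mul_inv]
    push_cast
    ring
  rw [e1] at h
  refine h.congr_fun fun n => ?_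
  have e3 : Complex.Gamma ((2 * k : ℕ) : ℂ) = ((2 * k - 1).factorial : ℂ) := by
    have e4 : ((2 * k : ℕ) : ℂ) = ((2 * k - 1 : ℕ) : ℂ) + 1 := by
      rw [Nat.cast_sub (by omega), Nat.cast_one]
      ring
    rw [e4, Complex.Gamma_nat_eq_factorial]
  rw [e3, Complex.cpow_natCast]

theorem altZeta (k : ℕ) (hk : k ≠ 0) (Z : ℝ)
    (hZ : HasSum (fun n : ℕ => 1 / (n : ℝ) ^ (2 * k)) Z) :
    HasSum (fun n : ℕ => ((2 * k - 1).factorial : ℂ) * av n /
      ((2 * Real.pi * n : ℝ) : ℂ) ^ (2 * k))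
      ((((2 * k - 1).factorial : ℝ) / (2 * Real.pi) ^ (2 * k) *
        (Z - 2 * (Z / 2 ^ (2 * k))) : ℝ) : ℂ) := by
  have hinj : Function.Injective (fun n : ℕ => 2 * n) := fun a b h => by
    have : 2 * a = 2 * b := h
    omega
  have h1 : HasSum (fun n : ℕ => if Even n then 1 / (n : ℝ) ^ (2 * k) else 0)
      (Z / 2 ^ (2 * k)) := by
    rw [← hinj.hasSum_iff]
    · refine (hZ.div_const (2 ^ (2 * k))).congr_fun fun n => ?_
      show (if Even (2 * n) then 1 / ((2 * n : ℕ) : ℝ) ^ (2 * k) else 0) = _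
      rw [if_pos (even_two_mul n)]
      push_cast
      rw [mul_pow, mul_comm ((2 : ℝ) ^ (2 * k)), div_div]
    · intro n hn
      rw [if_neg]
      intro he
      apply hn
      obtain ⟨m, hm⟩ := he
      exact ⟨m, by show 2 * m = n; omega⟩
  have h2 := (hZ.sub (h1.mul_left 2)).mul_left
    (((2 * k - 1).factorial : ℝ) / (2 * Real.pi) ^ (2 * k))
  refine (Complex.hasSum_ofReal.2 h2).congr_fun fun n => ?_
  unfold av
  by_cases hn : n = 0
  · rw [if_pos hn, hn]
    have : (0 : ℝ) ^ (2 * k) = 0 := zero_pow (by omega)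
    simp [this]
  · rw [if_neg hn]
    have hn' : (n : ℂ) ≠ 0 := by exact_mod_cast hn
    have hpi' : (Real.pi : ℂ) ≠ 0 := by exact_mod_cast Real.pi_pos.ne'
    by_cases he : Even n
    · rw [if_pos he, (Even.add_one he).neg_one_pow]
      push_cast
      rw [mul_pow (2 * (Real.pi : ℂ)) (n : ℂ)]
      field_simp
      ring
    · rw [if_neg he, (Odd.add_one (Nat.not_even_iff_odd.1 he)).neg_one_pow]
      push_cast
      rw [mul_pow (2 * (Real.pi : ℂ)) (n : ℂ)]
      field_simp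
      ring

theorem rat (k : ℕ) (hk : k ≠ 0) : ∃ r : ℚ, ∫ t in Set.Ioi (0 : ℝ), gg (2 * k - 1) t = (r : ℝ) := by
  have hZ := hasSum_zeta_nat hk
  have h1 := (mel k hk).unique (altZeta k hk _ hZ)
  have h2 := Complex.ofReal_injective h1
  refine ⟨((2 * k - 1).factorial : ℚ) / 2 ^ (2 * k) *
    ((-1) ^ (k + 1) * 2 ^ (2 * k - 1) * bernoulli (2 * k) / ((2 * k).factorial : ℚ) *
      (1 - 2 / 2 ^ (2 * k))), ?_⟩
  rw [h2]
  have hpi' : (Real.pi : ℝ) ≠ 0 := Real.pi_pos.ne'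
  push_cast
  rw [mul_pow 2 Real.pi]
  field_simp

theorem rat' (j : ℕ) : ∃ r : ℚ, Odd j → ∫ t in Set.Ioi (0 : ℝ), gg j t = (r : ℝ) := by
  by_cases hj : Odd j
  · obtain ⟨k, hk⟩ := hj
    obtain ⟨r, hr⟩ := rat (k + 1) (by omega)
    refine ⟨r, fun _ => ?_⟩
    rw [← hr, hk]
    congr 2
  · exact ⟨0, fun h => absurd h hj⟩

theorem tT1 : Pool.Agent.H760.AR.S_T1 := by
  intro s m
  choose r hr using rat'
  refine ⟨∑ j ∈ range (m + 1), if Odd j then
    (s ^ (m - j) * (m.choose j : ℚ)) * 2 * (-1) ^ ((j + 1) / 2) * r j else 0, ?_⟩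
  have h1 : ∀ t : ℝ, (((s : ℂ) + Complex.I * t) ^ m - ((s : ℂ) - Complex.I * t) ^ m) /
      ((Real.exp (2 * Real.pi * t) + 1 : ℝ) : ℂ) =
      ∑ j ∈ range (m + 1), (((s : ℂ) ^ (m - j) * (m.choose j : ℂ)) *
        (Complex.I ^ j * (1 - (-1) ^ j))) * ((gg j t : ℝ) : ℂ) := by
    intro t
    have e1 : ((s : ℂ) + Complex.I * t) ^ m =
        ∑ j ∈ range (m + 1), (Complex.I * t) ^ j * (s : ℂ) ^ (m - j) * (m.choose j : ℂ) := by
      rw [add_comm, add_pow]
    have e2 : ((s : ℂ) - Complex.I * t) ^ m =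
        ∑ j ∈ range (m + 1), (-(Complex.I * t)) ^ j * (s : ℂ) ^ (m - j) * (m.choose j : ℂ) := by
      rw [sub_eq_add_neg, add_comm, add_pow]
    rw [e1, e2, ← sum_sub_distrib, sum_div]
    refine sum_congr rfl fun j _ => ?_
    rw [gg, neg_pow (Complex.I * (t : ℂ)) j, mul_pow]
    push_cast
    ring
  have h2 : ∫ t in Set.Ioi (0 : ℝ), (((s : ℂ) + Complex.I * t) ^ m -
      ((s : ℂ) - Complex.I * t) ^ m) / ((Real.exp (2 * Real.pi * t) + 1 : ℝ) : ℂ) =
      ∑ j ∈ range (m + 1), (((s : ℂ) ^ (m - j) * (m.choose j : ℂ)) *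
        (Complex.I ^ j * (1 - (-1) ^ j))) * ((∫ t in Set.Ioi (0 : ℝ), gg j t : ℝ) : ℂ) := by
    simp_rw [h1]
    rw [integral_finsetSum]
    · refine sum_congr rfl fun j _ => ?_
      rw [integral_const_mul, gg_ofReal]
    · intro j _
      exact ((gg_int j).ofReal).const_mul _
  rw [h2, mul_sum]
  push_cast
  refine sum_congr rfl fun j _ => ?_
  by_cases hj : Odd j
  · rw [if_pos hj, hr j hj]
    obtain ⟨k, hk⟩ := hj
    have e3 : (j + 1) / 2 = k + 1 := by omega
    have e4 : Complex.I * Complex.I ^ j = (-1) ^ (k + 1) := by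
      rw [hk, ← pow_succ', show 2 * k + 1 + 1 = 2 * (k + 1) by ring, pow_mul, Complex.I_sq]
    have e5 : (-1 : ℂ) ^ j = -1 := Odd.neg_one_pow ⟨k, hk⟩
    rw [e3, e5]
    push_cast
    linear_combination (2 * ((s : ℂ) ^ (m - j) * (m.choose j : ℂ)) * (r j : ℂ)) * e4
  · rw [if_neg hj]
    have e5 : (-1 : ℂ) ^ j = 1 := Even.neg_one_pow (Nat.not_odd_iff_even.1 hj)
    rw [e5]
    simp

end Pool.Agent.H200.AR
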