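import Pool.Agent.H760.AR.G

/-!
# AR-T2: cotangent derivatives in the class `Jt`
-/

set_option autoImplicit false

namespace Pool.Agent.H276.AR

open Finset Filter Topology Pool.Agent.Y472.K Pool.Agent.Y472.L Pool.Agent.Y904.TA
open Pool.Agent.H760.AR
open scoped Real Nat

variable {ι : Type} [Fintype ι] {E : Subfield ℂ} {κ : ℂ}

theorem rmem (E : Subfield ℂ) (q : ℚ) : (q : ℂ) ∈ E := SubfieldClass.ratCast_mem E q

/-- the direction of a line -/
noncomputable def LL (ℓ : ι → ℚ) (t : (ι → ℝ) × ℝ) : ℂ := ∑ i, (ℓ i : ℂ) * (t.1 i : ℂ)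

theorem lin_line (ℓ : ι → ℚ) (z : ℂ) (t : (ι → ℝ) × ℝ) :
    lin ℓ (((0 : ι → ℂ), (0 : ℂ)) + z • cst t).1 = z * LL ℓ t := by
  unfold lin LL
  rw [Finset.mul_sum]
  refine Finset.sum_congr rfl fun a _ => ?_
  simp only [cst, Prod.fst_add, Prod.smul_fst, Pi.add_apply, Pi.smul_apply, smul_eq_mul,
    Pi.zero_apply, zero_add]
  ring

theorem lin_zero (ℓ : ι → ℚ) : lin ℓ (0 : ι → ℂ) = 0 := by
  unfold lin
  simp

theorem an_lin (ℓ : ι → ℚ) (p₀ : (ι → ℂ) × ℂ) :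
    AnalyticAt ℂ (fun p : (ι → ℂ) × ℂ => lin ℓ p.1) p₀ :=
  Finset.analyticAt_fun_sum _ fun a _ => analyticAt_const.mul (an_fst a)

theorem HP_L (ℓ : ι → ℚ) : (fun t : (ι → ℝ) × ℝ => pI * LL ℓ t) ∈ HP E κ 0 1 := by
  have h1 : (fun t : (ι → ℝ) × ℝ => pI * LL ℓ t) =
      ∑ a, fun t : (ι → ℝ) × ℝ => (ℓ a : ℂ) * (pI * t.1 a) := by
    funext t
    rw [Finset.sum_apply]
    unfold LL
    rw [Finset.mul_sum]
    refine Finset.sum_congr rfl fun a _ => ?_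
    ring
  rw [h1]
  exact Submodule.sum_mem _ fun a _ => cmul_mem (rmem E (ℓ a)) (HP_pit a)

/-- (a) -/
theorem jt_z (x : ℂ) (ℓ : ι → ℚ) (hx : Complex.exp (pI * x) ∈ E) :
    Jt E κ ((0 : ι → ℂ), (0 : ℂ)) 0 0 fun p => Complex.exp (pI * (x + lin ℓ p.1)) := by
  refine ⟨?_, fun k _ => ?_⟩
  · exact (analyticAt_const.mul (analyticAt_const.add (an_lin ℓ _))).cexp
  · have h2 := cmul_mem (E.div_mem hx (natCast_mem E (k !))) (HP_pow (HP_L (κ := κ) ℓ) k)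
    refine HP_congr_fun h2 fun t => ?_
    have h3 : (fun z : ℂ => Complex.exp (pI * (x + lin ℓ
        (((0 : ι → ℂ), (0 : ℂ)) + z • cst t).1))) = fun z : ℂ =>
        Complex.exp (pI * x) * Complex.exp ((pI * LL ℓ t) * z) := by
      funext z
      rw [← Complex.exp_add, lin_line]
      congr 1
      ring
    unfold tc
    rw [h3, iteratedDeriv_const_mul_field, iteratedDeriv_cexp_const_mul]
    simp only [mul_zero, Complex.exp_zero, mul_one]
    ring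

/-- (b) -/
theorem exp_add (y : ℂ) : Complex.exp (pI * y) + 1 =
    2 * Complex.exp (Real.pi * y * Complex.I) * Complex.cos (Real.pi * y) ∧
    Complex.exp (pI * y) - 1 =
    2 * Complex.I * Complex.exp (Real.pi * y * Complex.I) * Complex.sin (Real.pi * y) := by
  have e : Complex.exp (pI * y) =
      Complex.exp (Real.pi * y * Complex.I) * Complex.exp (Real.pi * y * Complex.I) := by
    rw [← Complex.exp_add]
    congr 1
    unfold pI
    ring
  have h := Complex.sin_sq_add_cos_sq ((Real.pi : ℂ) * y)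
  rw [e, Complex.exp_mul_I]
  constructor
  · linear_combination (-1 : ℂ) * h + (Complex.sin (Real.pi * y)) ^ 2 * Complex.I_sq
  · linear_combination (1 : ℂ) * h - (Complex.sin (Real.pi * y)) ^ 2 * Complex.I_sq

theorem exp_ne {y : ℂ} (h : Complex.sin (Real.pi * y) ≠ 0) : Complex.exp (pI * y) - 1 ≠ 0 := by
  rw [(exp_add y).2]
  exact mul_ne_zero (mul_ne_zero (mul_ne_zero two_ne_zero Complex.I_ne_zero)
    (Complex.exp_ne_zero _)) h

theorem cc_eq {y : ℂ} (h : Complex.sin (Real.pi * y) ≠ 0) :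
    pI ^ (-1 : ℤ) * cc y =
      (1 / 2 : ℂ) * ((Complex.exp (pI * y) + 1) * (Complex.exp (pI * y) + -1)⁻¹) := by
  have h0 := exp_ne h
  obtain ⟨h1, h2⟩ := exp_add y
  rw [← sub_eq_add_neg, h1, h2]
  unfold cc
  rw [zpow_neg_one]
  unfold pI
  have hp : (Real.pi : ℂ) ≠ 0 := by exact_mod_cast Real.pi_ne_zero
  have he := Complex.exp_ne_zero (Real.pi * y * Complex.I)
  have hI := Complex.I_ne_zero
  field_simp

theorem sin_ev (x : ℂ) (h : Complex.sin (Real.pi * x) ≠ 0) :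
    ∀ᶠ y in 𝓝 x, Complex.sin (Real.pi * y) ≠ 0 := by
  have hc : ContinuousAt (fun y : ℂ => Complex.sin (Real.pi * y)) x := by fun_prop
  exact hc.eventually_ne h

theorem tend (x : ℂ) (ℓ : ι → ℚ) : Tendsto (fun p : (ι → ℂ) × ℂ => x + lin ℓ p.1)
    (𝓝 ((0 : ι → ℂ), (0 : ℂ))) (𝓝 x) := by
  have h := (analyticAt_const.add (an_lin ℓ ((0 : ι → ℂ), (0 : ℂ))) :
    AnalyticAt ℂ (fun p : (ι → ℂ) × ℂ => x + lin ℓ p.1) _).continuousAt
  have h2 : Tendsto (fun p : (ι → ℂ) × ℂ => x + lin ℓ p.1)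
    (𝓝 ((0 : ι → ℂ), (0 : ℂ))) (𝓝 (x + lin ℓ (0 : ι → ℂ))) := h.tendsto
  rw [lin_zero, add_zero] at h2
  exact h2

theorem jt_g (hκ : κ ≠ 0) (x : ℂ) (ℓ : ι → ℚ) (hx : Complex.exp (pI * x) ∈ E)
    (hs : Complex.sin (Real.pi * x) ≠ 0) :
    Jt E κ ((0 : ι → ℂ), (0 : ℂ)) 0 0 fun p => pI ^ (-1 : ℤ) * cc (x + lin ℓ p.1) := by
  obtain ⟨c0, _, cadd, csm, cmul, cinv, _, _, ccong⟩ := jta ι E κ ((0 : ι → ℂ), (0 : ℂ)) hκ
  have hz := jt_z (κ := κ) x ℓ hx
  have h1 := cadd 0 0 _ _ hz (c0 1 E.one_mem)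
  have h2 := cadd 0 0 _ _ hz (c0 (-1) (E.neg_mem E.one_mem))
  have h3 := cinv _ h2 (by
    show Complex.exp (pI * (x + lin ℓ (0 : ι → ℂ))) + -1 ≠ 0
    rw [lin_zero, add_zero, ← sub_eq_add_neg]
    exact exp_ne hs)
  have h4 := csm 0 0 _ (1 / 2 : ℂ) (E.div_mem E.one_mem (ofNat_mem E 2)) (cmul 0 0 _ _ h1 h3)
  refine ccong 0 0 _ _ ?_ h4
  filter_upwards [(tend x ℓ).eventually (sin_ev x hs)] with p hp
  exact (cc_eq hp).symm

/-- (c) -/
theorem cc_deriv {y : ℂ} (h : Complex.sin (Real.pi * y) ≠ 0) :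
    HasDerivAt cc (-(Real.pi ^ 2 + cc y ^ 2)) y := by
  unfold cc
  have h1 : HasDerivAt (fun y : ℂ => (Real.pi : ℂ) * y) Real.pi y := by
    simpa using (hasDerivAt_id y).const_mul (Real.pi : ℂ)
  have h2 := ((h1.ccos).div (h1.csin) h).const_mul (Real.pi : ℂ)
  refine h2.congr_deriv ?_
  have h3 := Complex.sin_sq_add_cos_sq ((Real.pi : ℂ) * y)
  field_simp
  ring

theorem g_deriv {y : ℂ} (h : Complex.sin (Real.pi * y) ≠ 0) :
    HasDerivAt (fun y => cc y / pI) (pI * (1 / 4 - (cc y / pI) ^ 2)) y := by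
  refine ((cc_deriv h).div_const pI).congr_deriv ?_
  have hp : pI ≠ 0 := pI_ne
  have hsq : pI ^ 2 = -4 * Real.pi ^ 2 := by
    unfold pI
    rw [mul_pow, mul_pow, Complex.I_sq]
    ring
  field_simp
  linear_combination (-1 : ℂ) * hsq

theorem iter_cc (k : ℕ) : ∃ P : Polynomial ℚ, ∀ y : ℂ, Complex.sin (Real.pi * y) ≠ 0 →
    iteratedDeriv k cc y = pI ^ (k + 1) * Polynomial.aeval (cc y / pI) P := by
  induction k with
  | zero =>
    refine ⟨Polynomial.X, fun y _ => ?_⟩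
    rw [iteratedDeriv_zero, Polynomial.aeval_X, zero_add, pow_one]
    have hp : pI ≠ 0 := pI_ne
    field_simp
  | succ k ih =>
    obtain ⟨P, hP⟩ := ih
    refine ⟨Polynomial.derivative P * (Polynomial.C (1 / 4) - Polynomial.X ^ 2), fun y hy => ?_⟩
    rw [iteratedDeriv_succ]
    have h1 : iteratedDeriv k cc =ᶠ[𝓝 y] fun y => pI ^ (k + 1) * Polynomial.aeval (cc y / pI) P := by
      filter_upwards [sin_ev y hy] with w hw
      exact hP w hw
    rw [h1.deriv_eq]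
    have h2 : HasDerivAt (fun y => pI ^ (k + 1) * Polynomial.aeval (cc y / pI) P)
        (pI ^ (k + 1) * (Polynomial.aeval (cc y / pI) (Polynomial.derivative P) *
          (pI * (1 / 4 - (cc y / pI) ^ 2)))) y :=
      ((Polynomial.hasDerivAt_aeval P (cc y / pI)).comp y (g_deriv hy)).const_mul _
    rw [h2.deriv, map_mul, map_sub, map_pow, Polynomial.aeval_X, Polynomial.aeval_C]
    have h3 : (algebraMap ℚ ℂ) (1 / 4) = 1 / 4 := by simp
    rw [h3]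
    ring

theorem jt_poly (hκ : κ ≠ 0) {p₀ : (ι → ℂ) × ℂ} {g : (ι → ℂ) × ℂ → ℂ} (hg : Jt E κ p₀ 0 0 g)
    (P : Polynomial ℚ) : Jt E κ p₀ 0 0 fun p => Polynomial.aeval (g p) P := by
  obtain ⟨c0, _, cadd, csm, cmul, cinv, _, _, ccong⟩ := jta ι E κ p₀ hκ
  induction P using Polynomial.induction_on with
  | C a =>
    have h := c0 (a : ℂ) (rmem E a)
    simpa [Polynomial.aeval_C] using h
  | add p q hp hq =>
    have h := cadd 0 0 _ _ hp hq
    simpa [map_add] using h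
  | monomial n a h =>
    have h' := cmul 0 0 _ _ h hg
    rw [add_zero] at h'
    refine ccong 0 0 _ _ (Eventually.of_forall fun p => ?_) h'
    show Polynomial.aeval (g p) (Polynomial.C a * Polynomial.X ^ n) * g p =
      Polynomial.aeval (g p) (Polynomial.C a * Polynomial.X ^ (n + 1))
    rw [pow_succ, ← mul_assoc, map_mul (Polynomial.aeval (g p))
      (Polynomial.C a * Polynomial.X ^ n) Polynomial.X, Polynomial.aeval_X]

theorem part_c (hκ : κ ≠ 0) (x : ℂ) (ℓ : ι → ℚ) (hx : Complex.exp (pI * x) ∈ E)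
    (hs : Complex.sin (Real.pi * x) ≠ 0) (k : ℕ) :
    JJ E κ ((k : ℤ) + 1) 0 fun v : ι → ℂ => iteratedDeriv k cc (x + lin ℓ v) := by
  obtain ⟨P, hP⟩ := iter_cc k
  obtain ⟨_, _, _, _, _, _, cpI, _, ccong⟩ := jta ι E κ ((0 : ι → ℂ), (0 : ℂ)) hκ
  have h1 := jt_poly hκ (jt_g hκ x ℓ hx hs) P
  have h2 := cpI 0 ((k : ℤ) + 1) 0 _ h1
  rw [add_zero] at h2
  refine ccong _ 0 _ _ ?_ h2
  filter_upwards [(tend x ℓ).eventually (sin_ev x hs)] with p hp
  rw [hP _ hp]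
  have e1 : pI ^ (-1 : ℤ) * cc (x + lin ℓ p.1) = cc (x + lin ℓ p.1) / pI := by
    rw [zpow_neg_one]
    ring
  rw [e1]
  norm_cast

/-- derivatives along lines -/
theorem line_deriv {F : ℂ → ℂ} {F' x : ℂ} (ℓ : ι → ℚ) (z : ℂ) (t : (ι → ℝ) × ℝ)
    (h : HasDerivAt F F' (x + z * LL ℓ t)) :
    HasDerivAt (fun s : ℂ => F (x + s * LL ℓ t)) (F' * LL ℓ t) z := by
  have h1 : HasDerivAt (fun s : ℂ => x + s * LL ℓ t) (LL ℓ t) z := by
    have h0 := ((hasDerivAt_id z).mul_const (LL ℓ t)).const_add x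
    simpa using h0
  exact h.comp z h1

theorem an_comp {F : ℂ → ℂ} {x : ℂ} (ℓ : ι → ℚ) (hF : AnalyticAt ℂ F x) :
    AnalyticAt ℂ (fun p : (ι → ℂ) × ℂ => F (x + lin ℓ p.1)) ((0 : ι → ℂ), (0 : ℂ)) := by
  have h : AnalyticAt ℂ (fun p : (ι → ℂ) × ℂ => x + lin ℓ p.1) ((0 : ι → ℂ), (0 : ℂ)) :=
    analyticAt_const.add (an_lin ℓ _)
  refine AnalyticAt.fun_comp (f := fun p : (ι → ℂ) × ℂ => x + lin ℓ p.1) ?_ h
  show AnalyticAt ℂ F (x + lin ℓ (0 : ι → ℂ))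
  rw [lin_zero, add_zero]
  exact hF

theorem tendL (x : ℂ) (ℓ : ι → ℚ) (t : (ι → ℝ) × ℝ) :
    Tendsto (fun z : ℂ => x + z * LL ℓ t) (𝓝 0) (𝓝 x) := by
  have h : ContinuousAt (fun z : ℂ => x + z * LL ℓ t) 0 := by fun_prop
  have h2 := h.tendsto
  simpa using h2

theorem first (hκ : κ ≠ 0) (x : ℂ) (ℓ : ι → ℚ) (hx : Complex.exp (pI * x) ∈ E)
    (hs : Complex.sin (Real.pi * x) ≠ 0) {F : ℂ → ℂ}
    (hF : ∀ᶠ y in 𝓝 x, HasDerivAt F (cc y) y) :
    JJ E κ 0 1 fun v : ι → ℂ => F (x + lin ℓ v) := by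
  obtain ⟨c0, _, _, csm, _, _, _, _, _⟩ := jta ι E κ ((0 : ι → ℂ), (0 : ℂ)) hκ
  have hg := jt_g hκ x ℓ hx hs
  have hF2 : AnalyticAt ℂ F x := by
    rw [Complex.analyticAt_iff_eventually_differentiableAt]
    exact hF.mono fun y hy => hy.differentiableAt
  refine (Pool.Agent.Y769.TA.jtd ι E κ ((0 : ι → ℂ), (0 : ℂ)) hκ).1 0 _
    (fun a p => (ℓ a : ℂ) * (pI ^ (-1 : ℤ) * cc (x + lin ℓ p.1))) (fun _ => 0)
    (an_comp ℓ hF2) (fun a => csm 0 0 _ _ (rmem E (ℓ a)) hg) (c0 0 E.zero_mem) ?_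
  intro t
  filter_upwards [(tendL x ℓ t).eventually hF] with z hz
  have h1 := line_deriv ℓ z t hz
  have e1 : (fun s : ℂ => F (x + lin ℓ (((0 : ι → ℂ), (0 : ℂ)) + s • cst t).1)) =
      fun s : ℂ => F (x + s * LL ℓ t) := by
    funext s
    rw [lin_line]
  show deriv (fun s : ℂ => F (x + lin ℓ (((0 : ι → ℂ), (0 : ℂ)) + s • cst t).1)) z = _
  rw [e1, h1.deriv, lin_line, mul_zero, add_zero]
  unfold LL
  rw [Finset.mul_sum]
  refine Finset.sum_congr rfl fun a _ => ?_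
  have hp : pI ≠ 0 := pI_ne
  rw [zpow_neg_one]
  field_simp

theorem SS_open : IsOpen SS := by
  unfold SS
  exact (isOpen_lt continuous_const Complex.continuous_re).inter
    (isOpen_lt Complex.continuous_re continuous_const)

theorem second (hκ : κ ≠ 0) (x : ℂ) (ℓ : ι → ℚ) (hx : Complex.exp (pI * x) ∈ E)
    (hs : Complex.sin (Real.pi * x) ≠ 0) {bb LC : ℂ → ℂ}
    (hLC : ∀ x ∈ SS, HasDerivAt LC (bb x) x) (hbb : ∀ x ∈ SS, HasDerivAt bb (cc x) x)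
    (hxS : x ∈ SS) :
    JJ E κ (-1) 2 fun v : ι → ℂ => LC (x + lin ℓ v) := by
  obtain ⟨c0, _, _, csm, _, _, cpI, _, ccong⟩ := jta ι E κ ((0 : ι → ℂ), (0 : ℂ)) hκ
  have hg := jt_g hκ x ℓ hx hs
  have hS : ∀ᶠ y in 𝓝 x, y ∈ SS := SS_open.mem_nhds hxS
  have hF2 : AnalyticAt ℂ LC x := by
    rw [Complex.analyticAt_iff_eventually_differentiableAt]
    exact hS.mono fun y hy => (hLC y hy).differentiableAt
  have hz : Jt E κ ((0 : ι → ℂ), (0 : ℂ)) (-1) 0 fun _ => (0 : ℂ) := by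
    have h := cpI 0 (-1) 0 _ (c0 0 E.zero_mem)
    rw [add_zero] at h
    exact ccong _ 0 _ _ (Eventually.of_forall fun p => mul_zero _) h
  have hg2 := cpI 0 (-1) 0 _ hg
  rw [add_zero] at hg2
  refine (Pool.Agent.Y769.TA.jtd ι E κ ((0 : ι → ℂ), (0 : ℂ)) hκ).2 (-1) _
    (fun a b p => (ℓ a * ℓ b : ℂ) * (pI ^ (-1 : ℤ) * (pI ^ (-1 : ℤ) * cc (x + lin ℓ p.1))))
    (fun _ _ => 0) (fun _ => 0)
    (an_comp ℓ hF2) (fun a b => csm (-1) 0 _ _ (E.mul_mem (rmem E (ℓ a))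
      (rmem E (ℓ b))) hg2) (fun _ => hz) hz ?_
  intro t
  have hS' := (tendL x ℓ t).eventually hS
  filter_upwards [eventually_eventually_nhds.2 hS', hS'] with z hz1 hz2
  have e1 : (fun s : ℂ => LC (x + lin ℓ (((0 : ι → ℂ), (0 : ℂ)) + s • cst t).1)) =
      fun s : ℂ => LC (x + s * LL ℓ t) := by
    funext s
    rw [lin_line]
  show deriv (deriv fun s : ℂ => LC (x + lin ℓ (((0 : ι → ℂ), (0 : ℂ)) + s • cst t).1)) z = _
  rw [e1]
  have e2 : deriv (fun s : ℂ => LC (x + s * LL ℓ t)) =ᶠ[𝓝 z]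
      fun s => bb (x + s * LL ℓ t) * LL ℓ t := by
    filter_upwards [hz1] with w hw
    exact (line_deriv ℓ w t (hLC _ hw)).deriv
  rw [e2.deriv_eq, ((line_deriv ℓ z t (hbb _ hz2)).mul_const (LL ℓ t)).deriv, lin_line]
  simp only [mul_zero, Finset.sum_const_zero, add_zero]
  have e3 : ∑ a, ∑ b, (pI * t.1 a) * (pI * t.1 b) *
      ((ℓ a * ℓ b : ℂ) * (pI ^ (-1 : ℤ) * (pI ^ (-1 : ℤ) * cc (x + z * LL ℓ t)))) =
      cc (x + z * LL ℓ t) * LL ℓ t * LL ℓ t := by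
    generalize cc (x + z * LL ℓ t) = C
    unfold LL
    rw [mul_assoc, Finset.sum_mul_sum, Finset.mul_sum]
    refine Finset.sum_congr rfl fun a _ => ?_
    rw [Finset.mul_sum]
    refine Finset.sum_congr rfl fun b _ => ?_
    have hp : pI ≠ 0 := pI_ne
    rw [zpow_neg_one]
    field_simp
  exact e3.symm

theorem tT2 : Pool.Agent.H760.AR.S_T2 := by
  intro bb LC hLC hbb ι _ E κ hκ x ℓ hx hs
  refine ⟨fun k => part_c hκ x ℓ hx hs k, ?_, fun hxS => ⟨?_, ?_⟩⟩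
  · refine first hκ x ℓ hx hs (F := fun y => Complex.log (Complex.sin (Real.pi * y) /
      Complex.sin (Real.pi * x))) ?_
    have h1 : ∀ᶠ y in 𝓝 x, Complex.sin (Real.pi * y) / Complex.sin (Real.pi * x) ∈
        Complex.slitPlane := by
      have hc : ContinuousAt (fun y : ℂ => Complex.sin (Real.pi * y) /
        Complex.sin (Real.pi * x)) x := by fun_prop
      refine hc.eventually (Complex.isOpen_slitPlane.mem_nhds ?_)
      show Complex.sin (Real.pi * x) / Complex.sin (Real.pi * x) ∈ Complex.slitPlane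
      rw [div_self hs]
      exact Complex.one_mem_slitPlane
    filter_upwards [h1, sin_ev x hs] with y hy hy2
    have h2 : HasDerivAt (fun y : ℂ => (Real.pi : ℂ) * y) Real.pi y := by
      simpa using (hasDerivAt_id y).const_mul (Real.pi : ℂ)
    have h3 := ((h2.csin).div_const (Complex.sin (Real.pi * x))).clog hy
    refine h3.congr_deriv ?_
    unfold cc
    field_simp
  · exact first hκ x ℓ hx hs (SS_open.eventually_mem hxS |>.mono fun y hy => hbb y hy)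
  · exact second hκ x ℓ hx hs hLC hbb hxS

end Pool.Agent.H276.AR
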