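import Pool.Agent.H760.AR.G

/-!
# Quadratic polynomials are in the class `Jt` (T2b)
-/

set_option autoImplicit false

namespace Pool.Agent.H379.AR

open Finset Filter Topology
open Pool.Agent.Y472.L (pI Jt HP TP mn tc)
open Pool.Agent.H760.AR

theorem pI_ne : pI ≠ 0 := by
  unfold Pool.Agent.Y472.L.pI
  simp [Real.pi_ne_zero, Complex.I_ne_zero]

theorem lin_line {ι : Type} [Fintype ι] (ℓ : ι → ℚ) (t : (ι → ℝ) × ℝ) (s : ℂ) :
    lin ℓ (((0 : ι → ℂ), (0 : ℂ)) + s • Pool.Agent.Y472.K.cst t).1 = s * ∑ i, (ℓ i : ℂ) * (t.1 i : ℂ) := by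
  unfold lin
  rw [Finset.mul_sum]
  refine Finset.sum_congr rfl fun i _ => ?_
  simp [Pool.Agent.Y472.K.cst]
  ring

theorem tT2b : S_T2b := by
  intro ι _ E κ hκ a b x c ℓ
  have hA := Pool.Agent.Y904.TA.jta ι E κ ((0 : ι → ℂ), (0 : ℂ)) hκ
  obtain ⟨hconst, -, -, -, -, -, hpI, -, -⟩ := hA
  have hc1 : ∀ e ∈ E, Jt E κ ((0 : ι → ℂ), (0 : ℂ)) (-1) 0 fun _ => pI ^ (-1 : ℤ) * e := by
    intro e he
    have := hpI 0 (-1) 0 (fun _ => e) (hconst e he)
    simpa using this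
  have hrat : ∀ q : ℚ, (q : ℂ) ∈ E := fun q => SubfieldClass.ratCast_mem E q
  have hD := (Pool.Agent.Y769.TA.jtd ι E κ ((0 : ι → ℂ), (0 : ℂ)) hκ).2 (-1)
    (fun p => a + b * lin ℓ p.1 + (c : ℂ) * pI * (x + lin ℓ p.1) ^ 2)
    (fun i j _ => pI ^ (-1 : ℤ) * (((2 * c * ℓ i * ℓ j : ℚ)) : ℂ))
    (fun _ _ => pI ^ (-1 : ℤ) * 0) (fun _ => pI ^ (-1 : ℤ) * 0)
  apply hD
  · have hl : AnalyticAt ℂ (fun p : (ι → ℂ) × ℂ => lin ℓ p.1) ((0 : ι → ℂ), (0 : ℂ)) := by
      let T : ((ι → ℂ) × ℂ) →L[ℂ] ℂ := ∑ i, (ℓ i : ℂ) •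
        ((ContinuousLinearMap.proj i : (ι → ℂ) →L[ℂ] ℂ).comp (ContinuousLinearMap.fst ℂ (ι → ℂ) ℂ))
      have hT : (fun p : (ι → ℂ) × ℂ => lin ℓ p.1) = fun p => T p := by
        funext p
        simp [T, lin]
      rw [hT]
      exact T.analyticAt _
    exact ((analyticAt_const.add (analyticAt_const.mul hl)).add
      (analyticAt_const.mul ((analyticAt_const.add hl).pow 2)))
  · intro i j
    exact hc1 _ (hrat _)
  · intro i
    exact hc1 0 E.zero_mem
  · exact hc1 0 E.zero_mem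
  · intro t
    refine Filter.Eventually.of_forall fun z => ?_
    set L : ℂ := ∑ i, (ℓ i : ℂ) * (t.1 i : ℂ) with hL
    have hfun : (fun s : ℂ => a + b * lin ℓ (((0 : ι → ℂ), (0 : ℂ)) + s • Pool.Agent.Y472.K.cst t).1
        + (c : ℂ) * pI * (x + lin ℓ (((0 : ι → ℂ), (0 : ℂ)) + s • Pool.Agent.Y472.K.cst t).1) ^ 2)
        = fun s : ℂ => a + b * (s * L) + (c : ℂ) * pI * (x + s * L) ^ 2 := by
      funext s
      rw [lin_line]
    have hd1 : deriv (fun s : ℂ => a + b * (s * L) + (c : ℂ) * pI * (x + s * L) ^ 2)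
        = fun s : ℂ => b * L + (c : ℂ) * pI * (2 * (x + s * L) * L) := by
      funext s
      apply HasDerivAt.deriv
      have h1 : HasDerivAt (fun s : ℂ => s * L) L s := by
        simpa using (hasDerivAt_id s).mul_const L
      have h2 := ((h1.const_mul b).const_add a).add
        (((h1.const_add x).pow 2).const_mul ((c : ℂ) * pI))
      refine h2.congr_deriv ?_
      simp
    have hd2 : deriv (fun s : ℂ => b * L + (c : ℂ) * pI * (2 * (x + s * L) * L)) z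
        = 2 * (c : ℂ) * pI * L ^ 2 := by
      apply HasDerivAt.deriv
      have h1 : HasDerivAt (fun s : ℂ => s * L) L z := by
        simpa using (hasDerivAt_id z).mul_const L
      have h2 := ((((h1.const_add x).const_mul 2).mul_const L).const_mul ((c : ℂ) * pI)).const_add
        (b * L)
      refine h2.congr_deriv ?_
      ring
    change deriv (deriv (fun s : ℂ => a + b * lin ℓ (((0 : ι → ℂ), (0 : ℂ)) +
      s • Pool.Agent.Y472.K.cst t).1 + (c : ℂ) * pI * (x + lin ℓ (((0 : ι → ℂ), (0 : ℂ)) +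
      s • Pool.Agent.Y472.K.cst t).1) ^ 2)) z = _
    rw [hfun, hd1, hd2]
    have hL2 : L ^ 2 = ∑ i, ∑ j, ((ℓ i : ℂ) * (t.1 i : ℂ)) * ((ℓ j : ℂ) * (t.1 j : ℂ)) := by
      rw [sq, hL, Finset.sum_mul_sum]
    rw [hL2]
    simp only [mul_zero, Finset.sum_const_zero, add_zero]
    rw [Finset.mul_sum]
    refine Finset.sum_congr rfl fun i _ => ?_
    rw [Finset.mul_sum]
    refine Finset.sum_congr rfl fun j _ => ?_
    rw [zpow_neg_one]
    push_cast
    have := pI_ne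
    field_simp

end Pool.Agent.H379.AR
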