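import Pool.Agent.H760.AR.G
import Pool.Graph.R_seed8.Y814.TA.Gsq

/-!
# AR, task T3: the coefficients of Laplace's method are in the field (helper903)
-/

set_option autoImplicit false

namespace Pool.Agent.H903.AR

open Finset Filter Topology MeasureTheory
open Pool.Agent.Y472.L (pI Jt HP TP mn tc S_JTA S_WJ S_QMX S_GM)
open Pool.Agent.Y472.K (cst AX bx FX)
open Pool.Agent.H760.AR
open scoped Real Nat

/-! ### Elementary limits -/

/-- exponentials beat powers -/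
lemma exp_small {c : ℝ} (hc : 0 < c) (m : ℕ) :
    ∀ᶠ N : ℕ in atTop, (N : ℝ) ^ m * Real.exp (-(c * N)) ≤ 1 := by
  have h1 := Real.tendsto_pow_mul_exp_neg_atTop_nhds_zero m
  have h2 : Tendsto (fun N : ℕ => c * (N : ℝ)) atTop atTop :=
    tendsto_natCast_atTop_atTop.const_mul_atTop hc
  have h3 := h1.comp h2
  have h4 := h3.eventually (gt_mem_nhds (pow_pos hc m))
  filter_upwards [h4] with N hN
  have h5 : (c * (N : ℝ)) ^ m * Real.exp (-(c * N)) < c ^ m := hN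
  rw [mul_pow, mul_assoc] at h5
  have h6 : 0 < c ^ m := pow_pos hc m
  by_contra h7
  push Not at h7
  nlinarith

/-- coefficients of a small sum vanish -/
lemma zero_of_small (J : ℕ) : ∀ (a : ℕ → ℂ) (C : ℝ),
    (∀ᶠ N : ℕ in atTop, ‖∑ j ∈ range J, a j / (N : ℂ) ^ j‖ ≤ C / (N : ℝ) ^ J) →
    ∀ j < J, a j = 0 := by
  induction J with
  | zero =>
    intro a C _ j hj
    omega
  | succ J ih =>
    intro a C h
    have hinv : Tendsto (fun N : ℕ => ((N : ℂ))⁻¹) atTop (𝓝 0) := by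
      have h1 : Tendsto (fun N : ℕ => ((N : ℝ))⁻¹) atTop (𝓝 0) :=
        tendsto_inv_atTop_zero.comp tendsto_natCast_atTop_atTop
      rw [tendsto_zero_iff_norm_tendsto_zero]
      refine h1.congr fun N => ?_
      rw [norm_inv, Complex.norm_natCast]
    have hpow : ∀ j, Tendsto (fun N : ℕ => a j / (N : ℂ) ^ j) atTop (𝓝 (if j = 0 then a 0 else 0)) := by
      intro j
      by_cases hj : j = 0
      · subst hj
        simp
      · rw [if_neg hj]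
        have h2 := (hinv.pow j).const_mul (a j)
        rw [zero_pow hj, mul_zero] at h2
        refine h2.congr fun N => ?_
        rw [inv_pow, div_eq_mul_inv]
    have hs : Tendsto (fun N : ℕ => ∑ j ∈ range (J + 1), a j / (N : ℂ) ^ j) atTop (𝓝 (a 0)) := by
      have h3 := tendsto_finsetSum (range (J + 1)) fun j _ => hpow j
      have h4 : ∑ c ∈ range (J + 1), (if c = 0 then a 0 else 0) = a 0 := by
        rw [sum_ite_eq', if_pos (mem_range.2 (Nat.succ_pos J))]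
      rw [h4] at h3
      exact h3
    have ha0 : a 0 = 0 := by
      have h4 : Tendsto (fun N : ℕ => ∑ j ∈ range (J + 1), a j / (N : ℂ) ^ j) atTop (𝓝 0) := by
        have h5 : Tendsto (fun N : ℕ => C / (N : ℝ) ^ (J + 1)) atTop (𝓝 0) := by
          refine Tendsto.div_atTop tendsto_const_nhds ?_
          exact (tendsto_pow_atTop (by omega)).comp tendsto_natCast_atTop_atTop
        exact squeeze_zero_norm' h h5
      exact tendsto_nhds_unique hs h4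
    have h5 : ∀ j < J, a (j + 1) = 0 := by
      refine ih (fun j => a (j + 1)) C ?_
      filter_upwards [h, eventually_gt_atTop 0] with N hN hN0
      have hNr : (0 : ℝ) < N := by exact_mod_cast hN0
      have hNc : (N : ℂ) ≠ 0 := by exact_mod_cast hNr.ne'
      have h6 : ∑ j ∈ range (J + 1), a j / (N : ℂ) ^ j =
          (N : ℂ)⁻¹ * ∑ j ∈ range J, a (j + 1) / (N : ℂ) ^ j := by
        rw [sum_range_succ', ha0, zero_div, add_zero, mul_sum]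
        refine sum_congr rfl fun j _ => ?_
        rw [pow_succ]
        field_simp
      rw [h6, norm_mul, norm_inv, Complex.norm_natCast, pow_succ] at hN
      have h7 : ‖∑ j ∈ range J, a (j + 1) / (N : ℂ) ^ j‖ =
          N * ((N : ℝ)⁻¹ * ‖∑ j ∈ range J, a (j + 1) / (N : ℂ) ^ j‖) := by
        field_simp
      rw [h7]
      calc (N : ℝ) * ((N : ℝ)⁻¹ * ‖∑ j ∈ range J, a (j + 1) / (N : ℂ) ^ j‖)
          ≤ N * (C / ((N : ℝ) ^ J * N)) := mul_le_mul_of_nonneg_left hN hNr.le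
        _ = C / (N : ℝ) ^ J := by field_simp
    intro j hj
    rcases Nat.eq_zero_or_pos j with h0 | h0
    · rw [h0, ha0]
    · obtain ⟨i, rfl⟩ : ∃ i, j = i + 1 := ⟨j - 1, by omega⟩
      exact h5 i (by omega)

/-- the integral over the dummy variable -/
lemma gauss_tail {ρ : ℝ} (hρ : 0 < ρ) (J : ℕ) : ∃ C : ℝ, 0 ≤ C ∧ ∀ᶠ N : ℕ in atTop,
    |√(N : ℝ) * (∫ y in {y : ℝ | |y| ≤ ρ}, Real.exp (-(N * y ^ 2))) - √π| ≤ C / (N : ℝ) ^ J := by
  refine ⟨Real.exp (ρ ^ 2) * √π, by positivity, ?_⟩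
  filter_upwards [exp_small (pow_pos hρ 2) (J + 1), eventually_gt_atTop 0] with N h1 hN
  have hN1 : (1 : ℝ) ≤ N := by exact_mod_cast hN
  have hNr : (0 : ℝ) < N := by linarith
  have hs : 0 < √(N : ℝ) := Real.sqrt_pos.2 hNr
  have hi : Integrable (fun y : ℝ => Real.exp (-(N * y ^ 2))) := by
    have := integrable_exp_neg_mul_sq (b := (N : ℝ)) hNr
    refine this.congr (Eventually.of_forall fun y => ?_)
    simp only [neg_mul]
  have hi1 : Integrable (fun y : ℝ => Real.exp (-(y ^ 2))) := by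
    have := integrable_exp_neg_mul_sq (b := (1 : ℝ)) one_pos
    refine this.congr (Eventually.of_forall fun y => ?_)
    simp only [neg_mul, one_mul]
  have ht : ∫ y : ℝ, Real.exp (-(N * y ^ 2)) = √(π / N) := by
    rw [← integral_gaussian (N : ℝ)]
    simp only [neg_mul]
  have ht1 : ∫ y : ℝ, Real.exp (-(y ^ 2)) = √π := by
    have := integral_gaussian (1 : ℝ)
    simp only [neg_mul, one_mul, div_one] at this
    exact this
  have hm : MeasurableSet {y : ℝ | |y| ≤ ρ} := by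
    apply IsClosed.measurableSet
    exact isClosed_le continuous_abs continuous_const
  have h2 := integral_add_compl hm hi
  have h3 : √(N : ℝ) * √(π / N) = √π := by
    rw [← Real.sqrt_mul hNr.le]
    congr 1
    field_simp
  have h4 : √(N : ℝ) * (∫ y in {y : ℝ | |y| ≤ ρ}, Real.exp (-(N * y ^ 2))) - √π =
      -(√(N : ℝ) * ∫ y in {y : ℝ | |y| ≤ ρ}ᶜ, Real.exp (-(N * y ^ 2))) := by
    rw [← h3, ← ht, ← h2]
    ring
  have h5 : 0 ≤ ∫ y in {y : ℝ | |y| ≤ ρ}ᶜ, Real.exp (-(N * y ^ 2)) :=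
    integral_nonneg fun y => (Real.exp_pos _).le
  rw [h4, abs_neg, abs_of_nonneg (by positivity)]
  have h6 : ∫ y in {y : ℝ | |y| ≤ ρ}ᶜ, Real.exp (-(N * y ^ 2)) ≤
      (Real.exp (ρ ^ 2) * Real.exp (-(ρ ^ 2 * N))) * √π := by
    rw [← ht1, ← integral_const_mul]
    refine (setIntegral_mono_on hi.integrableOn (hi1.const_mul _).integrableOn hm.compl ?_).trans
      (setIntegral_le_integral (hi1.const_mul _) (Eventually.of_forall fun y => by positivity))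
    intro y hy
    have h7 : ρ < |y| := not_le.1 hy
    have h8 : ρ ^ 2 ≤ y ^ 2 := by
      rw [← sq_abs y]
      exact pow_le_pow_left₀ hρ.le h7.le 2
    rw [← Real.exp_add, ← Real.exp_add]
    apply Real.exp_le_exp.2
    nlinarith
  have h7 : √(N : ℝ) ≤ N := by
    rw [Real.sqrt_le_left hNr.le]
    nlinarith
  rw [le_div_iff₀ (by positivity)]
  calc √(N : ℝ) * (∫ y in {y : ℝ | |y| ≤ ρ}ᶜ, Real.exp (-(N * y ^ 2))) * (N : ℝ) ^ J
      ≤ N * ((Real.exp (ρ ^ 2) * Real.exp (-(ρ ^ 2 * N))) * √π) * (N : ℝ) ^ J := by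
        gcongr
    _ = ((N : ℝ) ^ (J + 1) * Real.exp (-(ρ ^ 2 * N))) * (Real.exp (ρ ^ 2) * √π) := by
        rw [pow_succ]
        ring
    _ ≤ 1 * (Real.exp (ρ ^ 2) * √π) := mul_le_mul_of_nonneg_right h1 (by positivity)
    _ = _ := one_mul _

section box

variable {ι : Type} [Fintype ι]

/-- the box -/
def Bx (ι : Type) (ρ : ℝ) : Set (ι → ℝ) := {x | ∀ i, |x i| ≤ ρ}

omit [Fintype ι] in
lemma Bx_compact (ρ : ℝ) : IsCompact (Bx ι ρ) := by
  have h : Bx ι ρ = Set.pi Set.univ fun _ => Set.Icc (-ρ) ρ := by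
    ext x
    simp only [Bx, Set.mem_ofPred_eq, Set.mem_pi, Set.mem_univ, true_implies, Set.mem_Icc, abs_le]
  rw [h]
  exact isCompact_univ_pi fun _ => isCompact_Icc

omit [Fintype ι] in
lemma Bx_closed (ρ : ℝ) : IsClosed (Bx ι ρ) := (Bx_compact ρ).isClosed

lemma Bx_meas (ρ : ℝ) : MeasurableSet (Bx ι ρ) := (Bx_closed ρ).measurableSet

/-- real points -/
def rc (x : ι → ℝ) : ι → ℂ := fun i => (x i : ℂ)

omit [Fintype ι] in
lemma rc_cont : Continuous (rc : (ι → ℝ) → ι → ℂ) := by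
  unfold rc
  fun_prop

lemma rc_mem {ρ R : ℝ} (hR : 0 < R) (h : ρ < R) {x : ι → ℝ} (hx : x ∈ Bx ι ρ) :
    rc x ∈ Metric.ball (0 : ι → ℂ) R := by
  rw [mem_ball_zero_iff, pi_norm_lt_iff hR]
  intro i
  unfold rc
  rw [Complex.norm_real, Real.norm_eq_abs]
  exact (hx i).trans_lt h

/-- the Gaussian integral -/
lemma gauss_total {κ : ℝ} (hκ : 0 < κ) {N : ℕ} (hN : 0 < N) :
    Integrable (fun x : ι → ℝ => Real.exp (-(κ * N * ∑ i, x i ^ 2))) ∧
    √(N : ℝ) ^ Fintype.card ι * ∫ x : ι → ℝ, Real.exp (-(κ * N * ∑ i, x i ^ 2)) =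
      √(π / κ) ^ Fintype.card ι := by
  have hNr : (0 : ℝ) < N := by exact_mod_cast hN
  have h1 : ∀ x : ι → ℝ, Real.exp (-(κ * N * ∑ i, x i ^ 2)) =
      ∏ i, Real.exp (-(κ * N) * x i ^ 2) := by
    intro x
    rw [← Real.exp_sum, mul_sum, ← sum_neg_distrib]
    congr 1
    exact sum_congr rfl fun i _ => by ring
  have hg : Integrable (fun y : ℝ => Real.exp (-(κ * N) * y ^ 2)) :=
    integrable_exp_neg_mul_sq (by positivity)
  constructor
  · simp only [h1]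
    exact Integrable.fintype_prod (f := fun _ : ι => fun y : ℝ => Real.exp (-(κ * N) * y ^ 2))
      fun _ => hg
  · simp only [h1]
    rw [integral_fintype_prod_volume_eq_pow (fun y : ℝ => Real.exp (-(κ * N) * y ^ 2)),
      integral_gaussian, ← mul_pow, ← Real.sqrt_mul hNr.le]
    congr 2
    field_simp

/-- the integral over the box -/
noncomputable def II (q : (ι → ℂ) → ℂ) (F : ℕ → (ι → ℂ) → ℂ) (ρ : ℝ) (N : ℕ) : ℂ :=
  ((√(N : ℝ) : ℝ) : ℂ) ^ Fintype.card ι *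
    ∫ x in Bx ι ρ, Complex.exp (N * q (rc x)) * F N (rc x)

variable {q : (ι → ℂ) → ℂ} {R κ : ℝ}

lemma exp_bd (hre : ∀ x : ι → ℝ, (∀ i, |x i| < R) → (q fun i => x i).re ≤ -κ * ∑ i, x i ^ 2)
    {x : ι → ℝ} {ρ : ℝ} (hρ : ρ < R) (hx : x ∈ Bx ι ρ) (N : ℕ) :
    ‖Complex.exp (N * q (rc x))‖ ≤ Real.exp (-(κ * N * ∑ i, x i ^ 2)) := by
  rw [Complex.norm_exp]
  apply Real.exp_le_exp.2
  have h1 := hre x fun i => (hx i).trans_lt hρ
  have h2 : ((N : ℂ) * q (rc x)).re = N * (q (rc x)).re := by simp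
  rw [h2]
  have h3 : (q (rc x)).re ≤ -κ * ∑ i, x i ^ 2 := h1
  have h4 : (0 : ℝ) ≤ N := Nat.cast_nonneg _
  nlinarith

lemma intg (hR : 0 < R) (hq : AnalyticOnNhd ℂ q (Metric.ball 0 R)) {ρ : ℝ} (hρ : ρ < R)
    {F : (ι → ℂ) → ℂ} (hF : ContinuousOn F (Metric.ball 0 R)) (N : ℕ) :
    IntegrableOn (fun x : ι → ℝ => Complex.exp (N * q (rc x)) * F (rc x)) (Bx ι ρ) := by
  apply ContinuousOn.integrableOn_compact (Bx_compact ρ)
  have h1 : ContinuousOn (fun x : ι → ℝ => q (rc x)) (Bx ι ρ) :=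
    hq.continuousOn.comp rc_cont.continuousOn fun x hx => rc_mem hR hρ hx
  have h2 : ContinuousOn (fun x : ι → ℝ => F (rc x)) (Bx ι ρ) :=
    hF.comp rc_cont.continuousOn fun x hx => rc_mem hR hρ hx
  exact ((continuousOn_const.mul h1).cexp).mul h2

/-- the part of the box away from the critical point -/
lemma far (hR : 0 < R) (hκ : 0 < κ) (hq : AnalyticOnNhd ℂ q (Metric.ball 0 R))
    (hre : ∀ x : ι → ℝ, (∀ i, |x i| < R) → (q fun i => x i).re ≤ -κ * ∑ i, x i ^ 2)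
    {H : ℕ → (ι → ℂ) → ℂ} (hH : ∀ᶠ N : ℕ in atTop, ContinuousOn (H N) (Metric.ball 0 R))
    {B : ℝ} (hB : ∀ᶠ N : ℕ in atTop, ∀ v ∈ Metric.ball (0 : ι → ℂ) R, ‖H N v‖ ≤ B)
    {ρ η : ℝ} (hρ : 0 < ρ) (hρη : ρ ≤ η) (hη : η < R) (K : ℕ) : ∃ C : ℝ, 0 ≤ C ∧
      ∀ᶠ N : ℕ in atTop, ‖II q H η N - II q H ρ N‖ ≤ C / (N : ℝ) ^ K := by
  refine ⟨|B| * volume.real (Bx ι η), by positivity, ?_⟩
  filter_upwards [hH, hB, exp_small (mul_pos hκ (pow_pos hρ 2)) (K + Fintype.card ι),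
    eventually_gt_atTop 0] with N h1 h2 h3 hN
  have hN1 : (1 : ℝ) ≤ N := by exact_mod_cast hN
  have hNr : (0 : ℝ) < N := by linarith
  have hsub : Bx ι ρ ⊆ Bx ι η := fun x hx i => (hx i).trans hρη
  have h4 : II q H η N - II q H ρ N = ((√(N : ℝ) : ℝ) : ℂ) ^ Fintype.card ι *
      ∫ x in Bx ι η \ Bx ι ρ, Complex.exp (N * q (rc x)) * H N (rc x) := by
    unfold II
    rw [setIntegral_sdiff (Bx_meas ρ) (intg hR hq hη h1 N) hsub]
    ring
  have hfin : volume (Bx ι η \ Bx ι ρ) < ⊤ :=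
    (measure_mono Set.sdiff_subset).trans_lt (Bx_compact η).measure_lt_top
  have h5 : ‖∫ x in Bx ι η \ Bx ι ρ, Complex.exp (N * q (rc x)) * H N (rc x)‖ ≤
      (Real.exp (-(κ * ρ ^ 2 * N)) * |B|) * volume.real (Bx ι η \ Bx ι ρ) := by
    apply norm_setIntegral_le_of_norm_le_const hfin
    intro x hx
    rw [norm_mul]
    refine mul_le_mul ((exp_bd hre hη hx.1 N).trans (Real.exp_le_exp.2 ?_))
      ((h2 _ (rc_mem hR hη hx.1)).trans (le_abs_self B)) (norm_nonneg _) (Real.exp_pos _).le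
    have h6 : ∃ i, ρ < |x i| := by
      by_contra h7
      push Not at h7
      exact hx.2 h7
    obtain ⟨i, hi⟩ := h6
    have h7 : ρ ^ 2 ≤ ∑ j, x j ^ 2 := by
      have h8 : ρ ^ 2 ≤ x i ^ 2 := by
        rw [← sq_abs (x i)]
        exact pow_le_pow_left₀ hρ.le hi.le 2
      exact h8.trans (single_le_sum (f := fun j => x j ^ 2) (fun j _ => sq_nonneg _) (mem_univ i))
    have h8 : κ * N * ρ ^ 2 ≤ κ * N * ∑ j, x j ^ 2 :=
      mul_le_mul_of_nonneg_left h7 (by positivity)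
    linarith
  have h6 : volume.real (Bx ι η \ Bx ι ρ) ≤ volume.real (Bx ι η) :=
    measureReal_mono Set.sdiff_subset (Bx_compact η).measure_lt_top.ne
  have hsN : √(N : ℝ) ≤ N := by
    rw [Real.sqrt_le_left hNr.le]
    nlinarith
  rw [h4, norm_mul, norm_pow, Complex.norm_real, Real.norm_of_nonneg (Real.sqrt_nonneg _),
    le_div_iff₀ (by positivity)]
  calc √(N : ℝ) ^ Fintype.card ι *
        ‖∫ x in Bx ι η \ Bx ι ρ, Complex.exp (N * q (rc x)) * H N (rc x)‖ * (N : ℝ) ^ K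
      ≤ (N : ℝ) ^ Fintype.card ι *
        ((Real.exp (-(κ * ρ ^ 2 * N)) * |B|) * volume.real (Bx ι η)) * (N : ℝ) ^ K := by
        refine mul_le_mul_of_nonneg_right ?_ (by positivity)
        refine mul_le_mul (pow_le_pow_left₀ (Real.sqrt_nonneg _) hsN _)
          (h5.trans (mul_le_mul_of_nonneg_left h6 (by positivity))) (norm_nonneg _) (by positivity)
    _ = ((N : ℝ) ^ (K + Fintype.card ι) * Real.exp (-(κ * ρ ^ 2 * N))) *
        (|B| * volume.real (Bx ι η)) := by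
        rw [pow_add]
        ring
    _ ≤ 1 * (|B| * volume.real (Bx ι η)) := mul_le_mul_of_nonneg_right h3 (by positivity)
    _ = _ := one_mul _

/-- replacing `H` by the exponential of the finite sum -/
lemma rep (hR : 0 < R) (hκ : 0 < κ) (hq : AnalyticOnNhd ℂ q (Metric.ball 0 R))
    (hre : ∀ x : ι → ℝ, (∀ i, |x i| < R) → (q fun i => x i).re ≤ -κ * ∑ i, x i ^ 2)
    {H : ℕ → (ι → ℂ) → ℂ} (hH : ∀ᶠ N : ℕ in atTop, ContinuousOn (H N) (Metric.ball 0 R))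
    {B : ℝ} (hB : ∀ᶠ N : ℕ in atTop, ∀ v ∈ Metric.ball (0 : ι → ℂ) R, ‖H N v‖ ≤ B)
    {τ : ℕ → (ι → ℂ) → ℂ} {K : ℕ} (hK : 1 ≤ K) {r C : ℝ} (hr : 0 < r)
    (hτ : ∀ᶠ N : ℕ in atTop, ∀ v ∈ Metric.ball (0 : ι → ℂ) r,
      ∃ e : ℂ, ‖e‖ ≤ C / (N : ℝ) ^ K ∧
        H N v = Complex.exp (∑ l ∈ range K, τ l v / (N : ℂ) ^ l + e))
    {r' : ℝ} (hr' : 0 < r') (hτc : ∀ l < K, ContinuousOn (τ l) (Metric.ball 0 r'))
    {ρ : ℝ} (hρR : ρ < R) (hρr : ρ < r) (hρr' : ρ < r') : ∃ C' : ℝ, 0 ≤ C' ∧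
      ∀ᶠ N : ℕ in atTop, ‖II q H ρ N -
        II q (fun N v => Complex.exp (∑ l ∈ range K, τ l v / (N : ℂ) ^ l)) ρ N‖ ≤
        C' / (N : ℝ) ^ K := by
  refine ⟨|B| * (2 * |C|) * √(π / κ) ^ Fintype.card ι, by positivity, ?_⟩
  filter_upwards [hH, hB, hτ, eventually_ge_atTop ⌈|C|⌉₊, eventually_gt_atTop 0] with
    N h1 h2 h3 h4 hN
  have hN1 : (1 : ℝ) ≤ N := by exact_mod_cast hN
  have hNr : (0 : ℝ) < N := by linarith
  have hCN : |C| ≤ N := Nat.ceil_le.1 h4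
  have hCK : |C| / (N : ℝ) ^ K ≤ 1 := by
    rw [div_le_one (by positivity)]
    exact hCN.trans (le_self_pow₀ hN1 (by omega))
  have hi1 := intg hR hq hρR h1 N
  have hcont : ContinuousOn (fun x : ι → ℝ =>
      Complex.exp (∑ l ∈ range K, τ l (rc x) / (N : ℂ) ^ l)) (Bx ι ρ) := by
    apply ContinuousOn.cexp
    apply continuousOn_finsetSum
    intro l hl
    apply ContinuousOn.div_const
    exact (hτc l (mem_range.1 hl)).comp rc_cont.continuousOn fun x hx => rc_mem hr' hρr' hx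
  have hi2 : IntegrableOn (fun x : ι → ℝ => Complex.exp (N * q (rc x)) *
      Complex.exp (∑ l ∈ range K, τ l (rc x) / (N : ℂ) ^ l)) (Bx ι ρ) := by
    apply ContinuousOn.integrableOn_compact (Bx_compact ρ)
    have h5 : ContinuousOn (fun x : ι → ℝ => q (rc x)) (Bx ι ρ) :=
      hq.continuousOn.comp rc_cont.continuousOn fun x hx => rc_mem hR hρR hx
    exact ((continuousOn_const.mul h5).cexp).mul hcont
  obtain ⟨hg1, hg2⟩ := gauss_total (ι := ι) hκ hN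
  have h5 : II q H ρ N -
      II q (fun N v => Complex.exp (∑ l ∈ range K, τ l v / (N : ℂ) ^ l)) ρ N =
      ((√(N : ℝ) : ℝ) : ℂ) ^ Fintype.card ι * ∫ x in Bx ι ρ,
        (Complex.exp (N * q (rc x)) * H N (rc x) - Complex.exp (N * q (rc x)) *
          Complex.exp (∑ l ∈ range K, τ l (rc x) / (N : ℂ) ^ l)) := by
    unfold II
    rw [integral_sub hi1 hi2]
    ring
  have h6 : ∀ x ∈ Bx ι ρ, ‖Complex.exp (N * q (rc x)) * H N (rc x) - Complex.exp (N * q (rc x)) *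
      Complex.exp (∑ l ∈ range K, τ l (rc x) / (N : ℂ) ^ l)‖ ≤
      (|B| * (2 * (|C| / (N : ℝ) ^ K))) * Real.exp (-(κ * N * ∑ i, x i ^ 2)) := by
    intro x hx
    obtain ⟨e, he, hHe⟩ := h3 (rc x) (rc_mem hr hρr hx)
    have he1 : ‖e‖ ≤ |C| / (N : ℝ) ^ K := by
      refine he.trans ?_
      have := le_abs_self C
      gcongr
    have h7 : Complex.exp (∑ l ∈ range K, τ l (rc x) / (N : ℂ) ^ l) =
        H N (rc x) * Complex.exp (-e) := by
      rw [hHe, ← Complex.exp_add]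
      congr 1
      ring
    have h8 : Complex.exp (N * q (rc x)) * H N (rc x) - Complex.exp (N * q (rc x)) *
        Complex.exp (∑ l ∈ range K, τ l (rc x) / (N : ℂ) ^ l) =
        -(Complex.exp (N * q (rc x)) * (H N (rc x) * (Complex.exp (-e) - 1))) := by
      rw [h7]
      ring
    rw [h8, norm_neg, norm_mul, norm_mul]
    have h9 : ‖Complex.exp (-e) - 1‖ ≤ 2 * (|C| / (N : ℝ) ^ K) := by
      have h10 : ‖-e‖ ≤ 1 := by
        rw [norm_neg]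
        exact he1.trans hCK
      refine (Complex.norm_exp_sub_one_le h10).trans ?_
      rw [norm_neg]
      linarith
    calc ‖Complex.exp (N * q (rc x))‖ * (‖H N (rc x)‖ * ‖Complex.exp (-e) - 1‖)
        ≤ Real.exp (-(κ * N * ∑ i, x i ^ 2)) * (|B| * (2 * (|C| / (N : ℝ) ^ K))) := by
          refine mul_le_mul (exp_bd hre hρR hx N) (mul_le_mul
            ((h2 _ (rc_mem hR hρR hx)).trans (le_abs_self B)) h9 (norm_nonneg _) (abs_nonneg _))
            (by positivity) (Real.exp_pos _).le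
      _ = _ := by ring
  have h7 : ‖∫ x in Bx ι ρ, (Complex.exp (N * q (rc x)) * H N (rc x) -
      Complex.exp (N * q (rc x)) * Complex.exp (∑ l ∈ range K, τ l (rc x) / (N : ℂ) ^ l))‖ ≤
      (|B| * (2 * (|C| / (N : ℝ) ^ K))) *
        ∫ x : ι → ℝ, Real.exp (-(κ * N * ∑ i, x i ^ 2)) := by
    rw [← integral_const_mul]
    refine (norm_integral_le_of_norm_le (hg1.const_mul _).integrableOn
      ((ae_restrict_mem (Bx_meas ρ)).mono fun x hx => h6 x hx)).trans ?_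
    exact setIntegral_le_integral (hg1.const_mul _) (Eventually.of_forall fun x => by positivity)
  rw [h5, norm_mul, norm_pow, Complex.norm_real, Real.norm_of_nonneg (Real.sqrt_nonneg _)]
  calc √(N : ℝ) ^ Fintype.card ι * ‖∫ x in Bx ι ρ, (Complex.exp (N * q (rc x)) * H N (rc x) -
      Complex.exp (N * q (rc x)) * Complex.exp (∑ l ∈ range K, τ l (rc x) / (N : ℂ) ^ l))‖
      ≤ √(N : ℝ) ^ Fintype.card ι * ((|B| * (2 * (|C| / (N : ℝ) ^ K))) *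
        ∫ x : ι → ℝ, Real.exp (-(κ * N * ∑ i, x i ^ 2))) :=
        mul_le_mul_of_nonneg_left h7 (by positivity)
    _ = (|B| * (2 * (|C| / (N : ℝ) ^ K))) * (√(N : ℝ) ^ Fintype.card ι *
        ∫ x : ι → ℝ, Real.exp (-(κ * N * ∑ i, x i ^ 2))) := by ring
    _ = _ := by
        rw [hg2]
        ring

omit [Fintype ι] in
lemma cst_zero : cst ((0 : ι → ℝ), (0 : ℝ)) = ((0 : ι → ℂ), (0 : ℂ)) := by
  unfold cst
  ext <;> simp

/-- Fubini's theorem for the dummy variable -/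
lemma fub (q : (ι → ℂ) → ℂ) (τ : ℕ → (ι → ℂ) → ℂ) (K : ℕ) (ρ ρ' : ℝ) (N : ℕ) :
    ((√(N : ℝ) : ℝ) : ℂ) ^ (Fintype.card ι + 1) * (∫ u in bx ι ρ ρ',
      FX (fun p : (ι → ℂ) × ℂ => q p.1 - p.2 ^ 2) 0 (fun l p => τ l p.1) K N
        (cst (fun i => (0 : ι → ℝ) i + u.1 i, u.2))) =
    II q (fun N v => Complex.exp (∑ l ∈ range K, τ l v / (N : ℂ) ^ l)) ρ N *
      ((√(N : ℝ) * ∫ y in {y : ℝ | |y| ≤ ρ'}, Real.exp (-(N * y ^ 2)) : ℝ) : ℂ) := by
  have h1 : bx ι ρ ρ' = Bx ι ρ ×ˢ {y : ℝ | |y| ≤ ρ'} := by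
    ext u
    rfl
  have h2 : ∀ u : (ι → ℝ) × ℝ,
      FX (fun p : (ι → ℂ) × ℂ => q p.1 - p.2 ^ 2) 0 (fun l p => τ l p.1) K N
        (cst (fun i => (0 : ι → ℝ) i + u.1 i, u.2)) =
      (Complex.exp (N * q (rc u.1)) * Complex.exp (∑ l ∈ range K, τ l (rc u.1) / (N : ℂ) ^ l)) *
        ((Real.exp (-(N * u.2 ^ 2)) : ℝ) : ℂ) := by
    intro u
    have h3 : cst (fun i => (0 : ι → ℝ) i + u.1 i, u.2) = (rc u.1, (u.2 : ℂ)) := by
      unfold cst rc
      simp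
    rw [h3]
    unfold FX
    rw [Complex.ofReal_exp, ← Complex.exp_add, ← Complex.exp_add]
    congr 1
    push_cast
    ring
  have h4 : ∫ y in {y : ℝ | |y| ≤ ρ'}, ((Real.exp (-(N * y ^ 2)) : ℝ) : ℂ) =
      ((∫ y in {y : ℝ | |y| ≤ ρ'}, Real.exp (-(N * y ^ 2)) : ℝ) : ℂ) := integral_ofReal
  simp only [h2]
  rw [h1, Measure.volume_eq_prod, setIntegral_prod_mul
    (fun x : ι → ℝ => Complex.exp (N * q (rc x)) *
      Complex.exp (∑ l ∈ range K, τ l (rc x) / (N : ℂ) ^ l))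
    (fun y : ℝ => ((Real.exp (-(N * y ^ 2)) : ℝ) : ℂ)), h4, Complex.ofReal_mul, pow_succ]
  unfold II
  ring

end box

section taylor

variable {ι : Type} [Fintype ι]

/-- the second Taylor coefficient of the potential -/
theorem tc_two {Ψ : (ι → ℂ) × ℂ → ℂ} {ws : ι → ℝ} {D : ℝ}
    {R S : QuadraticForm ℝ ((ι → ℝ) × ℝ)} (hA : AX Ψ ws D R S) (t : (ι → ℝ) × ℝ) :
    tc Ψ (cst (ws, 0)) 1 t = 0 ∧
      tc Ψ (cst (ws, 0)) 2 t = -((R t : ℂ) + Complex.I * (S t : ℂ)) := by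
  have hd := Pool.Agent.Y306.TKX.hd0_of hA t
  have h0 := Pool.Agent.Y306.TKX.h0_of hA
  set g : ℂ → ℂ := fun z : ℂ => Ψ (cst (ws, 0) + z • cst t) with hg
  have h1 : tc Ψ (cst (ws, 0)) 1 t = 0 := by
    unfold tc
    rw [iteratedDeriv_one]
    change deriv g 0 / _ = 0
    rw [HasDerivAt.deriv hd, zero_div]
  refine ⟨h1, ?_⟩
  have hga : AnalyticAt ℂ g 0 := by
    have e2 : AnalyticAt ℂ (fun z : ℂ => cst (ws, 0) + z • cst t) 0 :=
      analyticAt_const.add (analyticAt_id.smul analyticAt_const)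
    exact hA.an.comp_of_eq e2 (by rw [zero_smul, add_zero])
  obtain ⟨p, hp⟩ := hga
  obtain ⟨r₀, hp₀⟩ := hp
  have hp : HasFPowerSeriesAt g p 0 := ⟨r₀, hp₀⟩
  have hbig := hp.isBigO_sub_partialSum_pow 3
  simp only [zero_add] at hbig
  have hpc : ∀ k, p.coeff k = iteratedDeriv k g 0 / (k ! : ℂ) := by
    intro k
    have := hp₀.factorial_smul (1 : ℂ) k
    rw [FormalMultilinearSeries.coeff]
    have e1 : (1 : Fin k → ℂ) = fun _ => 1 := rfl
    rw [iteratedDeriv_eq_iteratedFDeriv, ← this, nsmul_eq_mul, mul_div_cancel_left₀]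
    · rfl
    · exact_mod_cast Nat.factorial_ne_zero k
  have hps : ∀ s : ℂ, p.partialSum 3 s = D + tc Ψ (cst (ws, 0)) 2 t * s ^ 2 := by
    intro s
    unfold FormalMultilinearSeries.partialSum
    simp only [sum_range_succ, range_zero, sum_empty, zero_add,
      FormalMultilinearSeries.apply_eq_pow_smul_coeff, hpc, smul_eq_mul]
    have e0 : iteratedDeriv 0 g 0 / ((0 ! : ℕ) : ℂ) = D := by
      rw [iteratedDeriv_zero, Nat.factorial_zero, Nat.cast_one, div_one]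
      show Ψ (cst (ws, 0) + (0 : ℂ) • cst t) = D
      rw [zero_smul, add_zero, h0]
    have e1 : iteratedDeriv 1 g 0 / ((1 ! : ℕ) : ℂ) = 0 := h1
    have e2 : iteratedDeriv 2 g 0 / ((2 ! : ℕ) : ℂ) = tc Ψ (cst (ws, 0)) 2 t := rfl
    rw [e0, e1, e2]
    ring
  obtain ⟨r, C, hr, htay⟩ := hA.tay
  obtain ⟨C', hC'⟩ := hbig.bound
  -- the difference at real points
  set Δ : ℂ := tc Ψ (cst (ws, 0)) 2 t + ((R t : ℂ) + Complex.I * (S t : ℂ)) with hΔ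
  have hev : ∀ᶠ s : ℝ in 𝓝[>] 0, ‖Δ‖ ≤ (C * ‖t‖ ^ 3 + C') * s := by
    have c1 : ∀ᶠ s : ℝ in 𝓝 0, ‖s • t‖ < r := by
      have : Continuous fun s : ℝ => ‖s • t‖ := by fun_prop
      have h2 := this.tendsto 0
      simp only [zero_smul, norm_zero] at h2
      exact h2.eventually_lt_const hr
    have c2 : ∀ᶠ s : ℝ in 𝓝 0, ‖g s - p.partialSum 3 s‖ ≤ C' * ‖‖(s : ℂ)‖ ^ 3‖ := by
      have h2 : Tendsto (fun s : ℝ => (s : ℂ)) (𝓝 0) (𝓝 0) := by
        have := Complex.continuous_ofReal.tendsto 0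
        rwa [Complex.ofReal_zero] at this
      exact h2.eventually hC'
    filter_upwards [nhdsWithin_le_nhds c1, nhdsWithin_le_nhds c2, self_mem_nhdsWithin] with
      s h2 h3 h4
    have hs : (0 : ℝ) < s := h4
    have h5 := htay (s • t) h2
    rw [Pool.Agent.Y306.TKX.cst_add, Pool.Agent.Y306.TKX.cst_smul, QuadraticMap.map_smul,
      QuadraticMap.map_smul, norm_smul, Real.norm_of_nonneg hs.le] at h5
    rw [hps, Real.norm_of_nonneg (by positivity), Complex.norm_real, Real.norm_of_nonneg hs.le] at h3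
    have h6 : Δ * s ^ 2 = (g s - D + (((s * s) • R t : ℝ) : ℂ) +
        Complex.I * (((s * s) • S t : ℝ) : ℂ)) -
        (g s - (D + tc Ψ (cst (ws, 0)) 2 t * s ^ 2)) := by
      rw [hΔ]
      simp only [smul_eq_mul]
      push_cast
      ring
    have h7 : ‖Δ‖ * s ^ 2 ≤ C * (s * ‖t‖) ^ 3 + C' * s ^ 3 := by
      have e1 : ‖Δ * (s : ℂ) ^ 2‖ = ‖Δ‖ * s ^ 2 := by
        rw [norm_mul, norm_pow, Complex.norm_real, Real.norm_of_nonneg hs.le]
      rw [← e1, h6]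
      exact (norm_sub_le _ _).trans (add_le_add h5 h3)
    have h8 : C * (s * ‖t‖) ^ 3 + C' * s ^ 3 = ((C * ‖t‖ ^ 3 + C') * s) * s ^ 2 := by ring
    rw [h8] at h7
    exact le_of_mul_le_mul_right h7 (by positivity)
  have hlim : Tendsto (fun s : ℝ => (C * ‖t‖ ^ 3 + C') * s) (𝓝[>] 0) (𝓝 0) := by
    have : Continuous fun s : ℝ => (C * ‖t‖ ^ 3 + C') * s := by fun_prop
    have h2 := this.tendsto 0
    rw [mul_zero] at h2
    exact h2.mono_left nhdsWithin_le_nhds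
  have hΔ0 : ‖Δ‖ ≤ 0 := ge_of_tendsto hlim hev
  have hΔ1 : Δ = 0 := norm_le_zero_iff.1 hΔ0
  rw [hΔ] at hΔ1
  linear_combination hΔ1

/-- the dummy variable is in the class -/
lemma jt_sq (E : Subfield ℂ) (κ₀ : ℂ) (hκ : κ₀ ^ 2 = -pI) :
    Jt E κ₀ ((0 : ι → ℂ), (0 : ℂ)) (-1) 2 fun p => -p.2 ^ 2 := by
  have hpI : pI ≠ 0 := by
    unfold pI
    have : (π : ℂ) ≠ 0 := by exact_mod_cast Real.pi_ne_zero
    simp [this]
  constructor
  · have h1 : AnalyticAt ℂ (fun p : (ι → ℂ) × ℂ => p.2) ((0 : ι → ℂ), (0 : ℂ)) := analyticAt_snd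
    exact (h1.pow 2).neg
  · intro k hk
    have h1 : ∀ t : (ι → ℝ) × ℝ, (fun z : ℂ => -((((0 : ι → ℂ), (0 : ℂ)) + z • cst t).2) ^ 2) =
        fun z : ℂ => (-(t.2 : ℂ) ^ 2) * z ^ 2 := by
      intro t
      ext z
      have h2 : (((0 : ι → ℂ), (0 : ℂ)) + z • cst t).2 = z * (t.2 : ℂ) := by
        unfold cst
        simp
      rw [h2]
      ring
    have h2 : tc (fun p : (ι → ℂ) × ℂ => -p.2 ^ 2) ((0 : ι → ℂ), (0 : ℂ)) k =
        fun t => (-(t.2 : ℂ) ^ 2) * (iteratedDeriv k (fun z : ℂ => z ^ 2) 0 / (k ! : ℂ)) := by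
      ext t
      unfold tc
      rw [h1 t, iteratedDeriv_const_mul_field, mul_div_assoc]
    rcases Nat.lt_or_ge 2 k with h3 | h3
    · have h4 : iteratedDeriv k (fun z : ℂ => z ^ 2) 0 = 0 := by
        rw [iteratedDeriv_eq_iterate]
        simp only [iter_deriv_pow]
        rw [prod_eq_zero (mem_range.2 h3) (by simp), zero_mul]
      rw [h2, h4]
      simp only [zero_div, mul_zero]
      exact Submodule.zero_mem _
    · have h4 : k = 2 := le_antisymm h3 hk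
      subst h4
      have h5 : iteratedDeriv 2 (fun z : ℂ => z ^ 2) 0 / ((2 ! : ℕ) : ℂ) = 1 := by
        rw [iteratedDeriv_eq_iterate]
        simp only [iter_deriv_pow]
        simp [prod_range_succ, Nat.factorial]
        norm_num
      rw [h2, h5]
      apply Submodule.subset_span
      refine ⟨0, 2, by simp, ?_⟩
      ext t
      unfold mn
      have h6 : (∏ a, (pI * (t.1 a : ℂ)) ^ (0 : ι → ℕ) a) = 1 := by simp
      rw [h6, one_mul, mul_pow, hκ, zpow_neg_one]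
      field_simp

end taylor

/-- `S_T3` with the square of the leading coefficient -/
def S_T3s : Prop := S_T3a → ∀ (ι : Type) [Fintype ι] [DecidableEq ι] (R κ : ℝ), 0 < R → 0 < κ →
  ∀ (q : (ι → ℂ) → ℂ) (H : ℕ → (ι → ℂ) → ℂ), AnalyticOnNhd ℂ q (Metric.ball 0 R) →
  q 0 = 0 → fderiv ℂ q 0 = 0 →
  (∀ x : ι → ℝ, (∀ i, |x i| < R) → (q fun i => x i).re ≤ -κ * ∑ i, x i ^ 2) →
  (∀ᶠ N : ℕ in atTop, ContinuousOn (H N) (Metric.ball 0 R)) →
  (∃ B : ℝ, ∀ᶠ N : ℕ in atTop, ∀ v ∈ Metric.ball (0 : ι → ℂ) R, ‖H N v‖ ≤ B) →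
  ∀ τ : ℕ → (ι → ℂ) → ℂ,
  (∀ K : ℕ, ∃ r C : ℝ, 0 < r ∧ ∀ᶠ N : ℕ in atTop, ∀ v ∈ Metric.ball (0 : ι → ℂ) r,
    ∃ e : ℂ, ‖e‖ ≤ C / (N : ℝ) ^ K ∧
      H N v = Complex.exp (∑ l ∈ range K, τ l v / (N : ℂ) ^ l + e)) →
  ∀ (E : Subfield ℂ) (κ₀ : ℂ), κ₀ ^ 2 = -pI → JJ E κ₀ (-1) 2 q →
  (∀ l : ℕ, JJ E κ₀ l (if l = 0 then 1 else 0) (τ l)) →
  ∀ η : ℝ, 0 < η → η < R → ∀ y : ℕ → ℂ, y 0 ≠ 0 →
  XP (fun N => ((√N : ℝ) : ℂ) ^ Fintype.card ι * ∫ x in {x : ι → ℝ | ∀ i, |x i| ≤ η},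
    Complex.exp (N * q fun i => x i) * H N fun i => x i) y → Ar E y ∧
  ∃ e ∈ E, y 0 ^ 2 = Complex.I ^ Fintype.card ι * e * Complex.exp (τ 0 0) ^ 2

/-- **T3.** -/
theorem tT3s : S_T3s := by
  intro hT3a ι _ _ R κ hR hκ q H hq hq0 hdq hre hHc hHB τ hτ E κ₀ hκ₀ hJq hJτ η hη hηR y hy hXP
  obtain ⟨B, hB⟩ := hHB
  obtain ⟨Q, S, hAX⟩ := hT3a ι R κ hR hκ q hq hq0 hdq hre
  have hpI : pI ≠ 0 := by
    unfold pI
    have : (π : ℂ) ≠ 0 := by exact_mod_cast Real.pi_ne_zero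
    simp [this]
  have hκ0 : κ₀ ≠ 0 := by
    rintro rfl
    rw [zero_pow two_ne_zero] at hκ₀
    exact hpI (neg_eq_zero.1 hκ₀.symm)
  have hp : cst ((0 : ι → ℝ), (0 : ℝ)) = ((0 : ι → ℂ), (0 : ℂ)) := cst_zero
  obtain ⟨Ψ, hΨ⟩ : ∃ Ψ : (ι → ℂ) × ℂ → ℂ, Ψ = fun p => q p.1 - p.2 ^ 2 := ⟨_, rfl⟩
  rw [← hΨ] at hAX
  have hJΨ : Jt E κ₀ (cst ((0 : ι → ℝ), 0)) (-1) 2 Ψ := by
    rw [hp]
    have h1 := (Pool.Agent.Y904.TA.jta ι E κ₀ ((0 : ι → ℂ), (0 : ℂ)) hκ0).2.2.1 (-1) 2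
      (fun p => q p.1) (fun p => -p.2 ^ 2) hJq (jt_sq E κ₀ hκ₀)
    have h2 : Ψ = fun p : (ι → ℂ) × ℂ => q p.1 + -p.2 ^ 2 := by
      rw [hΨ]
      ext p
      ring
    rw [h2]
    exact h1
  have hJτ' : ∀ l : ℕ, Jt E κ₀ (cst ((0 : ι → ℝ), 0)) l (if l = 0 then 1 else 0)
      fun p => τ l p.1 := by
    intro l
    rw [hp]
    exact hJτ l
  have hτan : ∀ l, AnalyticAt ℂ (τ l) 0 := by
    intro l
    have h1 : AnalyticAt ℂ (fun v : ι → ℂ => (v, (0 : ℂ))) 0 :=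
      AnalyticAt.prod (𝕜 := ℂ) (f := fun v : ι → ℂ => v) (g := fun _ : ι → ℂ => (0 : ℂ))
        analyticAt_id analyticAt_const
    exact (hJτ l).an.comp_of_eq h1 rfl
  -- the comparison of the coefficients
  have key : ∀ K : ℕ, 1 ≤ K → ∀ j < K, ((√π : ℝ) : ℂ) * y j =
      Pool.Agent.Y306.TKX.cf Ψ (cst ((0 : ι → ℝ), 0)) 0 K (fun l p => τ l p.1) (2 * j) := by
    intro K hK
    obtain ⟨r, C, hr, hτK⟩ := hτ K
    obtain ⟨r', hr', hτc⟩ : ∃ r' : ℝ, 0 < r' ∧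
        ∀ l < K, ContinuousOn (τ l) (Metric.ball 0 r') := by
      have hev : ∀ᶠ p in 𝓝 (0 : ι → ℂ), ∀ l ∈ range K, AnalyticAt ℂ (τ l) p := by
        rw [Filter.eventually_all_finset]
        intro l _
        exact (hτan l).eventually_analyticAt
      obtain ⟨r', hr', hball⟩ := Metric.eventually_nhds_iff_ball.1 hev
      exact ⟨r', hr', fun l hl v hv =>
        (hball v hv l (mem_range.2 hl)).continuousAt.continuousWithinAt⟩
    obtain ⟨r₃, hr₃, hscl⟩ := Pool.Agent.Y472.L.sclj Pool.Agent.Y936.TKX.gbd ι Ψ 0 0 Q S hAX K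
      (fun l p => τ l p.1) (fun l _ => (hJτ' l).an)
    obtain ⟨ρ, hρ⟩ : ∃ ρ : ℝ, ρ = min (min (r / 2) (r' / 2)) (min r₃ η) := ⟨_, rfl⟩
    have hρ0 : 0 < ρ := by
      rw [hρ]
      exact lt_min (lt_min (by linarith) (by linarith)) (lt_min hr₃ hη)
    have hρr : ρ < r := by
      have : ρ ≤ r / 2 := by rw [hρ]; exact (min_le_left _ _).trans (min_le_left _ _)
      linarith
    have hρr' : ρ < r' := by
      have : ρ ≤ r' / 2 := by rw [hρ]; exact (min_le_left _ _).trans (min_le_right _ _)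
      linarith
    have hρ3 : ρ ≤ r₃ := by rw [hρ]; exact (min_le_right _ _).trans (min_le_left _ _)
    have hρη : ρ ≤ η := by rw [hρ]; exact (min_le_right _ _).trans (min_le_right _ _)
    obtain ⟨C₁, hC₁⟩ := hscl ρ r₃ hρ0 hρ3 hr₃ le_rfl K
    obtain ⟨C₂, hC₂0, hC₂⟩ := far hR hκ hq hre hHc hB hρ0 hρη hηR K
    obtain ⟨C₃, hC₃0, hC₃⟩ := rep hR hκ hq hre hHc hB hK hr hτK hr' hτc
      (hρη.trans_lt hηR) hρr hρr'
    obtain ⟨C₄, hC₄0, hC₄⟩ := gauss_tail hr₃ K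
    obtain ⟨C₅, hC₅⟩ := hXP 0
    obtain ⟨C₆, hC₆⟩ := hXP K
    have h := zero_of_small K (fun j => ((√π : ℝ) : ℂ) * y j -
      Pool.Agent.Y306.TKX.cf Ψ (cst ((0 : ι → ℝ), 0)) 0 K (fun l p => τ l p.1) (2 * j))
      (√π * (C₆ + C₂ + C₃) + (C₅ + C₂ + C₃) * C₄ + C₁) ?_
    · intro j hj
      exact sub_eq_zero.1 (h j hj)
    filter_upwards [hC₁, hC₂, hC₃, hC₄, hC₅, hC₆, eventually_gt_atTop 0] with
      N g1 g2 g3 g4 g5 g6 hN
    have hN1 : (1 : ℝ) ≤ N := by exact_mod_cast hN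
    have hNK : (1 : ℝ) ≤ (N : ℝ) ^ K := one_le_pow₀ hN1
    have hNK0 : (0 : ℝ) < (N : ℝ) ^ K := by linarith
    rw [hΨ] at g1
    rw [fub q τ K ρ r₃ N, ← hΨ] at g1
    have g5' : ‖II q H η N‖ ≤ C₅ := by
      have h1 : ‖II q H η N - ∑ k ∈ range 0, y k / (N : ℂ) ^ k‖ ≤ C₅ / (N : ℝ) ^ 0 := g5
      rwa [range_zero, sum_empty, sub_zero, pow_zero, div_one] at h1
    have g6' : ‖II q H η N - ∑ k ∈ range K, y k / (N : ℂ) ^ k‖ ≤ C₆ / (N : ℝ) ^ K := g6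
    obtain ⟨g, hg⟩ : ∃ g : ℝ, g = √(N : ℝ) * ∫ y in {y : ℝ | |y| ≤ r₃}, Real.exp (-(N * y ^ 2)) :=
      ⟨_, rfl⟩
    rw [← hg] at g1 g4
    obtain ⟨I1, hI1⟩ : ∃ I1, I1 = II q H η N := ⟨_, rfl⟩
    obtain ⟨J1, hJ1⟩ : ∃ J1, J1 = II q H ρ N := ⟨_, rfl⟩
    obtain ⟨L1, hL1⟩ : ∃ L1,
      L1 = II q (fun N v => Complex.exp (∑ l ∈ range K, τ l v / (N : ℂ) ^ l)) ρ N := ⟨_, rfl⟩
    rw [← hI1] at g2 g5' g6'
    rw [← hJ1] at g2 g3
    rw [← hL1] at g1 g3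
    have hsum : ∑ j ∈ range K, (((√π : ℝ) : ℂ) * y j -
        Pool.Agent.Y306.TKX.cf Ψ (cst ((0 : ι → ℝ), 0)) 0 K (fun l p => τ l p.1) (2 * j)) /
          (N : ℂ) ^ j =
        -(((√π : ℝ) : ℂ) * (I1 - ∑ k ∈ range K, y k / (N : ℂ) ^ k)) +
        ((√π : ℝ) : ℂ) * (I1 - J1) + ((√π : ℝ) : ℂ) * (J1 - L1) -
        L1 * ((g - √π : ℝ) : ℂ) +
        (L1 * (g : ℂ) - ∑ j ∈ range K,
          Pool.Agent.Y306.TKX.cf Ψ (cst ((0 : ι → ℝ), 0)) 0 K (fun l p => τ l p.1) (2 * j) /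
            (N : ℂ) ^ j) := by
      have h1 : ∑ j ∈ range K, (((√π : ℝ) : ℂ) * y j -
          Pool.Agent.Y306.TKX.cf Ψ (cst ((0 : ι → ℝ), 0)) 0 K (fun l p => τ l p.1) (2 * j)) /
            (N : ℂ) ^ j = ((√π : ℝ) : ℂ) * ∑ k ∈ range K, y k / (N : ℂ) ^ k -
            ∑ j ∈ range K, Pool.Agent.Y306.TKX.cf Ψ (cst ((0 : ι → ℝ), 0)) 0 K
              (fun l p => τ l p.1) (2 * j) / (N : ℂ) ^ j := by
        rw [mul_sum, ← sum_sub_distrib]
        refine sum_congr rfl fun j _ => ?_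
        rw [sub_div, mul_div_assoc]
      rw [h1]
      push_cast
      ring
    rw [hsum]
    have hs0 : (0 : ℝ) ≤ √π := Real.sqrt_nonneg _
    have hL : ‖L1‖ ≤ C₅ + C₂ + C₃ := by
      have h1 : L1 = I1 - (I1 - J1) - (J1 - L1) := by ring
      rw [h1]
      refine (norm_sub_le _ _).trans (add_le_add ((norm_sub_le _ _).trans
        (add_le_add g5' ?_)) ?_)
      · exact g2.trans (div_le_self hC₂0 hNK)
      · exact g3.trans (div_le_self hC₃0 hNK)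
    have e1 : ‖-(((√π : ℝ) : ℂ) * (I1 - ∑ k ∈ range K, y k / (N : ℂ) ^ k))‖ ≤
        √π * (C₆ / (N : ℝ) ^ K) := by
      rw [norm_neg, norm_mul, Complex.norm_real, Real.norm_of_nonneg hs0]
      exact mul_le_mul_of_nonneg_left g6' hs0
    have e2 : ‖((√π : ℝ) : ℂ) * (I1 - J1)‖ ≤ √π * (C₂ / (N : ℝ) ^ K) := by
      rw [norm_mul, Complex.norm_real, Real.norm_of_nonneg hs0]
      exact mul_le_mul_of_nonneg_left g2 hs0
    have e3 : ‖((√π : ℝ) : ℂ) * (J1 - L1)‖ ≤ √π * (C₃ / (N : ℝ) ^ K) := by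
      rw [norm_mul, Complex.norm_real, Real.norm_of_nonneg hs0]
      exact mul_le_mul_of_nonneg_left g3 hs0
    have e4 : ‖L1 * ((g - √π : ℝ) : ℂ)‖ ≤ (C₅ + C₂ + C₃) * (C₄ / (N : ℝ) ^ K) := by
      rw [norm_mul, Complex.norm_real, Real.norm_eq_abs]
      exact mul_le_mul hL g4 (abs_nonneg _) ((norm_nonneg _).trans hL)
    refine (norm_add_le _ _).trans ((add_le_add ((norm_sub_le _ _).trans (add_le_add
      ((norm_add_le _ _).trans (add_le_add ((norm_add_le _ _).trans (add_le_add e1 e2)) e3))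
      e4)) g1).trans (le_of_eq ?_))
    field_simp
  -- the coefficients
  have hq2 : ∀ t, tc Ψ (cst ((0 : ι → ℝ), 0)) 2 t = -((Q t : ℂ) + Complex.I * (S t : ℂ)) :=
    fun t => (tc_two hAX t).2
  have hq1 : ∀ t, tc Ψ (cst ((0 : ι → ℝ), 0)) 1 t = 0 := fun t => (tc_two hAX t).1
  obtain ⟨G, hG⟩ := Pool.Agent.Y814.TA.qmx ι E κ₀ _ Q S hκ0 hAX.pos (hJΨ.tc 2 le_rfl) hq2
  obtain ⟨T0, hT0⟩ : ∃ T0 : ℂ, T0 = Complex.exp (τ 0 (cst ((0 : ι → ℝ), (0 : ℝ))).1) *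
    ∫ t, Complex.exp (tc Ψ (cst ((0 : ι → ℝ), 0)) 2 t) := ⟨_, rfl⟩
  have hcoef : ∀ j, ∃ e ∈ E, ((√π : ℝ) : ℂ) * y j = pI ^ j * e * T0 := by
    intro j
    obtain ⟨W, hW, hWt⟩ := Pool.Agent.Y372.TA.wj ι E κ₀ (cst ((0 : ι → ℝ), 0)) Ψ 0 (j + 1)
      (fun l p => τ l p.1) hκ0 (by omega) hJΨ (Pool.Agent.Y306.TKX.h0_of hAX) hq1
      (fun l _ => hJτ' l) (2 * j)
    have hW' : W ∈ TP E κ₀ (2 * (j : ℤ)) := by
      have : ((2 * j : ℕ) : ℤ) = 2 * (j : ℤ) := by push_cast; ring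
      rwa [this] at hW
    obtain ⟨-, e, he, hint⟩ := Pool.Agent.Y814.TA.gm ι E κ₀ _ Q S hκ0 hAX.pos hq2 G hG (j : ℤ) W hW'
    refine ⟨e, he, ?_⟩
    rw [key (j + 1) (by omega) j (by omega)]
    unfold Pool.Agent.Y306.TKX.cf
    simp_rw [hWt]
    have e1 : ∀ t, Complex.exp (tc Ψ (cst ((0 : ι → ℝ), (0 : ℝ))) 2 t +
        τ 0 (cst ((0 : ι → ℝ), (0 : ℝ))).1) * W t =
        Complex.exp (τ 0 (cst ((0 : ι → ℝ), (0 : ℝ))).1) *
          (Complex.exp (tc Ψ (cst ((0 : ι → ℝ), (0 : ℝ))) 2 t) * W t) := by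
      intro t
      rw [Complex.exp_add]
      ring
    simp_rw [e1]
    rw [integral_const_mul, hint, hT0, zpow_natCast]
    ring
  obtain ⟨e0, he0, hy0⟩ := hcoef 0
  rw [pow_zero, one_mul] at hy0
  have hs : ((√π : ℝ) : ℂ) ≠ 0 := by
    have : √π ≠ 0 := (Real.sqrt_pos.2 Real.pi_pos).ne'
    exact_mod_cast this
  have he0n : e0 ≠ 0 := by
    rintro rfl
    rw [zero_mul] at hy0
    exact mul_ne_zero hs hy hy0
  refine ⟨?_, ?_⟩
  · intro j
    obtain ⟨e, he, hyj⟩ := hcoef j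
    refine ⟨e / e0, E.div_mem he he0, ?_⟩
    apply mul_left_cancel₀ hs
    have h1 : ((√π : ℝ) : ℂ) * (pI ^ j * (e / e0) * y 0) =
        pI ^ j * (e / e0) * (((√π : ℝ) : ℂ) * y 0) := by ring
    rw [h1, hy0, hyj]
    field_simp
  · have hgs := Pool.Agent.Y814.TA.gsq ι E κ₀ _ Q S hκ0 hAX.pos hq2 G hG
    have hI2 : Complex.I ^ 2 = -1 := Complex.I_sq
    have hI0 := Complex.I_ne_zero
    have hπ0 : (π : ℂ) ≠ 0 := by exact_mod_cast Real.pi_ne_zero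
    have hdet : G.det ∈ E := by
      rw [Matrix.det_apply]
      refine E.sum_mem fun σ _ => ?_
      rw [Units.smul_def, zsmul_eq_mul]
      exact E.mul_mem (E.intCast_mem _) (E.prod_mem fun i _ => hG.1 _ _)
    have hdet0 : G.det ≠ 0 := hG.2.2.1
    have hsq : ((√π : ℝ) : ℂ) ^ 2 = π := by
      rw [← Complex.ofReal_pow, Real.sq_sqrt Real.pi_pos.le]
    -- the square of the Gaussian integral
    obtain ⟨Z, hZ⟩ : ∃ Z : ℂ, Z = ∫ t, Complex.exp (tc Ψ (cst ((0 : ι → ℝ), (0 : ℝ))) 2 t) :=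
      ⟨_, rfl⟩
    rw [← hZ] at hT0 hgs
    have hτ00 : (cst ((0 : ι → ℝ), (0 : ℝ))).1 = (0 : ι → ℂ) := by rw [hp]
    rw [hτ00] at hT0
    set n : ℕ := Fintype.card ι with hn
    have e1 : pI ^ ((n : ℤ) - 1) * κ₀ ^ 2 = -pI ^ n := by
      rw [hκ₀, zpow_sub₀ hpI, zpow_natCast, zpow_one]
      field_simp
    have e2 : Z ^ 2 * (pI ^ n * ((-1) ^ n * G.det)) = (π : ℂ) ^ (n + 1) := by
      rw [← hgs, e1, pow_succ]
      ring
    have e3 : (Complex.I ^ n) * (Complex.I ^ n) = (-1) ^ n := by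
      rw [← mul_pow, Complex.I_mul_I]
    have e4 : pI ^ n = (2 : ℂ) ^ n * π ^ n * Complex.I ^ n := by
      unfold pI
      rw [mul_pow, mul_pow]
    have e6 : Z ^ 2 = π * Complex.I ^ n * ((2 : ℂ) ^ n * G.det)⁻¹ := by
      have h2 : (2 : ℂ) ^ n ≠ 0 := pow_ne_zero _ two_ne_zero
      have h3 : (π : ℂ) ^ n ≠ 0 := pow_ne_zero _ hπ0
      have h4 : (-1 : ℂ) ^ n * (-1) ^ n = 1 := by rw [← mul_pow]; norm_num
      have h5 : Complex.I ^ n ≠ 0 := pow_ne_zero _ hI0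
      rw [e4] at e2
      have e7 : (π : ℂ) ^ n * (Complex.I ^ n * (Z ^ 2 * ((2 : ℂ) ^ n * ((-1) ^ n * G.det)))) =
          (π : ℂ) ^ n * π := by
        linear_combination e2
      have e8 := mul_left_cancel₀ h3 e7
      rw [← div_eq_mul_inv, eq_div_iff (mul_ne_zero h2 hdet0)]
      calc Z ^ 2 * ((2 : ℂ) ^ n * G.det) =
          ((-1 : ℂ) ^ n * (-1) ^ n) * (Z ^ 2 * ((2 : ℂ) ^ n * G.det)) := by rw [h4, one_mul]
        _ = Complex.I ^ n * (Complex.I ^ n * (Z ^ 2 * ((2 : ℂ) ^ n * ((-1) ^ n * G.det)))) := by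
          rw [← e3]
          ring
        _ = _ := by rw [e8]; ring
    refine ⟨e0 ^ 2 * ((2 : ℂ) ^ n * G.det)⁻¹, ?_, ?_⟩
    · refine E.mul_mem (E.pow_mem he0 2) (E.inv_mem (E.mul_mem (E.pow_mem ?_ n) hdet))
      exact_mod_cast natCast_mem E 2
    · have h9 : (π : ℂ) * y 0 ^ 2 = (((√π : ℝ) : ℂ) * y 0) ^ 2 := by rw [mul_pow, hsq]
      apply mul_left_cancel₀ hπ0
      rw [h9, hy0, hT0, mul_pow, mul_pow, e6]
      ring

/-- **T3.** -/
theorem tT3 : Pool.Agent.H760.AR.S_T3 := fun h1 ι _ _ R κ hR hκ q H h2 h3 h4 h5 h6 h7 τ h8 E κ₀ h9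
    h10 h11 η h12 h13 y h14 h15 =>
  (tT3s h1 ι R κ hR hκ q H h2 h3 h4 h5 h6 h7 τ h8 E κ₀ h9 h10 h11 η h12 h13 y h14 h15).1

end Pool.Agent.H903.AR
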