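import Pool.Agent.H760.AR.G

/-! # Quadratic forms of an analytic function (T3a of helper760's project AR) -/

set_option autoImplicit false

namespace Pool.Agent.H494.AR

open Finset Filter Topology MeasureTheory Asymptotics
open Pool.Agent.H760.AR

/-- Taylor's formula of order 3 -/
theorem taylor {ι : Type} [Fintype ι] (q : (ι → ℂ) → ℂ) (hq : AnalyticAt ℂ q 0) (h0 : q 0 = 0)
    (h1 : fderiv ℂ q 0 = 0) :
    ∃ B : (ι → ℂ) →L[ℂ] (ι → ℂ) →L[ℂ] ℂ, ∃ r C : ℝ, 0 < r ∧ 0 ≤ C ∧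
      ∀ v : ι → ℂ, ‖v‖ < r → ‖q v - B v v‖ ≤ C * ‖v‖ ^ 3 := by
  obtain ⟨p, hp⟩ := hq
  obtain ⟨B, hB⟩ : ∃ B : (ι → ℂ) →L[ℂ] (ι → ℂ) →L[ℂ] ℂ, ∀ v, B v v = p 2 (fun _ => v) := by
    refine ⟨((continuousMultilinearCurryFin1 ℂ (ι → ℂ) ℂ).toContinuousLinearEquiv :
      _ →L[ℂ] _).comp ((p 2).curryLeft), fun v => ?_⟩
    change (p 2) (Fin.cons v (fun _ => v)) = _
    congr 1
    funext i
    refine Fin.cases rfl (fun j => rfl) i
  obtain ⟨C, hC, hb⟩ := (hp.isBigO_sub_partialSum_pow 3).exists_nonneg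
  obtain ⟨r, hr, hrb⟩ := Metric.eventually_nhds_iff_ball.1 hb.bound
  refine ⟨B, r, C, hr, hC, fun v hv => ?_⟩
  have h := hrb v (by simpa using hv)
  have e0 : p 0 (fun _ => v) = 0 := by
    have := hp.coeff_zero (fun _ => v)
    rw [this, h0]
  have e1 : p 1 (fun _ => v) = 0 := by
    have := hp.fderiv_eq
    rw [h1] at this
    have h2 := congrArg (fun L => L v) this
    have h3 : (continuousMultilinearCurryFin1 ℂ (ι → ℂ) ℂ) (p 1) v = p 1 (fun _ => v) := by
      change (p 1) (Fin.snoc 0 v) = _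
      congr 1
    rw [← h3]
    exact h2.symm
  rw [zero_add, FormalMultilinearSeries.partialSum, sum_range_succ, sum_range_succ, sum_range_succ,
    sum_range_zero, e0, e1, zero_add, zero_add, zero_add, norm_pow, norm_norm] at h
  rw [hB]
  exact h

/-- real bilinear form -/
noncomputable def bil {ι : Type} [Fintype ι] (B : (ι → ℂ) →L[ℂ] (ι → ℂ) →L[ℂ] ℂ) (f : ℂ →ₗ[ℝ] ℝ)
    (e : ℝ) : ((ι → ℝ) × ℝ) →ₗ[ℝ] ((ι → ℝ) × ℝ) →ₗ[ℝ] ℝ :=
  LinearMap.mk₂ ℝ (fun u v => -f (B (fun i => (u.1 i : ℂ)) (fun i => (v.1 i : ℂ))) + e * (u.2 * v.2))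
    (by
      intro u u' v
      have : (fun i => (((u + u').1 i : ℝ) : ℂ)) = (fun i => (u.1 i : ℂ)) + fun i => (u'.1 i : ℂ) := by
        funext i
        simp
      simp only [this, map_add, _root_.add_apply, Prod.snd_add]
      ring)
    (by
      intro c u v
      have : (fun i => (((c • u).1 i : ℝ) : ℂ)) = (c : ℂ) • (fun i => (u.1 i : ℂ)) := by
        funext i
        simp
      simp only [this, map_smul, _root_.smul_apply, Prod.smul_snd, smul_eq_mul]
      rw [← Complex.real_smul, map_smul, smul_eq_mul]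
      ring)
    (by
      intro u v v'
      have : (fun i => (((v + v').1 i : ℝ) : ℂ)) = (fun i => (v.1 i : ℂ)) + fun i => (v'.1 i : ℂ) := by
        funext i
        simp
      simp only [this, map_add, Prod.snd_add]
      ring)
    (by
      intro c u v
      have : (fun i => (((c • v).1 i : ℝ) : ℂ)) = (c : ℂ) • (fun i => (v.1 i : ℂ)) := by
        funext i
        simp
      simp only [this, map_smul, Prod.smul_snd, smul_eq_mul]
      rw [← Complex.real_smul, map_smul, smul_eq_mul]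
      ring)

theorem bil_self {ι : Type} [Fintype ι] (B : (ι → ℂ) →L[ℂ] (ι → ℂ) →L[ℂ] ℂ) (f : ℂ →ₗ[ℝ] ℝ)
    (e : ℝ) (u : (ι → ℝ) × ℝ) :
    (LinearMap.BilinMap.toQuadraticMap (bil B f e)) u =
      -f (B (fun i => (u.1 i : ℂ)) (fun i => (u.1 i : ℂ))) + e * (u.2 * u.2) := by
  rw [LinearMap.BilinMap.toQuadraticMap_apply]
  rfl

theorem norm_cst {ι : Type} [Fintype ι] (u : ι → ℝ) : ‖(fun i => (u i : ℂ))‖ = ‖u‖ := by
  simp only [Pi.norm_def]
  congr 1
  refine Finset.sup_congr rfl fun i _ => ?_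
  ext
  simp

theorem tT3a : S_T3a := by
  intro ι _ _ R κ hR hκ q hq h0 h1 hre
  obtain ⟨B, r, C, hr, hC, hB⟩ := taylor q (hq 0 (by simpa using hR)) h0 h1
  refine ⟨LinearMap.BilinMap.toQuadraticMap (bil B Complex.reLm 1),
    LinearMap.BilinMap.toQuadraticMap (bil B Complex.imLm 0), ?_, ?_, ?_⟩
  · -- positive definite
    have key : ∀ y : ι → ℝ, (B (fun i => (y i : ℂ)) (fun i => (y i : ℂ))).re ≤ -κ * ∑ i, y i ^ 2 := by
      intro y
      by_contra hcon
      push Not at hcon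
      obtain ⟨δ, hδ⟩ : ∃ δ, δ = (B (fun i => (y i : ℂ)) (fun i => (y i : ℂ))).re - (-κ * ∑ i, y i ^ 2) :=
        ⟨_, rfl⟩
      have hδ0 : 0 < δ := by
        rw [hδ]
        linarith
      -- choose s small
      obtain ⟨s, hs0, hs1, hs2, hs3⟩ : ∃ s : ℝ, 0 < s ∧ s * ‖y‖ < r ∧ s * ‖y‖ < R ∧
          C * s * ‖y‖ ^ 3 < δ := by
        have h1 : Tendsto (fun s : ℝ => s * ‖y‖) (𝓝[>] 0) (𝓝 0) := by
          have : Tendsto (fun s : ℝ => s * ‖y‖) (𝓝 0) (𝓝 (0 * ‖y‖)) :=
            (continuous_id.mul continuous_const).tendsto 0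
          rw [zero_mul] at this
          exact this.mono_left nhdsWithin_le_nhds
        have h2 : Tendsto (fun s : ℝ => C * s * ‖y‖ ^ 3) (𝓝[>] 0) (𝓝 0) := by
          have : Tendsto (fun s : ℝ => C * s * ‖y‖ ^ 3) (𝓝 0) (𝓝 (C * 0 * ‖y‖ ^ 3)) :=
            ((continuous_const.mul continuous_id).mul continuous_const).tendsto 0
          rw [mul_zero, zero_mul] at this
          exact this.mono_left nhdsWithin_le_nhds
        have h3 : ∀ᶠ s : ℝ in 𝓝[>] 0, 0 < s := eventually_mem_nhdsWithin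
        exact (h3.and ((h1.eventually_lt_const hr).and ((h1.eventually_lt_const hR).and
          (h2.eventually_lt_const hδ0)))).exists
      have hv : (fun i => ((s * y i : ℝ) : ℂ)) = (s : ℂ) • fun i => (y i : ℂ) := by
        funext i
        simp
      have hn : ‖(fun i => ((s * y i : ℝ) : ℂ))‖ = s * ‖y‖ := by
        rw [hv, norm_smul, norm_cst, Complex.norm_real, Real.norm_of_nonneg hs0.le]
      have hb := hB (fun i => ((s * y i : ℝ) : ℂ)) (by rw [hn]; exact hs1)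
      have hre' := hre (fun i => s * y i) (by
        intro i
        rw [abs_mul, abs_of_pos hs0]
        refine lt_of_le_of_lt (mul_le_mul_of_nonneg_left ?_ hs0.le) hs2
        exact norm_le_pi_norm y i)
      have hBs : B (fun i => ((s * y i : ℝ) : ℂ)) (fun i => ((s * y i : ℝ) : ℂ)) =
          ((s ^ 2 : ℝ) : ℂ) * B (fun i => (y i : ℂ)) (fun i => (y i : ℂ)) := by
        rw [hv]
        simp only [map_smul, _root_.smul_apply, smul_eq_mul]
        push_cast
        ring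
      rw [hn, hBs] at hb
      have habs := (Complex.abs_re_le_norm _).trans hb
      rw [Complex.sub_re, Complex.re_ofReal_mul] at habs
      have h4 := (abs_le.1 habs).1
      have h5 : ∑ i, (s * y i) ^ 2 = s ^ 2 * ∑ i, y i ^ 2 := by
        rw [mul_sum]
        exact sum_congr rfl fun i _ => by ring
      rw [h5] at hre'
      have h6 : s ^ 2 * δ ≤ C * (s * ‖y‖) ^ 3 := by
        rw [hδ]
        nlinarith
      have h7 : C * (s * ‖y‖) ^ 3 = s ^ 2 * (C * s * ‖y‖ ^ 3) := by ring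
      rw [h7] at h6
      have h8 : δ ≤ C * s * ‖y‖ ^ 3 := le_of_mul_le_mul_left h6 (by positivity)
      linarith
    intro u hu
    rw [bil_self]
    have hk := key u.1
    change 0 < -(B (fun i => (u.1 i : ℂ)) (fun i => (u.1 i : ℂ))).re + 1 * (u.2 * u.2)
    have hsum : 0 ≤ ∑ i, u.1 i ^ 2 := sum_nonneg fun i _ => by positivity
    by_cases h2 : u.2 = 0
    · have h3 : u.1 ≠ 0 := by
        intro h3
        exact hu (Prod.ext h3 h2)
      obtain ⟨i, hi⟩ := Function.ne_iff.1 h3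
      have h4 : 0 < ∑ i, u.1 i ^ 2 := by
        refine sum_pos' (fun i _ => by positivity) ⟨i, mem_univ i, ?_⟩
        have : u.1 i ≠ 0 := hi
        positivity
      rw [h2]
      nlinarith
    · have h3 : 0 < u.2 * u.2 := mul_self_pos.2 h2
      nlinarith
  · -- analytic
    have e : Pool.Agent.Y472.K.cst ((0 : ι → ℝ), (0 : ℝ)) = ((0 : ι → ℂ), (0 : ℂ)) := by
      refine Prod.ext ?_ ?_
      · funext i
        simp [Pool.Agent.Y472.K.cst]
      · simp [Pool.Agent.Y472.K.cst]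
    rw [e]
    have h3 : AnalyticAt ℂ (fun p : (ι → ℂ) × ℂ => q p.1) ((0 : ι → ℂ), (0 : ℂ)) := by
      refine AnalyticAt.fun_comp (f := fun p : (ι → ℂ) × ℂ => p.1) (g := q) ?_ ?_
      · exact hq 0 (by simpa using hR)
      · exact (ContinuousLinearMap.fst ℂ (ι → ℂ) ℂ).analyticAt _
    exact h3.sub (((ContinuousLinearMap.snd ℂ (ι → ℂ) ℂ).analyticAt _).pow 2)
  · refine ⟨r, C, hr, fun u hu => ?_⟩
    have hu1 : ‖u.1‖ ≤ ‖u‖ := norm_fst_le u
    have hb := hB (fun i => (u.1 i : ℂ)) (by rw [norm_cst]; exact lt_of_le_of_lt hu1 hu)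
    rw [norm_cst] at hb
    have e : (fun p : (ι → ℂ) × ℂ => q p.1 - p.2 ^ 2)
        (Pool.Agent.Y472.K.cst (fun i => (0 : ι → ℝ) i + u.1 i, u.2)) - ((0 : ℝ) : ℂ) +
        ((LinearMap.BilinMap.toQuadraticMap (bil B Complex.reLm 1)) u : ℝ) +
        Complex.I * ((LinearMap.BilinMap.toQuadraticMap (bil B Complex.imLm 0)) u : ℝ) =
        q (fun i => (u.1 i : ℂ)) - B (fun i => (u.1 i : ℂ)) (fun i => (u.1 i : ℂ)) := by
      rw [bil_self, bil_self]
      have e1 : (Pool.Agent.Y472.K.cst (fun i => (0 : ι → ℝ) i + u.1 i, u.2)) =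
          ((fun i => (u.1 i : ℂ)), (u.2 : ℂ)) := by
        refine Prod.ext ?_ rfl
        funext i
        simp [Pool.Agent.Y472.K.cst]
      rw [e1]
      change q (fun i => (u.1 i : ℂ)) - (u.2 : ℂ) ^ 2 - ((0 : ℝ) : ℂ) +
        ((-(B (fun i => (u.1 i : ℂ)) (fun i => (u.1 i : ℂ))).re + 1 * (u.2 * u.2) : ℝ) : ℂ) +
        Complex.I * ((-(B (fun i => (u.1 i : ℂ)) (fun i => (u.1 i : ℂ))).im + 0 * (u.2 * u.2) : ℝ) : ℂ) =
        _
      obtain ⟨b, hb⟩ : ∃ b, b = B (fun i => (u.1 i : ℂ)) (fun i => (u.1 i : ℂ)) := ⟨_, rfl⟩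
      rw [← hb]
      push_cast
      have hbb := Complex.re_add_im b
      linear_combination -hbb
    rw [e]
    exact hb.trans (mul_le_mul_of_nonneg_left (pow_le_pow_left₀ (norm_nonneg _) hu1 3) hC)

end Pool.Agent.H494.AR
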