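import Pool.Agent.H760.AR.LPXs
import Pool.Agent.H760.AR.ASXs
import Pool.Agent.H760.AR.FINs
import Pool.Agent.H760.AR.JGH
import Pool.Agent.H760.AR.T1
import Pool.Agent.H760.AR.T2
import Pool.Agent.H760.AR.T2b
import Pool.Agent.H760.AR.T3a
import Pool.Agent.H760.AR.T3
import Pool.Agent.H760.AR.E1
import Pool.Agent.H760.AR.E2
import Pool.Agent.H760.AR.E3
import Pool.Agent.H760.AR.E4
import Pool.Agent.H760.AR.E5
import Pool.Agent.H760.AR.E5r
import Pool.Agent.H760.AR.Q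
import Pool.Graph.R_pool_sql_team_seeded_3997aac3.Q99.HX.AsmX
import Pool.Graph.R_pool_sql_team_seeded_3997aac3.Q99.HX.Rate

/-!
# The coefficients of the expansions for highly twisted knots are in the field of the shapes:
assembly
-/

set_option autoImplicit false

namespace Pool.Agent.H760.AR

open Finset Filter Topology MeasureTheory
open Pool.Agent.Q99.KN (bb ct St LC S_LC S_GAM Gm S_LAP S_GIM)
open Pool.Agent.Q99.HX (Xp Sd UA S_UA S_GX S_PX S_LPX S_FLAP AXc tot)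
open Pool.Agent.Q99.HT
open Pool.Agent.Q99.HU
open Pool.Agent.Y472.L (pI Jt HP TP mn tc)
open Pool.Agent.Q191.LB (sg)
open Pool.Agent.Q191.TW (cs cs_add cs_zero)
open Pool.Agent.Q99.FW (Kg)
open Pool.Agent.W715.VC (rt)
open Pool.Agent.W709.QAT (Piece run)
open Pool.Agent.Q99.FAL (Pc Ty Val Pri Pos AS Sol Out c6 fV n1 n2 cor dn)

/-! ### products of expansions -/

lemma xpmul {a b y z : ℕ → ℂ} (ha : Xp a y) (hb : Xp b z) :
    Xp (fun N => a N * b N) (fun k => ∑ i ∈ range (k + 1), y i * z (k - i)) := by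
  have h := Pool.Agent.W303.AX.uxmul Unit _ _ _ _ _ (Pool.Agent.Q99.HX.Xp.ux.1 ha)
    (Pool.Agent.Q99.HX.Xp.ux.1 hb)
  exact Pool.Agent.Q99.HX.Xp.ux.2 h

lemma Ar.mul {E : Subfield ℂ} {y z : ℕ → ℂ} (hy : Ar E y) (hz : Ar E z) :
    Ar E (fun k => ∑ i ∈ range (k + 1), y i * z (k - i)) := by
  choose e he hye using hy
  choose f hf hzf using hz
  intro k
  refine ⟨∑ i ∈ range (k + 1), e i * f (k - i), E.sum_mem fun i _ => E.mul_mem (he _) (hf _), ?_⟩
  have h0 : ∑ i ∈ range (0 + 1), y i * z (0 - i) = y 0 * z 0 := by simp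
  simp only [h0]
  rw [mul_sum, sum_mul]
  refine sum_congr rfl fun i hi => ?_
  rw [mem_range] at hi
  have e1 : pI ^ k = pI ^ i * pI ^ (k - i) := by
    rw [← pow_add]
    congr 1
    omega
  rw [hye i, hzf (k - i), e1]
  ring

lemma Ar.const {E : Subfield ℂ} (c : ℂ) : Ar E (fun k => if k = 0 then c else 0) := by
  intro j
  by_cases hj : j = 0
  · subst hj
    exact ⟨1, E.one_mem, by simp⟩
  · exact ⟨0, E.zero_mem, by simp [hj]⟩

lemma xpexp (c : ℂ) : Xp (fun N => Complex.exp (c / N)) (fun k => c ^ k / (k.factorial : ℂ)) := by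
  intro K
  rcases Nat.eq_zero_or_pos K with rfl | hK
  · refine ⟨Real.exp ‖c‖, ?_⟩
    filter_upwards [eventually_ge_atTop 1] with N hN
    have hN0 : (1 : ℝ) ≤ N := by exact_mod_cast hN
    rw [range_zero, sum_empty, sub_zero, pow_zero, div_one, Complex.norm_exp]
    refine Real.exp_le_exp.2 ((Complex.re_le_norm _).trans ?_)
    rw [norm_div, Complex.norm_natCast]
    exact div_le_self (norm_nonneg _) hN0
  · refine ⟨‖c‖ ^ K * ((K.succ : ℝ) * (K.factorial * K : ℝ)⁻¹), ?_⟩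
    filter_upwards [eventually_ge_atTop 1, eventually_ge_atTop ⌈‖c‖⌉₊] with N hN hNc
    have hN0 : (0 : ℝ) < N := by exact_mod_cast hN
    have hc : ‖c‖ ≤ N := Nat.ceil_le.1 hNc
    have h1 : ‖c / (N : ℂ)‖ ≤ 1 := by
      rw [norm_div, Complex.norm_natCast, div_le_one hN0]
      exact hc
    have h2 := Complex.exp_bound h1 hK
    have e1 : ∑ k ∈ range K, c ^ k / (k.factorial : ℂ) / (N : ℂ) ^ k =
        ∑ m ∈ range K, (c / N) ^ m / (m.factorial : ℂ) := by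
      refine sum_congr rfl fun k _ => ?_
      rw [div_pow, div_div, div_div, mul_comm]
    rw [e1]
    refine h2.trans (le_of_eq ?_)
    rw [norm_div, Complex.norm_natCast, div_pow]
    ring

lemma Ar.exp {E : Subfield ℂ} (q : ℚ) : Ar E (fun k => (pI * q) ^ k / (k.factorial : ℂ)) := by
  intro j
  refine ⟨(q : ℂ) ^ j / (j.factorial : ℂ), ?_, ?_⟩
  · exact E.div_mem (E.pow_mem (by exact_mod_cast SubfieldClass.ratCast_mem E q) _)
      (natCast_mem E _)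
  · simp only [pow_zero, Nat.factorial_zero, Nat.cast_one, div_one, mul_one]
    rw [mul_pow, mul_div_assoc]

/-- the phase -/
lemma xp_phase {E : Subfield ℂ} {a y : ℕ → ℂ} (ha : Xp a y) (c : ℂ) (q : ℚ) :
    ∃ u : ℕ → ℂ, u 0 = c * y 0 ∧ Xp (fun N => c * Complex.exp (pI * q / N) * a N) u ∧
      ∀ E : Subfield ℂ, Ar E y → Ar E u := by
  have h1 := xpmul (xpmul (Pool.Agent.Q99.HX.Xp.const c) (xpexp (pI * q))) ha
  refine ⟨_, ?_, h1, fun E hE => Ar.mul (Ar.mul (Ar.const c) (Ar.exp q)) hE⟩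
  simp

/-- **the Kashaev invariant with its phase** -/
theorem fin_phQ (D : List Pc) (h1 : Val D 1) (f : Fin D.length → Bool × ℕ) (P : ℂ) :
    ∃ (b : ℤ) (γ : ℚ), ∀ N : ℕ, 0 < N → kas N D f /
      (N * √N * Complex.exp (N * (P - Complex.I * Real.pi * tot f / 4))) =
      Complex.exp (Complex.I * Real.pi * (b / 2)) * (1 / Real.pi) ^ D.length *
        Complex.exp (pI * γ / N) * ((N : ℂ) ^ D.length * ZD N D (wf f) /
      (N * (√N : ℝ) * ((-1) ^ (D.length * (N - 1)) * Complex.exp (N * P)))) := by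
  obtain ⟨β, γ, hJ⟩ := JGH.jgq1 D h1
  obtain ⟨β', γ', hK⟩ := JGH.jgq2 _ f
  refine ⟨β + β', (γ + γ') / 2, fun N hN => ?_⟩
  have hN' : (N : ℂ) ≠ 0 := by exact_mod_cast hN.ne'
  have hpi : (Real.pi : ℂ) ≠ 0 := by exact_mod_cast Real.pi_pos.ne'
  have e1 : kas N D f = cs N (β / 2 * N + γ) * ((-1) ^ (N - 1)) ^ D.length *
      (∏ k, Kg N (sg (f k).1) ^ (f k).2) * (N / Real.pi) ^ D.length * ZD N D (wf f) := by
    unfold kas
    rw [dif_pos hN]
    exact hJ N hN f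
  have hK' : ∏ k, Kg N (sg (f k).1) ^ (f k).2 =
      cs N (-(tot f : ℝ) / 4 * (N : ℝ) ^ 2 + β' / 2 * N + γ') := hK N hN
  rw [e1, hK']
  have e2 : Complex.exp (N * (P - Complex.I * Real.pi * tot f / 4)) =
      Complex.exp (N * P) * Complex.exp (-(N * (Complex.I * Real.pi * tot f / 4))) := by
    rw [← Complex.exp_add]
    congr 1
    ring
  have e3 : cs N (β / 2 * N + γ) * cs N (-(tot f : ℝ) / 4 * (N : ℝ) ^ 2 + β' / 2 * N + γ') =
      Complex.exp (Complex.I * Real.pi * (((β + β' : ℤ) : ℂ) / 2)) *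
        Complex.exp (pI * (((γ + γ') / 2 : ℚ) : ℂ) / N) *
        Complex.exp (-(N * (Complex.I * Real.pi * tot f / 4))) := by
    unfold cs pI
    rw [← Complex.exp_add, ← Complex.exp_add, ← Complex.exp_add]
    congr 1
    push_cast
    field_simp
    ring
  have e4 : ((-1 : ℂ) ^ (N - 1)) ^ D.length = (-1 : ℂ) ^ (D.length * (N - 1)) := by
    rw [← pow_mul, mul_comm]
  have e5 : ((-1 : ℂ) ^ (D.length * (N - 1))) ≠ 0 := pow_ne_zero _ (by simp)
  have e6 : ((-1 : ℂ) ^ (D.length * (N - 1))) * ((-1 : ℂ) ^ (D.length * (N - 1))) = 1 := by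
    rw [← mul_pow]
    simp
  have e7 := Complex.exp_ne_zero (N * P)
  have e8 := Complex.exp_ne_zero (-(N * (Complex.I * Real.pi * tot f / 4)))
  have hs0 : (√(N : ℝ)) ≠ 0 := (Real.sqrt_pos.2 (by exact_mod_cast hN)).ne'
  have hs : ((√(N : ℝ) : ℝ) : ℂ) ≠ 0 := by exact_mod_cast hs0
  rw [e2, e4]
  have e9 : cs N (β / 2 * N + γ) * (-1) ^ (D.length * (N - 1)) *
      cs N (-(tot f : ℝ) / 4 * (N : ℝ) ^ 2 + β' / 2 * N + γ') * ((N : ℂ) / Real.pi) ^ D.length *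
      ZD N D (wf f) = (cs N (β / 2 * N + γ) *
        cs N (-(tot f : ℝ) / 4 * (N : ℝ) ^ 2 + β' / 2 * N + γ')) *
      ((-1) ^ (D.length * (N - 1)) * ((N : ℂ) / Real.pi) ^ D.length * ZD N D (wf f)) := by ring
  rw [e9, e3]
  generalize ((-1 : ℂ) ^ (D.length * (N - 1))) = s at *
  generalize Complex.exp (Complex.I * Real.pi * (((β + β' : ℤ) : ℂ) / 2)) = A
  generalize Complex.exp (pI * (((γ + γ') / 2 : ℚ) : ℂ) / N) = B
  generalize Complex.exp (-(N * (Complex.I * Real.pi * tot f / 4))) = F at *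
  generalize Complex.exp (N * P) = E at *
  rw [div_pow, div_pow, one_pow]
  have hp : (Real.pi : ℂ) ^ D.length ≠ 0 := pow_ne_zero _ hpi
  generalize (Real.pi : ℂ) ^ D.length = π' at *
  generalize (N : ℂ) ^ D.length = N' at *
  have e11 : s = 1 / s := by
    rw [eq_div_iff e5]
    exact e6
  have e12 : A * B * F * (s * (N' / π') * ZD N D (wf f)) / (N * (√(N : ℝ) : ℝ) * (E * F)) =
      A * B * F * (1 / s * (N' / π') * ZD N D (wf f)) / (N * (√(N : ℝ) : ℝ) * (E * F)) := by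
    rw [← e11]
  rw [e12]
  field_simp

/-- the coefficients are in `(2 π i)^j E y 0`, and the square of the first one is in `i E` -/
def Ag (E : Subfield ℂ) (y : ℕ → ℂ) : Prop := Ar E y ∧ ∃ e ∈ E, y 0 ^ 2 = Complex.I * e

theorem ph_xpQ (D : List Pc) (h1 : Val D 1) (f : Fin D.length → Bool × ℕ) (P : ℂ)
    (y : ℕ → ℂ) (hy : y 0 ≠ 0) (hX : Xp (fun N : ℕ => (N : ℂ) ^ D.length * ZD N D (wf f) /
      (N * (√N : ℝ) * ((-1) ^ (D.length * (N - 1)) * Complex.exp (N * P)))) y)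
    (S : Subfield ℂ → Prop) (hS : ∀ E, S E → As E 1 D.length y) :
    ∃ u : ℕ → ℂ, u 0 ≠ 0 ∧ Xp (fun N : ℕ => kas N D f /
      (N * √N * Complex.exp (N * (P - Complex.I * Real.pi * tot f / 4)))) u ∧
      ∀ E, S E → Ag E u := by
  obtain ⟨b, γ, h⟩ := fin_phQ D h1 f P
  have hpi : (Real.pi : ℂ) ≠ 0 := by exact_mod_cast Real.pi_pos.ne'
  have hp : (1 / Real.pi : ℂ) ^ D.length ≠ 0 := pow_ne_zero _ (one_div_ne_zero hpi)
  obtain ⟨u, hu0, hu1, hu2⟩ := xp_phase (E := ⊤) hX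
    (Complex.exp (Complex.I * Real.pi * (b / 2)) * (1 / Real.pi) ^ D.length) γ
  refine ⟨u, ?_, hu1.congr' ?_, fun E hE => ⟨hu2 E (hS E hE).1, ?_⟩⟩
  · rw [hu0]
    exact mul_ne_zero (mul_ne_zero (Complex.exp_ne_zero _) hp) hy
  · filter_upwards [eventually_ge_atTop 1] with N hN
    exact (h N hN).symm
  · obtain ⟨-, e, he, hy2⟩ := hS E hE
    have e1 : Complex.exp (Complex.I * Real.pi * (b / 2)) ^ 2 = (-1) ^ b := by
      rw [← Complex.exp_nat_mul, ← Complex.exp_pi_mul_I, ← Complex.exp_int_mul]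
      congr 1
      push_cast
      ring
    refine ⟨(-1) ^ b * e, E.mul_mem (E.zpow_mem (E.neg_mem E.one_mem) _) he, ?_⟩
    rw [hu0, mul_pow, mul_pow, e1, hy2, ← pow_mul, pow_one, mul_comm D.length 2]
    have e2 : (1 / Real.pi : ℂ) ^ (2 * D.length) * (Real.pi : ℂ) ^ (2 * D.length) = 1 := by
      rw [← mul_pow, one_div_mul_cancel hpi, one_pow]
    calc (-1 : ℂ) ^ b * (1 / Real.pi : ℂ) ^ (2 * D.length) *
          (Complex.I * (Real.pi : ℂ) ^ (2 * D.length) * e) =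
        ((1 / Real.pi : ℂ) ^ (2 * D.length) * (Real.pi : ℂ) ^ (2 * D.length)) *
          (Complex.I * ((-1) ^ b * e)) := by ring
      _ = _ := by rw [e2, one_mul]

/-- changes of the framing and signs -/
theorem xp_framedQ (a : ℕ → ℂ) (v : ℂ) (y : ℕ → ℂ) (hy : y 0 ≠ 0)
    (h : Xp (fun N : ℕ => a N / (N * √N * Complex.exp (N * v))) y) (e f : ℤ) :
    ∃ u : ℕ → ℂ, u 0 ≠ 0 ∧ Xp (fun N : ℕ =>
      ((-1) ^ (f * ((N : ℤ) - 1)) * Complex.exp (Real.pi * Complex.I / N) ^ (e * ((N : ℤ) ^ 2 - 1)) *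
        a N) / (N * √N * Complex.exp (N * (v + Real.pi * Complex.I * (e + f))))) u ∧
      ∀ E, Ag E y → Ag E u := by
  obtain ⟨u, hu0, hu1, hu2⟩ := xp_phase (E := ⊤) h (Complex.exp (-(Real.pi * Complex.I * f)))
    (-(e : ℚ) / 2)
  refine ⟨u, ?_, hu1.congr' ?_, fun E hE => ⟨hu2 E hE.1, ?_⟩⟩
  · rw [hu0]
    exact mul_ne_zero (Complex.exp_ne_zero _) hy
  · filter_upwards [eventually_ge_atTop 1] with N hN
    have hN0 : (N : ℂ) ≠ 0 := by
      have : N ≠ 0 := by omega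
      exact_mod_cast this
    have h1 : (-1 : ℂ) ^ (f * ((N : ℤ) - 1)) =
        Complex.exp (Real.pi * Complex.I * (f * (N - 1))) := by
      rw [← Complex.exp_pi_mul_I, ← Complex.exp_int_mul]
      congr 1
      push_cast
      ring
    have h2 : Complex.exp (Real.pi * Complex.I / N) ^ (e * ((N : ℤ) ^ 2 - 1)) =
        Complex.exp (Real.pi * Complex.I * e * (N - 1 / N)) := by
      rw [← Complex.exp_int_mul]
      congr 1
      push_cast
      field_simp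
    have h3 : Complex.exp (N * (v + Real.pi * Complex.I * (e + f))) =
        Complex.exp (N * v) * Complex.exp (N * (Real.pi * Complex.I * (e + f))) := by
      rw [← Complex.exp_add]
      congr 1
      ring
    have h4 : Complex.exp (Real.pi * Complex.I * (f * (N - 1))) *
        Complex.exp (Real.pi * Complex.I * e * (N - 1 / N)) =
        Complex.exp (-(Real.pi * Complex.I * f)) * Complex.exp (pI * ((-(e : ℚ) / 2 : ℚ) : ℂ) / N) *
          Complex.exp (N * (Real.pi * Complex.I * (e + f))) := by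
      unfold pI
      rw [← Complex.exp_add, ← Complex.exp_add, ← Complex.exp_add]
      congr 1
      push_cast
      field_simp
      ring
    rw [h1, h2, h3, h4]
    have h5 := Complex.exp_ne_zero (N * (Real.pi * Complex.I * (e + f)))
    generalize Complex.exp (N * (Real.pi * Complex.I * (e + f))) = E at *
    generalize Complex.exp (N * v) = F
    generalize Complex.exp (-(Real.pi * Complex.I * f)) = G
    generalize Complex.exp (pI * ((-(e : ℚ) / 2 : ℚ) : ℂ) / N) = H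
    rw [show G * H * E * a N = G * H * a N * E by ring,
      show (N : ℂ) * (√(N : ℝ) : ℝ) * (F * E) = N * (√(N : ℝ) : ℝ) * F * E by ring,
      mul_div_mul_right _ _ h5, mul_div_assoc]
  · obtain ⟨-, e', he', hy2⟩ := hE
    have e1 : Complex.exp (-(Real.pi * Complex.I * f)) ^ 2 = 1 := by
      rw [← Complex.exp_nat_mul]
      have : ((2 : ℕ) : ℂ) * -(Real.pi * Complex.I * f) = (-f : ℤ) * (2 * Real.pi * Complex.I) := by
        push_cast
        ring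
      rw [this, Complex.exp_int_mul_two_pi_mul_I]
    exact ⟨e', he', by rw [hu0, mul_pow, e1, one_mul, hy2]⟩

/-! ### assembly -/

theorem t_LPXcs (hAL : ALc) (h : S_E5r) : LPXcs := fun h1 h2 =>
  LPXs.tLPXs hAL Pool.Agent.H494.AR.tT3a Pool.Agent.H903.AR.tT3s h Pool.Agent.H289.AR.tE5
    Pool.Agent.H263.AR.tE1 Pool.Agent.H139.AR.tE2 Pool.Agent.H181.AR.tE3 Pool.Agent.H189.AR.tE4
    Pool.Agent.H653.AR.Q.tQ Pool.Agent.H200.AR.tT1 Pool.Agent.H276.AR.tT2 Pool.Agent.H379.AR.tT2b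
    t_LC t_GAM Pool.Agent.Q162.HX.task_FLAP Pool.Agent.Q162.HX.task_GX Pool.Agent.Q202.HX2.task_UA
    Pool.Agent.Q202.HX2.task_PX h1 h2

theorem t_AXs (hAL : ALc) (h : S_E5r) : AXs :=
  ASXs.tASXs (t_LPXcs hAL h) t_LC t_GAM Pool.Agent.Q176.HT.task_BMO
    (t_Blk Pool.Agent.Q24.HT.task_LTd Pool.Agent.Q24.HT.task_TBI) t_LMO
    Pool.Agent.Q176.HT.task_ZZ Pool.Agent.Q210.HU.task_NW0b Pool.Agent.Q237.HT.task_GPX
    Pool.Agent.Q237.HT.task_MPX t_BNb Pool.Agent.Q210.HU.task_NWb Q299.task_SDN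
    Pool.Agent.Q239.KN.task_LAP _root_.Q299.KN.Gim.task_GIM Q239.task_MXN
    Q299.task_BXN Q239.task_LPN Pool.Agent.Q24.HT.task_LTd

/-- **Full asymptotic expansion with coefficients in the field.** -/
theorem exQ (hAL : ALc) (hE5r : S_E5r) (D : List Pc) (h1 : Val D 1) (h2 : Pri D 1) (h3 : D ≠ [])
    (a : Fin D.length → Fin 6 → ℝ) (ha : Mx D a) (hq : Dm D a) :
    ∃ ρ0 : ℝ, 0 < ρ0 ∧ ∀ ρ : ℝ, 0 < ρ → ρ ≤ ρ0 → ∃ W0 C : ℝ, 1 ≤ W0 ∧
    ∀ (f : Fin D.length → Bool × ℕ) (Wm : ℝ), W0 ≤ Wm → (∀ k, Wm ≤ (f k).2) →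
    ∃ x : Fin D.length → Fin 6 → ℂ, CrI D (wf f) x ∧ (∀ s i, ‖x s i - a s i‖ < ρ) ∧
      (∀ x', CrI D (wf f) x' → (∀ s i, ‖x' s i - a s i‖ < ρ) → x' = x) ∧
      (∀ s, 0 < (n1 (x s) - n2 (x s)).im) ∧ VI x = 2 * Real.pi * (PI (wf f) x).re ∧
      |VI x - 2 * Real.pi * fV a| ≤ C / Wm ^ 2 ∧
      ∃ y : ℕ → ℂ, y 0 ≠ 0 ∧ Xp (fun N : ℕ => kas N D f /
        (N * √N * Complex.exp (N * (PI (wf f) x - Complex.I * Real.pi * tot f / 4)))) y ∧
        (∀ E : Subfield ℂ, (∀ s i, Complex.exp (pI * x s i) ∈ E) → Ag E y) ∧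
        ∀ s i, IsAlgebraic ℚ (Complex.exp (pI * x s i)) := by
  obtain ⟨ρ0, hρ0, H⟩ := FINs.tFINs (t_AXs hAL hE5r) Pool.Agent.Q206.HT.task_NE
    Pool.Agent.Q239.HU.task_NOb
    Pool.Agent.Q239.HU.task_NDM Pool.Agent.Q151.HU.task_FAR (t_FS Pool.Agent.Q79.HU.task_TWS)
    (Pool.Agent.Q79.HU.task_BBn Pool.Agent.Q208.HT.task_EV t_PF t_WR
      (t_SB Pool.Agent.Q79.HU.task_TWS) t_TW)
    Pool.Agent.Q261.HT.task_NR
    (Pool.Agent.Q261.HT.task_NZ t_PF t_WR Pool.Agent.Q208.KN.task_SY)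
    (Q166.task_NT t_LC) Q166.task_NDi
    (Pool.Agent.Q206.HT.task_VF t_LC Pool.Agent.Q239.KN.task_BW) D h1 h2 h3 a ha hq
  refine ⟨ρ0, hρ0, fun ρ hρ hρ' => ?_⟩
  obtain ⟨W0, C, hW0, G⟩ := H ρ hρ hρ'
  refine ⟨W0, C, hW0, fun f Wm hWm hf => ?_⟩
  obtain ⟨x, g1, g2, g3, g4, g5, g6, y, hy, g7, g8, g9⟩ := G (wf f) Wm hWm fun k => by
    rw [Pool.Agent.Q99.HU.wf_abs]
    exact hf k
  obtain ⟨u, hu, k1, k2⟩ := ph_xpQ D h1 f _ y hy g7
    (fun E => ∀ s i, Complex.exp (pI * x s i) ∈ E) g8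
  exact ⟨x, g1, g2, g3, g4, g5, g6, u, hu, k1, k2, g9⟩

end Pool.Agent.H760.AR
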