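import Pool.Graph.R_seed8.Y472.L.Naj
import Pool.Graph.R_seed8.Y936.TKX.Gbd
import Pool.Graph.R_seed8.Y904.TA.Jta
import Pool.Graph.R_seed8.Y904.TA.Jtb
import Pool.Graph.R_seed8.Y769.TA.Jtd
import Pool.Graph.R_seed8.Y372.TA.Wj
import Pool.Graph.R_seed8.Y814.TA.Gm
import Pool.Graph.R_seed8.Y814.TA.Qmx

/-!
# The coefficients of the expansions for highly twisted knots are in the trace field: statements

`Jt E κ p₀ m k₀ f` (`Pool/Graph/R_seed8/Y472/L/Defs.lean`): `f` is analytic at `p₀` and its Taylor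
coefficients of the orders `≥ k₀` are polynomials over `E` in the scaled coordinates `2 π i t_a`,
times `(2 π i)^m`.  The calculus of this class is proved in the library:
`Pool.Agent.Y904.TA.jta : S_JTA`, `Pool.Agent.Y904.TA.jtb : S_JTB`, `Pool.Agent.Y769.TA.jtd : S_JTD`,
`Pool.Agent.Y372.TA.wj : S_WJ`, `Pool.Agent.Y814.TA.qmx : S_QMX`, `Pool.Agent.Y814.TA.gm : S_GM`,
`Pool.Agent.Y472.L.sclj` (Laplace's method with explicit coefficients, needs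
`Pool.Agent.Y936.TKX.gbd : S_GBD`).
-/

set_option autoImplicit false

namespace Pool.Agent.H760.AR

open Finset Filter Topology MeasureTheory
open Pool.Agent.Y472.L (pI Jt HP TP mn tc)

/-- full asymptotic expansion in powers of `1 / N` -/
def XP (a : ℕ → ℂ) (y : ℕ → ℂ) : Prop :=
  ∀ K : ℕ, ∃ C : ℝ, ∀ᶠ N : ℕ in atTop, ‖a N - ∑ k ∈ range K, y k / (N : ℂ) ^ k‖ ≤ C / (N : ℝ) ^ K

/-- the strip -/
def SS : Set ℂ := {x | 0 < x.re ∧ x.re < 1}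

/-- `π cot π x` -/
noncomputable def cc (x : ℂ) : ℂ :=
  Real.pi * (Complex.cos (Real.pi * x) / Complex.sin (Real.pi * x))

/-- `f`, a function of the first variables, is in the class `Jt` at `0` -/
def JJ {ι : Type} [Fintype ι] (E : Subfield ℂ) (κ : ℂ) (m : ℤ) (k₀ : ℕ) (f : (ι → ℂ) → ℂ) : Prop :=
  Jt E κ ((0 : ι → ℂ), (0 : ℂ)) m k₀ fun p => f p.1

/-- linear forms with rational coefficients -/
noncomputable def lin {ι : Type} [Fintype ι] (ℓ : ι → ℚ) (v : ι → ℂ) : ℂ := ∑ i, (ℓ i : ℂ) * v i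

/-- the coefficients `y j` are in `(2 π i)^j E y 0` -/
def Ar (E : Subfield ℂ) (y : ℕ → ℂ) : Prop := ∀ j, ∃ e ∈ E, y j = pI ^ j * e * y 0

/-- **T1: rational integrals.**  (Mathlib only.)

Proof.  By the binomial theorem `(s + I t)^m - (s - I t)^m = ∑_{j odd} (m choose j) s^{m-j} 2 I^j t^j`,
and `I * I^j = ± 1` for odd `j`.  So it is enough to show that `∫_0^∞ t^j / (exp (2 π t) + 1) dt` is
rational for odd `j ≥ 1` (and the integrands are integrable).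
`1 / (exp (2 π t) + 1) = ∑_{n ≥ 1} (-1)^{n-1} exp (-2 π n t)` for `t > 0`,
`∫_0^∞ t^j exp (-2 π n t) dt = j! / (2 π n)^{j+1}` (`hasSum_integral_of_summable_integral_norm`:
`∑_n j! / (2 π n)^{j+1} < ∞`), so the integral is
`j! / (2 π)^{j+1} ∑_{n≥1} (-1)^{n-1} / n^{j+1} = j! (1 - 2^{-j}) ζ(j+1) / (2 π)^{j+1}`, and `ζ(j+1)` is a
rational multiple of `π^{j+1}` for even `j + 1` (Mathlib: `hasSum_zeta_nat`, `riemannZeta_two_mul_nat`).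
Alternatively: `1 / (e^x + 1) = 1 / (e^x - 1) - 2 / (e^{2x} - 1)` and Mathlib's integrals for the zeta
function. -/
def S_T1 : Prop := ∀ (s : ℚ) (m : ℕ), ∃ q : ℚ,
  Complex.I * ∫ t in Set.Ioi (0 : ℝ), (((s : ℂ) + Complex.I * t) ^ m -
    ((s : ℂ) - Complex.I * t) ^ m) / ((Real.exp (2 * Real.pi * t) + 1 : ℝ) : ℂ) = (q : ℂ)

/-- **T2: the functions `π cot π x`, `log sin π x` and their relatives.**

`cc x = π cot π x`; `bb' = cc`, `LC' = bb` on the open strip `SS = {0 < Re x < 1}`.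

Proof.  Write `z(v) = exp (2 π i (x + lin ℓ v))`, `z(0) ∈ E`.
(a) `z ∈ JJ 0 0`: along a line `v = s t` it is `z(0) exp (s ∑_i ℓ_i (pI t_i))`, so its Taylor
coefficient of order `k` is `z(0) (∑_i ℓ_i (pI t_i))^k / k! ∈ HP E κ 0 k` (expand the power; or scale
the coordinates, or use products/`S_JTB` for each `i` and `S_JTA`; for instance `exp (pI c v_i)` with
`c` rational directly by its Taylor series).  (b) `cc (x + lin ℓ v) = (pI / 2) (z + 1) / (z - 1)`, and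
`z(0) ≠ 1` because `sin π x ≠ 0`; so `cc (x + lin ℓ v) = pI * g`, `g ∈ JJ 0 0`, by `S_JTA` (constants,
sums, products, inverses, `pI ^ l`).  (c) `cc' = -(π² + cc²)`, i.e. `(cc / pI)' = pI (1/4 - (cc/pI)²)`,
so `iteratedDeriv k cc = pI^(k+1) P_k (cc / pI)` near `x` with polynomials `P_k ∈ ℚ[X]`, `P_0 = X`,
`P_{k+1} = P_k' (1/4 - X²)`; closure under sums and products.  (d) `log (sin π (x + lin ℓ v) / sin π x)`
has along lines the derivative `∑_a (pI t_a) (ℓ_a pI^{-1} cc (x + lin ℓ v))`; `S_JTD` (1) with `m = 0`.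
(e) the same for `bb` if `x ∈ SS`.  (f) `LC` has along lines the second derivative
`∑_{a,b} (pI t_a) (pI t_b) (ℓ_a ℓ_b pI^{-2} cc (x + lin ℓ v))`, and `pI^{-2} cc ∈ JJ (-1) 0`;
`S_JTD` (2) with `m = -1`. -/
def S_T2 : Prop := ∀ (bb LC : ℂ → ℂ), (∀ x ∈ SS, HasDerivAt LC (bb x) x) →
  (∀ x ∈ SS, HasDerivAt bb (cc x) x) → ∀ (ι : Type) [Fintype ι] (E : Subfield ℂ) (κ : ℂ), κ ≠ 0 →
  ∀ (x : ℂ) (ℓ : ι → ℚ), Complex.exp (pI * x) ∈ E → Complex.sin (Real.pi * x) ≠ 0 →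
  (∀ k : ℕ, JJ E κ ((k : ℤ) + 1) 0 fun v : ι → ℂ => iteratedDeriv k cc (x + lin ℓ v)) ∧
  (JJ E κ 0 1 fun v : ι → ℂ =>
    Complex.log (Complex.sin (Real.pi * (x + lin ℓ v)) / Complex.sin (Real.pi * x))) ∧
  (x ∈ SS → (JJ E κ 0 1 fun v : ι → ℂ => bb (x + lin ℓ v)) ∧
    JJ E κ (-1) 2 fun v : ι → ℂ => LC (x + lin ℓ v))

/-- **T2b: quadratic polynomials.**

Proof.  Along a line `v = s t` the function is `a + b (s L) + c pI (x + s L)^2` with `L = ∑_i ℓ_i t_i`;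
the Taylor coefficient of order `2` is `c pI L^2 = c pI^{-1} (∑_i ℓ_i (pI t_i))^2 ∈ HP E κ (-1) 2`, those
of the orders `≥ 3` are `0`. -/
def S_T2b : Prop := ∀ (ι : Type) [Fintype ι] (E : Subfield ℂ) (κ : ℂ), κ ≠ 0 →
  ∀ (a b x : ℂ) (c : ℚ) (ℓ : ι → ℚ),
  JJ E κ (-1) 2 fun v : ι → ℂ => a + b * lin ℓ v + (c : ℂ) * pI * (x + lin ℓ v) ^ 2

/-- **T3a: the two real quadratic forms of an analytic function.**

The dummy variable: `Ψ p = q p.1 - p.2 ^ 2` satisfies the hypotheses `AX` of the library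
(`Pool/Graph/R_seed8/Y472/K/DefsX.lean`; `cst v` is the complexification of the real vector `v`).

Proof.  Let `B = ` second derivative of `q` at `0` (a symmetric bilinear form; `q` is analytic, for
instance `B u v = fderiv (fderiv q · u) 0 v`, or from the power series / `iteratedFDeriv`), and
`R u = - Re B(u,u)/2 + u.2²`, `S u = - Im B(u,u)/2` for real `u` (only `u.1` enters `B`).  Taylor's
formula of order 3 gives `tay` (`q 0 = 0`, `fderiv q 0 = 0`).  `R` is positive definite, because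
`Re q(s u) ≤ -κ s² ∑ u_i²` for small real `s` gives `Re B(u,u)/2 ≤ -κ ∑ u_i²`. -/
def S_T3a : Prop := ∀ (ι : Type) [Fintype ι] [DecidableEq ι] (R κ : ℝ), 0 < R → 0 < κ →
  ∀ q : (ι → ℂ) → ℂ, AnalyticOnNhd ℂ q (Metric.ball 0 R) → q 0 = 0 → fderiv ℂ q 0 = 0 →
  (∀ x : ι → ℝ, (∀ i, |x i| < R) → (q fun i => x i).re ≤ -κ * ∑ i, x i ^ 2) →
  ∃ Q S : QuadraticForm ℝ ((ι → ℝ) × ℝ),
    Pool.Agent.Y472.K.AX (fun p : (ι → ℂ) × ℂ => q p.1 - p.2 ^ 2) (0 : ι → ℝ) 0 Q S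

/-- **T3: the coefficients of Laplace's method are in the field.**

Proof.  Let `Ψ p = q p.1 - p.2 ^ 2`, `κ₀ ^ 2 = -pI`, so that `-p.2 ^ 2 = pI⁻¹ (κ₀ p.2)^2` and
`Ψ ∈ Jt E κ₀ 0 (-1) 2` (sum of `JJ` and of a monomial).  `T3a` gives `AX Ψ 0 0 Q S`.  Fix `K ≥ 1`,
`τ' l p = τ l p.1`.  `sclj` (`Pool/Graph/R_seed8/Y472/L/Naj.lean`) gives for small boxes (`ρ = ρ'`)
`√N^{n+1} ∫_{bx ρ ρ'} exp (N Ψ + ∑_{l<K} τ_l / N^l) = ∑_{j<K} cf (2j) / N^j + O(N^{-K})`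
with `cf (2 j) = ∫ iteratedDeriv (2 j) (Ef …) 0 / (2 j)!`.  By Fubini the integral is the product of
`∫_{|x_i| ≤ ρ} exp (N q + ∑ τ_l / N^l)` and `∫_{-ρ'}^{ρ'} exp (-N y²) dy`, and `√N` times the last one
is `√π + O(e^{-c N})`.  Replacing `exp (∑_{l<K} τ_l / N^l)` by `H N` changes the integral by
`O(N^{-K})` (`‖e‖ ≤ C/N^K`, and `√N^n ∫ exp (-κ N ∑ x_i²)` is bounded), and replacing the box of size
`η` by the smaller one of size `ρ` changes it by `O(e^{-c N})` (`H` is bounded on the box).  So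
`√π ∑_{j<K} y j / N^j = ∑_{j<K} cf (2 j) / N^j + O(N^{-K})`, hence `√π y j = cf (2 j)` for `j < K`
(uniqueness: `Pool.Agent.Y472.L.coef_uniq` in `Y472/L/Asm.lean`, or directly).  By `S_WJ` the integrand
of `cf (2 j)` is `exp (tc Ψ 0 2 t + τ_0(0)) W_j t`, `W_j ∈ TP E κ₀ (2 j)`, and `tc Ψ 0 2 t = -(Q t + i S t)`
(as in `tc_two` of `Y472/L/Asm.lean`); by `S_QMX`, `S_GM`
`cf (2 j) = pI^j e_j exp (τ_0 0) ∫ exp (tc Ψ 0 2)` with `e_j ∈ E`.  As `y 0 ≠ 0`, `e_0 ≠ 0`, and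
`y j = pI^j (e_j / e_0) y 0`.  (Compare `xpa_of` in `Y472/L/Asm2.lean`.) -/
def S_T3 : Prop := S_T3a → ∀ (ι : Type) [Fintype ι] [DecidableEq ι] (R κ : ℝ), 0 < R → 0 < κ →
  ∀ (q : (ι → ℂ) → ℂ) (H : ℕ → (ι → ℂ) → ℂ), AnalyticOnNhd ℂ q (Metric.ball 0 R) →
  q 0 = 0 → fderiv ℂ q 0 = 0 →
  (∀ x : ι → ℝ, (∀ i, |x i| < R) → (q fun i => x i).re ≤ -κ * ∑ i, x i ^ 2) →
  (∀ᶠ N : ℕ in atTop, ContinuousOn (H N) (Metric.ball 0 R)) →
  (∃ B : ℝ, ∀ᶠ N : ℕ in atTop, ∀ v ∈ Metric.ball (0 : ι → ℂ) R, ‖H N v‖ ≤ B) →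
  ∀ τ : ℕ → (ι → ℂ) → ℂ,
  (∀ K : ℕ, ∃ r C : ℝ, 0 < r ∧ ∀ᶠ N : ℕ in atTop, ∀ v ∈ Metric.ball (0 : ι → ℂ) r,
    ∃ e : ℂ, ‖e‖ ≤ C / (N : ℝ) ^ K ∧
      H N v = Complex.exp (∑ l ∈ range K, τ l v / (N : ℂ) ^ l + e)) →
  ∀ (E : Subfield ℂ) (κ₀ : ℂ), κ₀ ^ 2 = -pI → JJ E κ₀ (-1) 2 q →
  (∀ l : ℕ, JJ E κ₀ l (if l = 0 then 1 else 0) (τ l)) →
  ∀ η : ℝ, 0 < η → η < R → ∀ y : ℕ → ℂ, y 0 ≠ 0 →
  XP (fun N => ((√N : ℝ) : ℂ) ^ Fintype.card ι * ∫ x in {x : ι → ℝ | ∀ i, |x i| ≤ η},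
    Complex.exp (N * q fun i => x i) * H N fun i => x i) y → Ar E y

end Pool.Agent.H760.AR
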