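import Pool.Agent.H760.AR.G
import Pool.Graph.R_pool_sql_team_seeded_3997aac3.Q162.HX.GX
import Pool.Graph.R_pool_sql_team_seeded_3997aac3.Q202.HX2.PX
import Pool.Graph.R_pool_sql_team_seeded_3997aac3.Q176.HX.LPX
import Pool.Graph.R_pool_sql_team_seeded_3997aac3.Q99.HX.Fin
import Pool.Graph.R_pool_sql_team_seeded_3997aac3.Q99.HU.Stm2

/-!
# The coefficients of the expansions for highly twisted knots are in the trace field: statements,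
part 2 (the library of highly twisted links)
-/

set_option autoImplicit false

namespace Pool.Agent.H760.AR

open Finset Filter Topology MeasureTheory
open Pool.Agent.Q99.KN (bb ct St LC S_LC S_GAM Gm S_LAP S_GIM)
open Pool.Agent.Q99.HX (Xp Sd UA S_UA S_GX S_PX S_LPX S_FLAP AXc)
open Pool.Agent.Q99.HT
open Pool.Agent.Q99.HU
open Pool.Agent.Y472.L (pI Jt HP TP mn tc)
open Pool.Agent.Q202.HX2 (Gt)
open Pool.Agent.Q251.KN (fz Eg)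
open Pool.Agent.Q176.HX (cT cJ cZ qq HH)
open Pool.Agent.Q191.LB (sg)
open Pool.Agent.Q191.TW (cs)
open Pool.Agent.Q99.FW (Kg)
open Pool.Agent.W715.VC (rt)
open Pool.Agent.W709.QAT (Piece run)
open Pool.Agent.Q99.FAL (Pc Ty Val Pri Pos AS Sol Out c6 fV n1 n2 cor dn)

/-- the logarithm of `H N` has near `0` an expansion with coefficients in the class -/
def EX {ι : Type} [Fintype ι] (E : Subfield ℂ) (κ₀ : ℂ) (H : ℕ → (ι → ℂ) → ℂ) : Prop :=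
  ∃ τ : ℕ → (ι → ℂ) → ℂ, (∀ l : ℕ, JJ E κ₀ l (if l = 0 then 1 else 0) (τ l)) ∧
  ∀ K : ℕ, ∃ r C : ℝ, 0 < r ∧ ∀ᶠ N : ℕ in atTop, ∀ v ∈ Metric.ball (0 : ι → ℂ) r,
    ∃ e : ℂ, ‖e‖ ≤ C / (N : ℝ) ^ K ∧
      H N v = Complex.exp (∑ l ∈ range K, τ l v / (N : ℂ) ^ l + e)

/-- affine functions with a rational linear part and the exponential of the constant in the field -/
def Af {ι : Type} [Fintype ι] (E : Subfield ℂ) (g : (ι → ℂ) → ℂ) : Prop :=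
  ∃ (x : ℂ) (ℓ : ι → ℚ), Complex.exp (pI * x) ∈ E ∧ ∀ v, g v = x + lin ℓ v

/-- **AR-E1: closure properties of `EX` and `Af`.**

Proof.  Constants: `τ 0 = log c`, `τ l = 0` for `l ≥ 1` (`Pool.Agent.Y904.TA.jta : S_JTA`, the constant
function is in `Jt m 1`, `0 ∈ Jt m 0` by `HP` submodule).  Products: add the `τ`'s, the smaller `r`, the
sum of the constants `C`.  Finite products: induction (the empty product is `1`).  Equality near `0`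
for large `N`: the same `τ`.  `Af`: `exp (pI (x + y)) = exp (pI x) exp (pI y)`, `exp (pI (-x))` is the
inverse, `lin` is additive; `exp (pI 1) = 1`, `exp (pI / 2) = -1`. -/
def S_E1 : Prop := ∀ (ι : Type) [Fintype ι] (E : Subfield ℂ) (κ₀ : ℂ), κ₀ ≠ 0 →
  (∀ c : ℂ, c ≠ 0 → EX E κ₀ (fun (_ : ℕ) (_ : ι → ℂ) => c)) ∧
  (∀ H H' : ℕ → (ι → ℂ) → ℂ, EX E κ₀ H → EX E κ₀ H' → EX E κ₀ fun N v => H N v * H' N v) ∧
  (∀ (σ : Type) (s : Finset σ) (H : σ → ℕ → (ι → ℂ) → ℂ), (∀ i ∈ s, EX E κ₀ (H i)) →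
    EX E κ₀ fun N v => ∏ i ∈ s, H i N v) ∧
  (∀ (H H' : ℕ → (ι → ℂ) → ℂ) (r : ℝ), 0 < r →
    (∀ᶠ N : ℕ in atTop, ∀ v ∈ Metric.ball (0 : ι → ℂ) r, H N v = H' N v) → EX E κ₀ H → EX E κ₀ H') ∧
  (∀ g h : (ι → ℂ) → ℂ, Af E g → Af E h → Af E (fun v => g v + h v) ∧ Af E (fun v => g v - h v)) ∧
  (Af E (fun _ : ι → ℂ => 1)) ∧ (Af E (fun _ : ι → ℂ => 1 / 2)) ∧ (Af E (fun _ : ι → ℂ => 0))

/-- **AR-E2: the quantum dilogarithm.**  `Gt s N x = Gm N (x + s/N) exp (- N LC x)`.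

Proof.  `Gt s N x = exp (N (LC (x + s/N) - LC x) + I RI N (x + s/N))` (`Gm_eq`, see the end of
`task_GX` in `Pool/Graph/R_pool_sql_team_seeded_3997aac3/Q162/HX/GX.lean`), and by `ux1`, `ux2` there,
uniformly on `Sd δ` (open), the exponent is `∑_{k<K} τ_k(x) / N^k + O(N^{-K})` with
`τ_k x = co (δ/2) (LC (x + ·)) (k+1) s^{k+1} + I (co (δ/2) (bb (x + ·)) k ∫ pm s k)`
(`W67.AX.uxadd` or the triangle inequality).  `co (δ/2) F m = iteratedDeriv m F 0 / m!` (Cauchy's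
formula; or: both are the Taylor coefficients of `F`, uniqueness of Taylor coefficients, `taylor_norm`
in `Pool/Graph/R_seed8/W762/AX/Tay.lean`), so with `LC' = bb`, `bb' = ct` on `St` (`S_LC`)
`τ_0 = s bb x` (`pm s 0 = 0`) and for `k ≥ 1`
`τ_k x = iteratedDeriv (k-1) ct x (s^{k+1}/(k+1)! + (I ∫ pm s k)/k!)`, where `I ∫ pm s k` is rational by
`S_T1` (`wt t = exp (2 π t) + 1`).  Now compose with `g v = x + lin ℓ v`, `x = g 0` (`lin ℓ 0 = 0`), `v` in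
a small ball, and apply `S_T2` (`cc = ct`, `SS = St`): `τ_0 ∘ g ∈ JJ 0 1`, `τ_k ∘ g ∈ JJ k 0`; rational
factors are in `E` (`Pool.Agent.Y904.TA.jta`). -/
def S_E2 : Prop := S_T1 → S_T2 → S_LC → S_GAM →
  ∀ (ι : Type) [Fintype ι] (E : Subfield ℂ) (κ₀ : ℂ), κ₀ ≠ 0 →
  ∀ (g : (ι → ℂ) → ℂ) (s : ℚ) (δ : ℝ), 0 < δ → Af E g → g 0 ∈ Sd δ →
  EX E κ₀ fun N v => Gt (s : ℝ) N (g v)

/-- **AR-E3: the factor of a twist region.**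
`fz N Z = π / I sin (π Z) / (1 - Eg N Z)^2`, `‖Eg N Z‖ = exp (- π N Im Z)` (`eg_norm`).

Proof.  `Im (g v) ≥ y > 0` for `v` in a small ball, so `Eg N (g v)` is exponentially small, and
`(1 - Eg)^{-2} = exp (- 2 log (1 - Eg))`, `|2 log (1 - Eg)| ≤ 4 |Eg| ≤ N^{-K}`.
`π / I sin (π g v) = (π / I sin (π g 0)) exp (log (sin (π g v) / sin (π g 0)))` (`sin (π g 0) ≠ 0`, because
`Im g 0 > 0`), and the last logarithm is in `JJ 0 1` by `S_T2`; the constant factor is in `τ_0`. -/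
def S_E3 : Prop := S_T2 → S_LC →
  ∀ (ι : Type) [Fintype ι] (E : Subfield ℂ) (κ₀ : ℂ), κ₀ ≠ 0 →
  ∀ g : (ι → ℂ) → ℂ, Af E g → 0 < (g 0).im → EX E κ₀ fun N v => fz N (g v)

variable {c d : ℕ}

/-- the exponentials of the coordinates of the critical point are in the field -/
def Gn (X : Nw c d) (T : Fin d → ℂ) (J ζ : Fin c → ℂ) (E : Subfield ℂ) : Prop :=
  ∀ s, Complex.exp (pI * (ζ s / 2)) ∈ E ∧ ∀ k, Complex.exp (pI * X.v T J s k) ∈ E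

/-- **AR-E4: the amplitude.**

Proof.  `HH X T J ζ N v = ∏ s, fz N (cZ X ζ v s) * Am N (X.α s) (X.q0 s) (X.v (cT X T v) (cJ X J v) s)
(cZ X ζ v s)`.  All coordinates `X.v (cT X T v) (cJ X J v) s k`, `cZ X ζ v s / 2` are affine functions of
`v` with rational linear parts and the values at `v = 0` of `Gn` (`Q176/HX/LPXA.lean`), hence `Af E`; so
are `nz (cZ X ζ v s) i` (`= 1/2 ± ζ/2`), `lf (…) i` (sums and differences of coordinates).  For large `N`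
and `v` near `0`, as in the proof of `task_PX` (`Q202/HX2/PX.lean`, the equality `e` with `br_eq`,
`lf_shift`, and the lemma `args_Sd` / `hmem`)
`Am N α q0 p.1 p.2 = ∏ i, if ctr α i = 0 then 1 else Gt 0 N (nz p.2 i) * (Gt (-(sh q0 i)) N (1 - nz p.2 i
+ lf p.1 i) * Gt (sh q0 i - 1/2) N (1 - lf p.1 i))`, `sh q0 i` integers.  `S_E1`, `S_E2` (with `δ = r`),
`S_E3` (`Af` for `cZ = cZ/2 + cZ/2`). -/
def S_E4 : Prop := S_E1 → S_E2 → S_E3 → S_T1 → S_T2 → S_LC → S_GAM → ∀ (c d : ℕ) (X : Nw c d)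
  (r κ K C0 : ℝ) (T : Fin d → ℂ) (J ζ : Fin c → ℂ), (∀ s, Fr (X.α s)) →
  (∀ s, Blk (X.α s) r κ K C0) → X.Rg (r / 2) T J ζ → (∀ s, 0 < (ζ s).im) →
  ∀ (E : Subfield ℂ) (κ₀ : ℂ), κ₀ ≠ 0 → Gn X T J ζ E → EX E κ₀ (HH X T J ζ)

/-- **AR-Q: the exponent.**

Proof.  `qq X w T J ζ v = Ph (crit + v) - Ph crit`, `Ph = ∑_s (PE + I π w ζ²/4 + I π ζ)`,
`PE α v ζ = ∑_i if ctr α i = 0 then 0 else LC (nz ζ i) - LC (nz ζ i - lf v i) - LC (lf v i)`.  The arguments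
are affine functions of `v` with rational linear parts, whose values at `v = 0` have exponentials in
`E` (see AR-E4) and are in `St` (`nz_St`, `nl_St`, `lf_St` in `Q176/HX/LPXA.lean`, `Q99/HU/Q239`).  `S_T2`
for `LC`, `S_T2b` for the quadratic part, `S_JTA` for sums. -/
def S_Q : Prop := S_E1 → S_T2 → S_T2b → S_LC → ∀ (c d : ℕ) (X : Nw c d) (r κ K C0 : ℝ)
  (w : Fin c → ℤ) (T : Fin d → ℂ) (J ζ : Fin c → ℂ), (∀ s, Fr (X.α s)) →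
  (∀ s, Blk (X.α s) r κ K C0) → X.Rg r T J ζ →
  ∀ (E : Subfield ℂ) (κ₀ : ℂ), κ₀ ≠ 0 → Gn X T J ζ E → JJ E κ₀ (-1) 2 (qq X w T J ζ)

/-- **AR-LPX: the integral.**

Proof.  Copy `Pool/Graph/R_pool_sql_team_seeded_3997aac3/Q176/HX/LPX.lean` (`task_LPX`, 350 lines, the
lemmas before it can be imported).  Keep `η0 < R` from `S_FLAP`.  After `obtain ⟨y, hy⟩ := hfl …` the
same `y` works: for `E` with `Gn`, `y 0 ≠ 0`, apply `S_T3` (`XP = Xp` by definition) with `κ₀` a square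
root of `-pI` to `qq`, `HH`: all hypotheses were shown for `S_FLAP`; `S_Q` (note `hrg : X.Rg r T J ζ`,
`X.Okb` has the field `fr`); the bound of `HH N` on the ball follows from `HH_UA` (`UX` for `K = 0`);
`S_E4` (`hrg2 : X.Rg (r/2) T J ζ`) gives `τ`. -/
def S_LPXE : Prop := S_T3a → S_T3 → S_E1 → S_E2 → S_E3 → S_E4 → S_Q → S_T1 → S_T2 → S_T2b →
  S_LC → S_GAM → S_FLAP → S_GX → S_UA → S_PX → S_MXNb → S_BXNb →
  ∀ (c d : ℕ) (X : Nw c d), X.Okb →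
  ∀ r κ K C0 : ℝ, (∀ s, Blk (X.α s) r κ K C0) → ∃ δ0 : ℝ, 0 < δ0 ∧ ∀ δ : ℝ, 0 < δ → δ ≤ δ0 →
  ∃ ρ : ℝ, 0 < ρ ∧ ∀ (w : Fin c → ℤ) (T : Fin d → ℂ) (J ζ : Fin c → ℂ), X.Cr w T J ζ →
  X.Nr ρ T J ζ → (∀ s, 0 < (ζ s).im) → ∃ y : ℕ → ℂ,
  Xp (fun N : ℕ => ((√N : ℝ) : ℂ) ^ X.nA / ((√N : ℝ) : ℂ) ^ Fintype.card X.Ix *
    (-1) ^ (c * (N - 1)) * Complex.exp (-(N * X.Ph w T J ζ)) * (N ^ d *
    ∫ x in X.bx δ N, ∏ s, FZ r N (X.α s) (w s) (ζ s).im (J s).im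
      (X.xN N (fun j => x j + (T j).im * Complex.I) s))) y ∧
  ∀ E : Subfield ℂ, Gn X T J ζ E → y 0 ≠ 0 → Ar E y

/-- the conclusion of `S_LPXE` -/
def LPXc : Prop := S_MXNb → S_BXNb →
  ∀ (c d : ℕ) (X : Nw c d), X.Okb →
  ∀ r κ K C0 : ℝ, (∀ s, Blk (X.α s) r κ K C0) → ∃ δ0 : ℝ, 0 < δ0 ∧ ∀ δ : ℝ, 0 < δ → δ ≤ δ0 →
  ∃ ρ : ℝ, 0 < ρ ∧ ∀ (w : Fin c → ℤ) (T : Fin d → ℂ) (J ζ : Fin c → ℂ), X.Cr w T J ζ →
  X.Nr ρ T J ζ → (∀ s, 0 < (ζ s).im) → ∃ y : ℕ → ℂ,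
  Xp (fun N : ℕ => ((√N : ℝ) : ℂ) ^ X.nA / ((√N : ℝ) : ℂ) ^ Fintype.card X.Ix *
    (-1) ^ (c * (N - 1)) * Complex.exp (-(N * X.Ph w T J ζ)) * (N ^ d *
    ∫ x in X.bx δ N, ∏ s, FZ r N (X.α s) (w s) (ζ s).im (J s).im
      (X.xN N (fun j => x j + (T j).im * Complex.I) s))) y ∧
  ∀ E : Subfield ℂ, Gn X T J ζ E → y 0 ≠ 0 → Ar E y

/-- the conclusion of `S_ASX` with the field -/
def AXe : Prop := ∀ (c d : ℕ) (X : Nw c d), X.Okb → X.Far →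
  (∀ s, ∃ κ C0 ρ : ℝ, 0 < κ ∧ 0 < ρ ∧ Ltn (X.α s) κ C0 ρ) → ∃ ρ0 : ℝ, 0 < ρ0 ∧ ∀ ρ : ℝ, 0 < ρ →
  ρ ≤ ρ0 → ∃ W0 C : ℝ, 1 ≤ W0 ∧ ∀ (w : Fin c → ℤ) (Wm : ℝ), W0 ≤ Wm → (∀ s, Wm ≤ |(w s : ℝ)|) →
  ∃ (T : Fin d → ℂ) (J ζ : Fin c → ℂ), X.Cr w T J ζ ∧ X.Nr ρ T J ζ ∧ (∀ s, 0 < (ζ s).im) ∧
    |(X.Ph w T J ζ).re - ∑ s, v0 (X.α s)| ≤ C / Wm ^ 2 ∧
    (∀ (T' : Fin d → ℂ) (J' ζ' : Fin c → ℂ), X.Cr w T' J' ζ' → X.Nr ρ T' J' ζ' →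
      T' = T ∧ J' = J ∧ ζ' = ζ) ∧
    ∃ y : ℕ → ℂ, y 0 ≠ 0 ∧ Xp (fun N : ℕ => ((√N : ℝ) : ℂ) ^ X.nA /
      ((√N : ℝ) : ℂ) ^ Fintype.card X.Ix * (-1) ^ (c * (N - 1)) *
      Complex.exp (-(N * X.Ph w T J ζ)) * X.Z N w) y ∧ ∀ E : Subfield ℂ, Gn X T J ζ E → Ar E y

/-- **AR-ASX: the state sum.**

Proof.  Copy `Pool/Graph/R_pool_sql_team_seeded_3997aac3/Q176/HX/ASX.lean` (`task_ASX`, 233 lines), with
`LPXc` (applied to `hMXN hBXN`) instead of `hLPX …`; the same `y`, `Xp.add_small` does not change it. -/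
def S_ASXE : Prop := LPXc → S_LC → S_GAM → S_BMO →
  (∀ α : Fin 6 → ℝ, Fr α → ∃ r κ K C0 : ℝ, Blk α r κ K C0) → S_LMO → S_ZZ → S_NW0b → S_GPX →
  S_MPX → BNcb → S_NWb → S_SDNb → S_LAP → S_GIM → S_MXNb → S_BXNb → S_LPNb → S_LTd → AXe

/-- **AR-FIN: the state sum of a link.**

Proof.  Copy `Pool/Graph/R_pool_sql_team_seeded_3997aac3/Q99/HX/Fin.lean` (`fin_hx`, 150 lines) with `AXe`
instead of `AXc`; `y = z` there and `x s = sx (β s) (1/2) (Y.v T J s) (ζ s)`,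
`sx β h v ζ = bf β ![v 0, v 3, h + ζ/2 - v 0 - v 3, v 2, v 1 - v 3, h - ζ/2 - v 2 - (v 1 - v 3)]`
(`Q99/HT/Stm5.lean`; `bf` exchanges the entries 1, 2 and 4, 5 if `β = false`), so if
`exp (pI x s i) ∈ E` for all `i` then `exp (pI v_k) ∈ E` (`v 1` is the sum of the entries 1 and 4) and
`- exp (pI ζ/2) = exp (pI (1/2 + ζ/2))` is the product for the entries 0, 1, 2: `Gn Y T J ζ E`. -/
def S_FIN : Prop := AXe → ∀ (_ : S_NE) (_ : S_NOb) (_ : S_NDM) (_ : S_FAR) (_ : FSc)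
    (_ : ∀ α : Fin 6 → ℝ, Fr α → α 1 ≤ α 2 → α 4 ≤ α 5 → NdP α →
      ∃ κ C0 ρ : ℝ, 0 < κ ∧ 0 < ρ ∧ Ltn α κ C0 ρ)
    (_ : S_NR) (_ : NZc) (_ : NTcb)
    (_ : S_NDib) (_ : VFc) (D : List Pc) (_ : Val D 1) (_ : Pri D 1) (_ : D ≠ [])
    (a : Fin D.length → Fin 6 → ℝ) (_ : Mx D a) (_ : Dm D a),
    ∃ ρ0 : ℝ, 0 < ρ0 ∧ ∀ ρ : ℝ, 0 < ρ → ρ ≤ ρ0 → ∃ W0 C : ℝ, 1 ≤ W0 ∧
    ∀ (w : Fin D.length → ℤ) (Wm : ℝ), W0 ≤ Wm → (∀ k, Wm ≤ |(w k : ℝ)|) →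
    ∃ x : Fin D.length → Fin 6 → ℂ, CrI D w x ∧ (∀ s i, ‖x s i - a s i‖ < ρ) ∧
      (∀ x', CrI D w x' → (∀ s i, ‖x' s i - a s i‖ < ρ) → x' = x) ∧
      (∀ s, 0 < (n1 (x s) - n2 (x s)).im) ∧ VI x = 2 * Real.pi * (PI w x).re ∧
      |VI x - 2 * Real.pi * fV a| ≤ C / Wm ^ 2 ∧
      ∃ y : ℕ → ℂ, y 0 ≠ 0 ∧ Xp (fun N : ℕ => (N : ℂ) ^ D.length * ZD N D w /
        (N * (√N : ℝ) * ((-1) ^ (D.length * (N - 1)) * Complex.exp (N * PI w x)))) y ∧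
        ∀ E : Subfield ℂ, (∀ s i, Complex.exp (pI * x s i) ∈ E) → Ar E y

/-- **AR-JGQ: the constants in the phase are rational.**

Proof.  Copy `phs_tg`, `gl`, `phs_gl`, `task_JGP` of
`Pool/Graph/R_pool_sql_team_seeded_3997aac3/Q299/HU/JGP.lean` and the lemmas on `Phs` of
`…/Q99/FP2/Al.lean` (`Phs.mul`, `one`, `pow`, `shift`, `phs_nu`, `phs_ep`, `phs_kcup`, `phs_kcap`) with
`∃ β γ : ℚ` instead of `∃ β γ : ℝ` in the definition of `Phs`; also for `Kg` (`phs_Kg`, `phs_all` in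
`…/Q99/HX/Fin2.lean`): second part. -/
def S_JGQ : Prop := (∀ D : List Pc, Val D 1 → ∃ β γ : ℚ, ∀ (N : ℕ) (h : 0 < N)
  (f : Fin D.length → Bool × ℕ),
  run N (rt N) (lnk D f) (fun l => if l = [⟨0, h⟩] then 1 else 0) [⟨0, h⟩] =
    cs N (β * N + γ) * ((-1) ^ (N - 1)) ^ D.length * (∏ k, Kg N (sg (f k).1) ^ (f k).2) *
      (N / Real.pi) ^ D.length * ZD N D (wf f)) ∧
  ∀ (n : ℕ) (f : Fin n → Bool × ℕ), ∃ β γ : ℚ, ∀ N : ℕ, 0 < N →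
    ∏ k, Kg N (sg (f k).1) ^ (f k).2 =
      cs N (-((∑ k, wf f k : ℤ) : ℝ) / 4 * (N : ℝ) ^ 2 + β * N + γ)

end Pool.Agent.H760.AR
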