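import Pool.Agent.H760.AR.Stm2
import Pool.Graph.R_seed8.Y814.TA.Gsq

/-!
# The coefficients of the expansions for highly twisted knots are in the trace field: statements,
part 3 (the square of the leading coefficient)
-/

set_option autoImplicit false

namespace Pool.Agent.H760.AR

open Finset Filter Topology MeasureTheory
open Pool.Agent.Q99.KN (bb ct St LC S_LC S_GAM Gm S_LAP S_GIM)
open Pool.Agent.Q99.HX (Xp Sd UA S_UA S_GX S_PX S_LPX S_FLAP AXc)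
open Pool.Agent.Q99.HT
open Pool.Agent.Q99.HU
open Pool.Agent.Y472.L (pI Jt HP TP mn tc)
open Pool.Agent.Q202.HX2 (Gt)
open Pool.Agent.Q251.KN (fz Eg)
open Pool.Agent.Q176.HX (cT cJ cZ qq HH)

/-- the coefficients `y j` are in `(2 π i)^j E y 0`, and the square of `y 0` is in
`i^m π^(2 c) E` -/
def As (E : Subfield ℂ) (m c : ℕ) (y : ℕ → ℂ) : Prop :=
  Ar E y ∧ ∃ e ∈ E, y 0 ^ 2 = Complex.I ^ m * (Real.pi : ℂ) ^ (2 * c) * e

/-- **AR-E5r: the limit of the amplitude of one region and its square.**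

Proof.  For large `N` (proof of `task_PX` in `Q202/HX2/PX.lean`: the equality `e`, `br_eq`, `lf_shift`,
`args_Sd`)
`Am N α q0 v ζ = ∏ i, if ctr α i = 0 then 1 else Gt 0 N (nz ζ i) * (Gt (-(sh q0 i)) N (1 - nz ζ i
+ lf v i) * Gt (sh q0 i - 1/2) N (1 - lf v i))` with integers `sh q0 i`, and `Gt s N x → exp (s * bb x)`
for `x ∈ Sd r` (`ux1`, `ux2` in `Q162/HX/GX.lean` with `K = 1`: `co_zero`: `co (r/2) F 0 = F 0`,
`pm s 0 = 0`; `Gm_eq`; see the end of `task_GX`), `exp (bb x) = 2 sin (π x)` (`≠ 0` in the strip).  So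
`g = ∏_{i, ctr ≠ 0} (2 sin π (1 - ν + ξ))^{-s_i} exp ((s_i - 1/2) bb (1 - ξ))`,
`ν = nz ζ i`, `ξ = lf v i`, `exp (bb (1 - ξ)) = 2 sin (π ξ)`.  With `z = exp (2 π i x) = exp (pI x)`:
`(2 sin (π x))^2 = -(z - 1)^2 / z ∈ E` if `z ∈ E`, so
`g^2 = ∏_{i, ctr ≠ 0} (element of E) / (2 sin (π ξ))`, and
`1 / (2 sin (π ξ)) = I exp (π I ξ) / (z - 1)`, `z = exp (pI ξ)`.  All these `z` are in `E` (`lf`, `nz` are
sums of coordinates and of `± ζ / 2`; `exp (pI / 2) = -1`).  Finally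
`∏_{i, ctr ≠ 0} exp (π I lf v i) = exp (π I ∑_i lf v i) = exp (pI (v 0 + v 1 + v 2)) ∈ E`: if
`ctr α i = 0` then `lf v i = 0` by `Adm α v` (`ctr α = ![α 0, α 1, 1/2 - α 2, α 3, α 4, 1/2 - α 5]`,
`Fr α`: `α 0 + α 1 + α 2 = 1/2`, all `≥ 0`, `α 4 = 0` iff `α 1 = 0`).  `na α` is the number of `i` with
`ctr α i ≠ 0`. -/
def S_E5r : Prop := S_LC → S_GAM → ∀ (α : Fin 6 → ℝ) (r κ K C0 : ℝ), Fr α → Blk α r κ K C0 →
  ∀ (q0 : Fin 3 → ℤ) (v : Fin 4 → ℂ) (ζ : ℂ), v ∈ Metric.ball (vC α) (r / 2) → ‖ζ‖ < r / 2 →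
  Adm α v → ∀ E : Subfield ℂ, Complex.exp (pI * (ζ / 2)) ∈ E → (∀ k, Complex.exp (pI * v k) ∈ E) →
  ∃ g : ℂ, Tendsto (fun N : ℕ => Pool.Agent.Q99.HX.Am N α q0 v ζ) atTop (𝓝 g) ∧
    ∃ e ∈ E, g ^ 2 = Complex.I ^ na α * e

/-- **AR-E5: the square of the limit of the amplitude at the critical point.**

Proof.  `HH X T J ζ N 0 = ∏ s, fz N (ζ s) * Am N (X.α s) (X.q0 s) (X.v T J s) (ζ s)` (`cT_zero`,
`cJ_zero`, `cZ_zero` in `Q176/HX/LPXA.lean`).  `fz N (ζ s) → π / I sin (π ζ s)` (`‖Eg N Z‖ =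
exp (- π N Im Z)`, `eg_norm`, `fz_diff`), whose square is `- π² sin² (π ζ s) = π² (z - 1)^2 / (4 z)`,
`z = exp (pI ζ) = exp (pI (ζ/2))^2 ∈ E`.  `Am` by `S_E5r`: `X.v T J s ∈ ball (vC (X.α s)) (r/2)`, `‖ζ s‖ < r/2`
by `X.Rg (r / 2)`; `Adm (X.α s) (X.v T J s)` by `X.Okb` (`zer`) and `X.AJ J` (compare `adm_dv` in
`Q99/HU/Q239/MXN.lean`, `adm_v` in `Q239/HT/LPNB.lean`: there must be a version for `Okb` in `Q99/HU/Q239`;
otherwise copy it).  The limit of a product is the product of the limits (unique), `X.nA = ∑ s, na (X.α s)`. -/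
def S_E5 : Prop := S_E5r → S_LC → S_GAM → ∀ (c d : ℕ) (X : Nw c d), X.Okb →
  ∀ (r κ K C0 : ℝ) (T : Fin d → ℂ) (J ζ : Fin c → ℂ), (∀ s, Blk (X.α s) r κ K C0) →
  X.Rg (r / 2) T J ζ → X.AJ J → (∀ s, 0 < (ζ s).im) → ∀ E : Subfield ℂ, Gn X T J ζ E →
  ∀ h : ℂ, Tendsto (fun N : ℕ => HH X T J ζ N 0) atTop (𝓝 h) →
  ∃ e ∈ E, h ^ 2 = Complex.I ^ X.nA * (Real.pi : ℂ) ^ (2 * c) * e

end Pool.Agent.H760.AR
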