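import Pool.Agent.H760.AR.Stm3
import Pool.Graph.R_pool_sql_team_seeded_3997aac3.Q99.HU.Q239.MXN

/-!
# The shapes are algebraic: statements
-/

set_option autoImplicit false

namespace Pool.Agent.H760.AR

open Finset Filter Topology MeasureTheory
open Pool.Agent.Q99.KN (bb ct St LC S_LC S_GAM)
open Pool.Agent.Q99.HT
open Pool.Agent.Q99.HU
open Pool.Agent.Y472.L (pI)

/-- the logarithmic derivative of `exp a` -/
noncomputable def th (D : Derivation ℚ ℂ ℂ) (a : ℂ) : ℂ := D (Complex.exp a) / Complex.exp a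

/-- **AL1: derivations of `ℂ` detect transcendental numbers.**  (Mathlib only.)

Proof.  Let `B` be a transcendence basis of `ℂ` over `ℚ` with `z ∈ B` (`z` is transcendental, so the
family `{z}` is algebraically independent; `AlgebraicIndependent` extends to a transcendence basis:
`exists_isTranscendenceBasis_superset` or similar in
`Mathlib/RingTheory/AlgebraicIndependent/TranscendenceBasis.lean`).  `A = MvPolynomial B ℚ` acts on `ℂ` by
`aeval`, `K = FractionRing A` (or `IntermediateField.adjoin ℚ B`) is a localisation of `A`, so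
`Algebra.FormallyEtale A K` (`Algebra.FormallyEtale.of_isLocalization`), and `ℂ` is algebraic over `K`,
separable because of the characteristic zero, so `Algebra.FormallyEtale K ℂ`
(`Algebra.FormallyEtale.of_isSeparable`); `Algebra.FormallyEtale.comp`.  By
`KaehlerDifferential.tensorKaehlerEquivOfFormallyEtale ℚ A ℂ : ℂ ⊗[A] Ω[A⁄ℚ] ≃ₗ[ℂ] Ω[ℂ⁄ℚ]`
(`Mathlib/RingTheory/Etale/Kaehler.lean`) and `KaehlerDifferential.mvPolynomialBasis` (base change of
the basis) there is a `ℂ`-linear map `f : Ω[ℂ⁄ℚ] → ℂ` with `f (D z) = 1`, and `f.compDer (D ℚ ℂ)` is the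
derivation.  Alternatively: the derivation `∂/∂z` of `MvPolynomial B ℚ` (`MvPolynomial.mkDerivation`),
extended to the localisation and then by formal étaleness; or transfinite extension with Zorn's
lemma. -/
def S_AL1 : Prop := ∀ z : ℂ, ¬ IsAlgebraic ℚ z → ∃ D : Derivation ℚ ℂ ℂ, D z ≠ 0

/-- **AL2: the logarithmic derivative.**  (Mathlib only, up to the definitions `pI = 2 π i`,
`ct x = π (cos (π x) / sin (π x))`.)

Proof.  (1) Leibniz.  (2) `a ↦ th D a` is an additive map between `ℚ`-vector spaces (`map_rat_smul`,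
`AddMonoidHom.toRatLinearMap`).  (3) `exp pI = 1`, `D 1 = 0`, so `th D pI = 0`; (2).
(4) `2 b` is a logarithm of `(2 sin (π x))^2 = -(z - 1)^2 / z`, `z = exp (pI x) ≠ 1` (`sin ≠ 0`), so
`2 th D b = th D (2 b) = 2 D z / (z - 1) - D z / z = ((z + 1) / (z - 1)) (D z / z)`, and
`ct x = (pI / 2) ((z + 1) / (z - 1))`. -/
def S_AL2 : Prop := ∀ D : Derivation ℚ ℂ ℂ,
  (∀ a b : ℂ, th D (a + b) = th D a + th D b) ∧
  (∀ (q : ℚ) (a : ℂ), th D (q * a) = q * th D a) ∧
  (∀ q : ℚ, th D (pI * q) = 0) ∧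
  ∀ x b : ℂ, Complex.exp b = 2 * Complex.sin (Real.pi * x) → Complex.sin (Real.pi * x) ≠ 0 →
    th D b = ct x / pI * th D (pI * x)

/-- **AL3: the logarithmic derivative of the gradient is the second derivative.**

Proof.  Write `θ a = th D (pI a)`, `T' = θ ∘ T`, `J' = θ ∘ J`, `ζ' = θ ∘ ζ`.  By `S_AL2` `θ` is `ℚ`-linear and
`θ q = 0` for rational `q`.  So `θ (X.v T J s k) = X.dv T' J' s k` (`X.x T s i = q0 s i + ∑ j, T j * E j s i`
with integers `q0`, `E`), `θ (nz (ζ s) i) = s6 i * ζ' s / 2` (`nz ζ i = 1/2 + s6 i ζ / 2`, `s6 i = ± 1`),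
`θ (lf (X.v T J s) i) = lf (X.dv T' J' s) i`.  For one bracket with `ν`, `ξ`, `ν - ξ ∈ St` and rational
`a`, `b`: `th D (gT ν ξ a b) = hT ν ξ (θ ν) (θ ξ) a b / pI` by `S_AL2` (4) (`exp (bb x) = 2 sin (π x)`, not
zero in the strip; `bb x = log (2 sin (π x))`).  In `GP` the coefficients `a = s6 i * ζ'' s / 2`,
`b = lf (X.dv T'' J'' s) i` are rational for integers `T''`, `J''`, `ζ''`, and
`th D ((I π w ζ/2 + I π) ζ'') = w θ(ζ) ζ'' / 4` (`I π = pI / 2`).  Membership in `St`: `nz_St`, `nl_St` in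
`Q176/HX/LPXA.lean` and `lf_St` in `Q99/HU/Q239/LPNA.lean` (from `Blk`, `Fr`, `X.Rg r T J ζ`). -/
def S_AL3 : Prop := S_AL2 → S_LC → ∀ (c d : ℕ) (X : Nw c d) (r κ K C0 : ℝ) (w : Fin c → ℤ)
  (T : Fin d → ℂ) (J ζ : Fin c → ℂ), (∀ s, Fr (X.α s)) → (∀ s, Blk (X.α s) r κ K C0) →
  X.Rg r T J ζ → ∀ (D : Derivation ℚ ℂ ℂ) (T'' : Fin d → ℤ) (J'' ζ'' : Fin c → ℤ),
  th D (X.GP w T J ζ (fun j => T'' j) (fun s => J'' s) (fun s => ζ'' s)) =
    X.HP w T J ζ (fun j => th D (pI * T j)) (fun s => th D (pI * J s)) (fun s => th D (pI * ζ s))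
      (fun j => T'' j) (fun s => J'' s) (fun s => ζ'' s) / pI

/-- **AL4: the second derivative is not degenerate.**

Proof.  `HP` is bilinear over `ℂ` and symmetric in the two directions (`hT` is).  So it vanishes for
all complex second directions `(T'', J'', ζ'')` with `J'' s = 0` if `X.α s 1 = 0` (write them as linear
combinations of integral unit vectors).  Take the complex conjugate of the first direction:
with `T' = a + i a'` etc. (`a`, `a'` real), `0 = Re HP (u, conj u) = Re HP (a, a) + Re HP (a', a')`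
(the mixed terms cancel by symmetry), and by `HP_le` (`Q99/HU/Q239/MXN.lean`)
`Re HP (a, a) ≤ - 2 κ (∑ s, ∑ i, (∑ j, a j * E j s i)^2 + ∑ s, b s^2 + ∑ s, g s^2)`, `κ > 0` (`Blk.κ0`; if
`c = 0` then `X.Okb.inj` gives `d = 0`, in general: `a = 0` by `inj`).  So all of them vanish. -/
def S_AL4 : Prop := ∀ (c d : ℕ) (X : Nw c d), X.Okb → ∀ (r κ K C0 : ℝ) (w : Fin c → ℤ)
  (T : Fin d → ℂ) (J ζ : Fin c → ℂ), (∀ s, Blk (X.α s) r κ K C0) → X.Rg r T J ζ →
  ∀ (T' : Fin d → ℂ) (J' ζ' : Fin c → ℂ), X.AJ J' →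
  (∀ (T'' : Fin d → ℤ) (J'' ζ'' : Fin c → ℤ), (∀ s, X.α s 1 = 0 → J'' s = 0) →
    X.HP w T J ζ T' J' ζ' (fun j => T'' j) (fun s => J'' s) (fun s => ζ'' s) = 0) →
  T' = 0 ∧ J' = 0 ∧ ζ' = 0

/-- the exponentials of the coordinates are algebraic -/
def Gz {c d : ℕ} (X : Nw c d) (T : Fin d → ℂ) (J ζ : Fin c → ℂ) : Prop :=
  ∀ s, IsAlgebraic ℚ (Complex.exp (pI * (ζ s / 2))) ∧
    ∀ k, IsAlgebraic ℚ (Complex.exp (pI * X.v T J s k))

/-- **AL5: the exponentials of the coordinates of a critical point are algebraic.**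

Proof.  Otherwise one of them is transcendental and there is a derivation `D` which does not vanish at
it (`S_AL1`).  `X.Cr.eq`: `GP = 0` for all directions with `X.AJ J''`, so by `S_AL3` (`th D 0 = 0`,
`pI ≠ 0`) `HP = 0` for the direction `(θ T, θ J, θ ζ)` and all integral directions with `J'' s = 0` if
`X.α s 1 = 0`; `X.AJ (θ J)` because `J s = 0` if `X.α s 1 = 0` and `θ 0 = 0`.  By `S_AL4` `θ T = θ J = θ ζ = 0`,
so by `S_AL2` `θ (ζ s / 2) = 0` and `θ (X.v T J s k) = 0` (linear combinations with integral coefficients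
and an integer), that is `D (exp (pI x)) = 0` for these `x`: a contradiction. -/
def S_AL5 : Prop := S_AL1 → S_AL2 → S_AL3 → S_AL4 → S_LC → ∀ (c d : ℕ) (X : Nw c d), X.Okb →
  ∀ (r κ K C0 : ℝ) (w : Fin c → ℤ) (T : Fin d → ℂ) (J ζ : Fin c → ℂ),
  (∀ s, Blk (X.α s) r κ K C0) → X.Rg r T J ζ → X.Cr w T J ζ → Gz X T J ζ

end Pool.Agent.H760.AR
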