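import Pool.Agent.H760.AR.Stm3
import Pool.Agent.H760.AR.Stm5
import Pool.Agent.H760.AR.T3

/-!
# The coefficients of the expansions for highly twisted knots are in the trace field: statements,
part 4 (with the square of the leading coefficient)
-/

set_option autoImplicit false

namespace Pool.Agent.H760.AR

open Finset Filter Topology MeasureTheory
open Pool.Agent.Q99.KN (bb ct St LC S_LC S_GAM Gm S_LAP S_GIM)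
open Pool.Agent.Q99.HX (Xp Sd UA S_UA S_GX S_PX S_LPX S_FLAP AXc)
open Pool.Agent.Q99.HT
open Pool.Agent.Q99.HU
open Pool.Agent.Y472.L (pI Jt HP TP mn tc)
open Pool.Agent.Q202.HX2 (Gt)
open Pool.Agent.Q251.KN (fz Eg)
open Pool.Agent.Q176.HX (cT cJ cZ qq HH)
open Pool.Agent.Q191.LB (sg)
open Pool.Agent.Q191.TW (cs)
open Pool.Agent.Q99.FW (Kg)
open Pool.Agent.W715.VC (rt)
open Pool.Agent.W709.QAT (Piece run)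
open Pool.Agent.Q99.FAL (Pc Ty Val Pri Pos AS Sol Out c6 fV n1 n2 cor dn)
open Pool.Agent.H903.AR (S_T3s)

variable {c d : ℕ}

/-- the conclusion of `S_AL5` -/
def ALc : Prop := ∀ (c d : ℕ) (X : Nw c d), X.Okb →
  ∀ (r κ K C0 : ℝ) (w : Fin c → ℤ) (T : Fin d → ℂ) (J ζ : Fin c → ℂ),
  (∀ s, Blk (X.α s) r κ K C0) → X.Rg r T J ζ → X.Cr w T J ζ → Gz X T J ζ

/-- the integral -/
def S_LPXs : Prop := ALc → S_T3a → S_T3s → S_E5r → S_E5 → S_E1 → S_E2 → S_E3 → S_E4 → S_Q → S_T1 → S_T2 → S_T2b →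
  S_LC → S_GAM → S_FLAP → S_GX → S_UA → S_PX → S_MXNb → S_BXNb →
  ∀ (c d : ℕ) (X : Nw c d), X.Okb →
  ∀ r κ K C0 : ℝ, (∀ s, Blk (X.α s) r κ K C0) → ∃ δ0 : ℝ, 0 < δ0 ∧ ∀ δ : ℝ, 0 < δ → δ ≤ δ0 →
  ∃ ρ : ℝ, 0 < ρ ∧ ∀ (w : Fin c → ℤ) (T : Fin d → ℂ) (J ζ : Fin c → ℂ), X.Cr w T J ζ →
  X.Nr ρ T J ζ → (∀ s, 0 < (ζ s).im) → ∃ y : ℕ → ℂ,
  Xp (fun N : ℕ => ((√N : ℝ) : ℂ) ^ X.nA / ((√N : ℝ) : ℂ) ^ Fintype.card X.Ix *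
    (-1) ^ (c * (N - 1)) * Complex.exp (-(N * X.Ph w T J ζ)) * (N ^ d *
    ∫ x in X.bx δ N, ∏ s, FZ r N (X.α s) (w s) (ζ s).im (J s).im
      (X.xN N (fun j => x j + (T j).im * Complex.I) s))) y ∧
  (∀ E : Subfield ℂ, Gn X T J ζ E → y 0 ≠ 0 →
    As E (X.nA + Fintype.card X.Ix) c y) ∧ Gz X T J ζ

/-- the conclusion of `S_LPXE` -/
def LPXcs : Prop := S_MXNb → S_BXNb →
  ∀ (c d : ℕ) (X : Nw c d), X.Okb →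
  ∀ r κ K C0 : ℝ, (∀ s, Blk (X.α s) r κ K C0) → ∃ δ0 : ℝ, 0 < δ0 ∧ ∀ δ : ℝ, 0 < δ → δ ≤ δ0 →
  ∃ ρ : ℝ, 0 < ρ ∧ ∀ (w : Fin c → ℤ) (T : Fin d → ℂ) (J ζ : Fin c → ℂ), X.Cr w T J ζ →
  X.Nr ρ T J ζ → (∀ s, 0 < (ζ s).im) → ∃ y : ℕ → ℂ,
  Xp (fun N : ℕ => ((√N : ℝ) : ℂ) ^ X.nA / ((√N : ℝ) : ℂ) ^ Fintype.card X.Ix *
    (-1) ^ (c * (N - 1)) * Complex.exp (-(N * X.Ph w T J ζ)) * (N ^ d *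
    ∫ x in X.bx δ N, ∏ s, FZ r N (X.α s) (w s) (ζ s).im (J s).im
      (X.xN N (fun j => x j + (T j).im * Complex.I) s))) y ∧
  (∀ E : Subfield ℂ, Gn X T J ζ E → y 0 ≠ 0 →
    As E (X.nA + Fintype.card X.Ix) c y) ∧ Gz X T J ζ

/-- the conclusion of `S_ASX` with the field -/
def AXs : Prop := ∀ (c d : ℕ) (X : Nw c d), X.Okb → X.Far →
  (∀ s, ∃ κ C0 ρ : ℝ, 0 < κ ∧ 0 < ρ ∧ Ltn (X.α s) κ C0 ρ) → ∃ ρ0 : ℝ, 0 < ρ0 ∧ ∀ ρ : ℝ, 0 < ρ →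
  ρ ≤ ρ0 → ∃ W0 C : ℝ, 1 ≤ W0 ∧ ∀ (w : Fin c → ℤ) (Wm : ℝ), W0 ≤ Wm → (∀ s, Wm ≤ |(w s : ℝ)|) →
  ∃ (T : Fin d → ℂ) (J ζ : Fin c → ℂ), X.Cr w T J ζ ∧ X.Nr ρ T J ζ ∧ (∀ s, 0 < (ζ s).im) ∧
    |(X.Ph w T J ζ).re - ∑ s, v0 (X.α s)| ≤ C / Wm ^ 2 ∧
    (∀ (T' : Fin d → ℂ) (J' ζ' : Fin c → ℂ), X.Cr w T' J' ζ' → X.Nr ρ T' J' ζ' →
      T' = T ∧ J' = J ∧ ζ' = ζ) ∧
    ∃ y : ℕ → ℂ, y 0 ≠ 0 ∧ Xp (fun N : ℕ => ((√N : ℝ) : ℂ) ^ X.nA /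
      ((√N : ℝ) : ℂ) ^ Fintype.card X.Ix * (-1) ^ (c * (N - 1)) *
      Complex.exp (-(N * X.Ph w T J ζ)) * X.Z N w) y ∧ (∀ E : Subfield ℂ, Gn X T J ζ E →
        As E (X.nA + Fintype.card X.Ix) c y) ∧ Gz X T J ζ

/-- the state sum -/
def S_ASXs : Prop := LPXcs → S_LC → S_GAM → S_BMO →
  (∀ α : Fin 6 → ℝ, Fr α → ∃ r κ K C0 : ℝ, Blk α r κ K C0) → S_LMO → S_ZZ → S_NW0b → S_GPX →
  S_MPX → BNcb → S_NWb → S_SDNb → S_LAP → S_GIM → S_MXNb → S_BXNb → S_LPNb → S_LTd → AXs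

/-- the state sum of a link -/
def S_FINs : Prop := AXs → ∀ (_ : S_NE) (_ : S_NOb) (_ : S_NDM) (_ : S_FAR) (_ : FSc)
    (_ : ∀ α : Fin 6 → ℝ, Fr α → α 1 ≤ α 2 → α 4 ≤ α 5 → NdP α →
      ∃ κ C0 ρ : ℝ, 0 < κ ∧ 0 < ρ ∧ Ltn α κ C0 ρ)
    (_ : S_NR) (_ : NZc) (_ : NTcb)
    (_ : S_NDib) (_ : VFc) (D : List Pc) (_ : Val D 1) (_ : Pri D 1) (_ : D ≠ [])
    (a : Fin D.length → Fin 6 → ℝ) (_ : Mx D a) (_ : Dm D a),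
    ∃ ρ0 : ℝ, 0 < ρ0 ∧ ∀ ρ : ℝ, 0 < ρ → ρ ≤ ρ0 → ∃ W0 C : ℝ, 1 ≤ W0 ∧
    ∀ (w : Fin D.length → ℤ) (Wm : ℝ), W0 ≤ Wm → (∀ k, Wm ≤ |(w k : ℝ)|) →
    ∃ x : Fin D.length → Fin 6 → ℂ, CrI D w x ∧ (∀ s i, ‖x s i - a s i‖ < ρ) ∧
      (∀ x', CrI D w x' → (∀ s i, ‖x' s i - a s i‖ < ρ) → x' = x) ∧
      (∀ s, 0 < (n1 (x s) - n2 (x s)).im) ∧ VI x = 2 * Real.pi * (PI w x).re ∧
      |VI x - 2 * Real.pi * fV a| ≤ C / Wm ^ 2 ∧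
      ∃ y : ℕ → ℂ, y 0 ≠ 0 ∧ Xp (fun N : ℕ => (N : ℂ) ^ D.length * ZD N D w /
        (N * (√N : ℝ) * ((-1) ^ (D.length * (N - 1)) * Complex.exp (N * PI w x)))) y ∧
        (∀ E : Subfield ℂ, (∀ s i, Complex.exp (pI * x s i) ∈ E) → As E 1 D.length y) ∧
        ∀ s i, IsAlgebraic ℚ (Complex.exp (pI * x s i))

end Pool.Agent.H760.AR
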