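import Mathlib

/-!
# Uniqueness of asymptotic expansions
-/

set_option autoImplicit false

namespace Pool.Agent.H760.AR.Uniq

open Finset Filter Topology

/-- the expansion -/
def Ex (A : ℕ → ℂ) (φ : ℕ → ℂ) : Prop := ∀ K : ℕ, ∃ C : ℝ, ∀ᶠ N : ℕ in atTop,
  ‖A N - ∑ k ∈ range K, φ k * (2 * Real.pi * Complex.I / N) ^ k‖ ≤ C / (N : ℝ) ^ K

lemma norm_h {N : ℕ} (k : ℕ) :
    ‖(2 * Real.pi * Complex.I / (N : ℂ)) ^ k‖ = (2 * Real.pi) ^ k / (N : ℝ) ^ k := by
  rw [norm_pow, norm_div, norm_mul, norm_mul, Complex.norm_I, Complex.norm_natCast, mul_one,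
    Complex.norm_real, Real.norm_of_nonneg Real.pi_pos.le, div_pow]
  norm_num

/-- the coefficients -/
theorem coef {A φ φ0 : ℕ → ℂ} (H : Ex A φ) (H0 : Ex A φ0) : φ = φ0 := by
  funext k
  induction k using Nat.strong_induction_on with
  | _ k ih =>
    obtain ⟨C, h⟩ := H (k + 1)
    obtain ⟨C', h'⟩ := H0 (k + 1)
    by_contra hne
    have hpos : 0 < ‖φ k - φ0 k‖ * (2 * Real.pi) ^ k :=
      mul_pos (norm_pos_iff.2 (sub_ne_zero.2 hne)) (by positivity)
    have hlim : Tendsto (fun N : ℕ => (C + C') / (N : ℝ)) atTop (𝓝 0) :=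
      tendsto_const_div_atTop_nhds_zero_nat _
    have hev := hlim.eventually (gt_mem_nhds hpos)
    obtain ⟨N, hN, hN', hN2, hN1⟩ := (h.and (h'.and (hev.and (eventually_ge_atTop 1)))).exists
    have hN0 : (0 : ℝ) < N := by exact_mod_cast hN1
    have e1 : ∑ j ∈ range k, φ j * (2 * Real.pi * Complex.I / (N : ℂ)) ^ j =
        ∑ j ∈ range k, φ0 j * (2 * Real.pi * Complex.I / (N : ℂ)) ^ j :=
      sum_congr rfl fun j hj => by rw [ih j (mem_range.1 hj)]
    rw [sum_range_succ] at hN hN'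
    have e2 : ‖(φ k - φ0 k) * (2 * Real.pi * Complex.I / (N : ℂ)) ^ k‖ ≤
        C / (N : ℝ) ^ (k + 1) + C' / (N : ℝ) ^ (k + 1) := by
      calc _ = ‖(A N - (∑ j ∈ range k, φ0 j * (2 * Real.pi * Complex.I / (N : ℂ)) ^ j +
            φ0 k * (2 * Real.pi * Complex.I / (N : ℂ)) ^ k)) -
            (A N - (∑ j ∈ range k, φ j * (2 * Real.pi * Complex.I / (N : ℂ)) ^ j +
            φ k * (2 * Real.pi * Complex.I / (N : ℂ)) ^ k))‖ := by
            rw [e1]
            congr 1
            ring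
        _ ≤ _ := by
            refine (norm_sub_le _ _).trans ?_
            rw [add_comm]
            exact add_le_add hN hN'
    rw [norm_mul, norm_h, ← add_div, ← mul_div_assoc, div_le_div_iff₀ (by positivity)
      (by positivity), pow_succ] at e2
    rw [div_lt_iff₀ hN0] at hN2
    have hNk : (0 : ℝ) < (N : ℝ) ^ k := by positivity
    have e3 : (‖φ k - φ0 k‖ * (2 * Real.pi) ^ k * N) * (N : ℝ) ^ k ≤ (C + C') * (N : ℝ) ^ k := by
      calc _ = ‖φ k - φ0 k‖ * (2 * Real.pi) ^ k * ((N : ℝ) ^ k * N) := by ring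
        _ ≤ _ := e2
    have e4 := le_of_mul_le_mul_right e3 hNk
    linarith

/-- the leading term -/
theorem lead {A φ : ℕ → ℂ} (H : Ex A φ) (k : ℕ) (hk : ∀ j < k, φ j = 0) :
    Tendsto (fun N : ℕ => A N * (N : ℂ) ^ k) atTop (𝓝 (φ k * (2 * Real.pi * Complex.I) ^ k)) := by
  obtain ⟨C, h⟩ := H (k + 1)
  rw [tendsto_iff_norm_sub_tendsto_zero]
  have hlim : Tendsto (fun N : ℕ => C / (N : ℝ)) atTop (𝓝 0) :=
    tendsto_const_div_atTop_nhds_zero_nat _
  refine squeeze_zero' (Eventually.of_forall fun N => norm_nonneg _) ?_ hlim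
  filter_upwards [h, eventually_ge_atTop 1] with N hN hN1
  have hN0 : (0 : ℝ) < N := by exact_mod_cast hN1
  have hN0' : (N : ℂ) ≠ 0 := by
    have : N ≠ 0 := by omega
    exact_mod_cast this
  rw [sum_range_succ, sum_eq_zero fun j hj => by rw [hk j (mem_range.1 hj), zero_mul],
    zero_add] at hN
  have e : A N * (N : ℂ) ^ k - φ k * (2 * Real.pi * Complex.I) ^ k =
      (A N - φ k * (2 * Real.pi * Complex.I / N) ^ k) * (N : ℂ) ^ k := by
    rw [div_pow]
    field_simp
  rw [e, norm_mul, norm_pow, Complex.norm_natCast]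
  calc _ ≤ C / (N : ℝ) ^ (k + 1) * (N : ℝ) ^ k := by gcongr
    _ = C / N := by
      rw [pow_succ]
      field_simp

/-- **Uniqueness of the exponent and of the series.** -/
theorem uniq {a : ℕ → ℂ} {v0 v : ℂ} {φ0 φ : ℕ → ℂ}
    (H0 : Ex (fun N : ℕ => a N / (N * √N * Complex.exp (v0 * N))) φ0)
    (H : Ex (fun N : ℕ => a N / (N * √N * Complex.exp (v * N))) φ) (h0 : φ0 0 ≠ 0)
    (h : v.re = v0.re ∨ ∃ k, φ k ≠ 0) : (∃ n : ℤ, v = v0 + n * (2 * Real.pi * Complex.I)) ∧
      φ = φ0 := by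
  have hA := lead H0 0 (fun j hj => absurd hj (by omega))
  simp only [pow_zero, mul_one] at hA
  set A : ℕ → ℂ := fun N : ℕ => a N / (N * √N * Complex.exp (v0 * N)) with hAd
  set B : ℕ → ℂ := fun N : ℕ => a N / (N * √N * Complex.exp (v * N)) with hBd
  have hBA : ∀ N : ℕ, B N = A N * Complex.exp (v0 - v) ^ N := by
    intro N
    rw [hAd, hBd, ← Complex.exp_nat_mul]
    have : Complex.exp (v0 * N) = Complex.exp (v * N) * Complex.exp (N * (v0 - v)) := by
      rw [← Complex.exp_add]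
      congr 1
      ring
    show a N / (N * √N * Complex.exp (v * N)) =
      a N / (N * √N * Complex.exp (v0 * N)) * Complex.exp (N * (v0 - v))
    rw [this, div_mul_eq_mul_div, ← mul_assoc, mul_div_mul_right _ _ (Complex.exp_ne_zero _)]
  have hex : ∃ k, φ k ≠ 0 := by
    rcases h with h | h
    · by_contra hne
      push Not at hne
      have hB := lead H 0 (fun j hj => absurd hj (by omega))
      simp only [pow_zero, mul_one, hne 0] at hB
      have h1 : Tendsto (fun N => ‖B N‖) atTop (𝓝 0) := by simpa using hB.norm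
      have h2 : Tendsto (fun N => ‖A N‖) atTop (𝓝 ‖φ0 0‖) := hA.norm
      have h3 : ∀ N, ‖B N‖ = ‖A N‖ := by
        intro N
        rw [hBA, norm_mul, norm_pow, Complex.norm_exp]
        simp [h]
      have h4 := tendsto_nhds_unique (h1.congr h3) h2
      exact h0 (norm_eq_zero.1 h4.symm)
    · exact h
  classical
  set k0 := Nat.find hex with hk0
  have hk1 : φ k0 ≠ 0 := Nat.find_spec hex
  have hk2 : ∀ j < k0, φ j = 0 := fun j hj => by
    by_contra hne
    exact Nat.find_min hex hj hne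
  have hB := lead H k0 hk2
  have hc : φ k0 * (2 * Real.pi * Complex.I) ^ k0 ≠ 0 :=
    mul_ne_zero hk1 (pow_ne_zero _ Complex.two_pi_I_ne_zero)
  set e := Complex.exp (v0 - v) with he
  set dd := φ k0 * (2 * Real.pi * Complex.I) ^ k0 / φ0 0 with hdd
  have hd : dd ≠ 0 := div_ne_zero hc h0
  have hg : Tendsto (fun N : ℕ => e ^ N * (N : ℂ) ^ k0) atTop (𝓝 dd) := by
    refine (hB.div hA h0).congr' ?_
    filter_upwards [hA.eventually_ne h0] with N hN
    show B N * (N : ℂ) ^ k0 / A N = e ^ N * (N : ℂ) ^ k0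
    rw [hBA]
    field_simp
  have hg1 := hg.comp (tendsto_add_atTop_nat 1)
  have hr : Tendsto (fun N : ℕ => (e ^ (N + 1) * ((N + 1 : ℕ) : ℂ) ^ k0) / (e ^ N * (N : ℂ) ^ k0))
      atTop (𝓝 1) := by
    have := hg1.div hg hd
    rwa [div_self hd] at this
  have hr2 : Tendsto (fun N : ℕ => e * (((N + 1 : ℕ) : ℂ) / (N : ℂ)) ^ k0) atTop (𝓝 (e * 1 ^ k0)) := by
    refine tendsto_const_nhds.mul (Tendsto.pow ?_ k0)
    have h1 : Tendsto (fun N : ℕ => (1 : ℂ) + 1 / (N : ℂ)) atTop (𝓝 (1 + 0)) := by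
      refine tendsto_const_nhds.add ?_
      exact tendsto_one_div_atTop_nhds_zero_nat
    rw [add_zero] at h1
    refine h1.congr' ?_
    filter_upwards [eventually_ge_atTop 1] with N hN
    have hN0' : (N : ℂ) ≠ 0 := by
      have : N ≠ 0 := by omega
      exact_mod_cast this
    push_cast
    field_simp
  have he1 : e = 1 := by
    have h5 : Tendsto (fun N : ℕ => e * (((N + 1 : ℕ) : ℂ) / (N : ℂ)) ^ k0) atTop (𝓝 1) := by
      refine hr.congr' ?_
      filter_upwards [eventually_ge_atTop 1] with N hN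
      have hN0' : (N : ℂ) ≠ 0 := by
        have : N ≠ 0 := by omega
        exact_mod_cast this
      have hen : e ^ N ≠ 0 := pow_ne_zero _ (Complex.exp_ne_zero _)
      rw [pow_succ, div_pow]
      field_simp
    have := tendsto_nhds_unique hr2 h5
    simpa using this
  refine ⟨?_, ?_⟩
  · obtain ⟨n, hn⟩ := Complex.exp_eq_one_iff.1 he1
    refine ⟨-n, ?_⟩
    push_cast
    linear_combination -hn
  · have hAB : B = A := by
      funext N
      rw [hBA, he1, one_pow, mul_one]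
    rw [hAB] at H
    exact coef H H0

end Pool.Agent.H760.AR.Uniq
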